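import Mathlib
import Pool.Agent.R311.RES.C5

/-! Averages over cosets of a group of characters: mean and variance. -/

set_option autoImplicit false

namespace Pool.Agent.K4H49.AC
open Finset Pool.Agent.R311.RES
open scoped Classical

variable {q : ℕ} [Fact q.Prime]

/-- a polynomial in the characters -/
noncomputable def Wf (w : (ZMod q)ˣ → ℂ) (χ : DirichletCharacter ℂ q) : ℂ :=
  ∑ g : (ZMod q)ˣ, w g * χ (g : ZMod q)

lemma sum_chars (g : (ZMod q)ˣ) : ∑ χ : DirichletCharacter ℂ q, χ (g : ZMod q) =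
    if g = 1 then ((q : ℂ) - 1) else 0 := by
  have : NeZero q := ⟨(Nat.Prime.pos Fact.out).ne'⟩
  have h1 := DirichletCharacter.sum_characters_eq ℂ (g : ZMod q)
  have h : ((g : ZMod q) = 1) ↔ g = 1 := by
    rw [← Units.val_one, Units.val_inj]
  rw [Nat.totient_prime Fact.out, Nat.cast_sub (Nat.Prime.one_lt Fact.out).le, Nat.cast_one] at h1
  simp only [h] at h1
  exact h1

lemma parseval (w : (ZMod q)ˣ → ℂ) : ∑ χ : DirichletCharacter ℂ q, ‖Wf w χ‖ ^ 2 =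
    ((q : ℝ) - 1) * ∑ g, ‖w g‖ ^ 2 := by
  have h1 : ∀ χ : DirichletCharacter ℂ q, ((‖Wf w χ‖ ^ 2 : ℝ) : ℂ) =
      ∑ g : (ZMod q)ˣ, ∑ g' : (ZMod q)ˣ,
        (w g * (starRingEnd ℂ) (w g')) * χ ((g * g'⁻¹ : (ZMod q)ˣ) : ZMod q) := by
    intro χ
    rw [← Complex.normSq_eq_norm_sq, ← Complex.mul_conj, Wf, map_sum, Finset.sum_mul_sum]
    apply Finset.sum_congr rfl
    intro g _
    apply Finset.sum_congr rfl
    intro g' _
    rw [map_mul, ← chi_inv, Units.val_mul, map_mul]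
    ring
  have h2 : ((∑ χ : DirichletCharacter ℂ q, ‖Wf w χ‖ ^ 2 : ℝ) : ℂ) =
      (((q : ℝ) - 1) * ∑ g, ‖w g‖ ^ 2 : ℝ) := by
    push_cast
    have h1' : ∀ χ : DirichletCharacter ℂ q, (‖Wf w χ‖ : ℂ) ^ 2 =
      ∑ g : (ZMod q)ˣ, ∑ g' : (ZMod q)ˣ,
        (w g * (starRingEnd ℂ) (w g')) * χ ((g * g'⁻¹ : (ZMod q)ˣ) : ZMod q) := by
      intro χ
      rw [← h1 χ]; push_cast; rfl
    rw [Finset.sum_congr rfl (fun χ _ => h1' χ), Finset.sum_comm, Finset.mul_sum]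
    apply Finset.sum_congr rfl
    intro g _
    rw [Finset.sum_comm]
    have h3 : ∀ g' : (ZMod q)ˣ, ∑ χ : DirichletCharacter ℂ q,
        (w g * (starRingEnd ℂ) (w g')) * χ ((g * g'⁻¹ : (ZMod q)ˣ) : ZMod q) =
        if g = g' then ((q : ℂ) - 1) * (w g * (starRingEnd ℂ) (w g')) else 0 := by
      intro g'
      rw [← Finset.mul_sum, sum_chars]
      by_cases h : g = g'
      · rw [if_pos h, if_pos (by rw [h, mul_inv_cancel])]; ring
      · rw [if_neg h, if_neg (fun h' => h (mul_inv_eq_one.1 h')), mul_zero]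
    rw [Finset.sum_congr rfl (fun g' _ => h3 g'), Finset.sum_ite_eq univ g, if_pos (mem_univ _),
      Complex.mul_conj, Complex.normSq_eq_norm_sq]
    push_cast
    rfl
  exact_mod_cast h2

/-- the sum over a coset -/
lemma coset_sum (H : Subgroup (DirichletCharacter ℂ q)) (w : (ZMod q)ˣ → ℂ)
    (χ₀ : DirichletCharacter ℂ q) :
    ∑ ψ : H, Wf w (χ₀ * ψ) = Wf (fun g => (Fintype.card H : ℂ) * (if g ∈ ann H then w g else 0)) χ₀ := by
  unfold Wf
  rw [Finset.sum_comm]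
  apply Finset.sum_congr rfl
  intro g _
  have h1 : ∀ ψ : H, w g * (χ₀ * (ψ : DirichletCharacter ℂ q)) (g : ZMod q) =
      (w g * χ₀ (g : ZMod q)) * (ψ : DirichletCharacter ℂ q) (g : ZMod q) := by
    intro ψ
    rw [MulChar.mul_apply]; ring
  rw [Finset.sum_congr rfl (fun ψ _ => h1 ψ), ← Finset.mul_sum, orth]
  show _ = (Fintype.card H : ℂ) * (if g ∈ ann H then w g else 0) * χ₀ (g : ZMod q)
  by_cases hg : g ∈ ann H
  · rw [if_pos hg, if_pos hg]; ring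
  · rw [if_neg hg, if_neg hg]; ring

/-- the mean square deviation of the coset averages -/
lemma coset_var (H : Subgroup (DirichletCharacter ℂ q)) (w : (ZMod q)ˣ → ℂ) (t : ℝ) :
    ∑ χ₀ : DirichletCharacter ℂ q, ‖∑ ψ : H, Wf w (χ₀ * ψ) - (Fintype.card H : ℂ) * t‖ ^ 2 =
      ((q : ℝ) - 1) * ((Fintype.card H : ℝ) ^ 2 *
        ∑ g ∈ univ.filter (fun g : (ZMod q)ˣ => g ∈ ann H), ‖w g - (if g = 1 then (t : ℂ) else 0)‖ ^ 2) := by
  have h1 : ∀ χ₀ : DirichletCharacter ℂ q,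
      ∑ ψ : H, Wf w (χ₀ * ψ) - (Fintype.card H : ℂ) * t =
      Wf (fun g => (Fintype.card H : ℂ) * (if g ∈ ann H then (w g - (if g = 1 then (t : ℂ) else 0)) else 0)) χ₀ := by
    intro χ₀
    rw [coset_sum]
    have h2 : (Fintype.card H : ℂ) * t =
        Wf (fun g => (Fintype.card H : ℂ) * (if g = 1 then (t : ℂ) else 0)) χ₀ := by
      unfold Wf
      rw [Finset.sum_eq_single (1 : (ZMod q)ˣ)]
      · show _ = (Fintype.card H : ℂ) * (if (1 : (ZMod q)ˣ) = 1 then (t : ℂ) else 0) * _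
        rw [if_pos rfl, Units.val_one, map_one, mul_one]
      · intro b _ hb
        show (Fintype.card H : ℂ) * (if b = 1 then (t : ℂ) else 0) * _ = 0
        rw [if_neg hb]; ring
      · intro h; exact absurd (mem_univ _) h
    rw [h2]
    unfold Wf
    rw [← Finset.sum_sub_distrib]
    apply Finset.sum_congr rfl
    intro g _
    by_cases hg : g ∈ ann H
    · simp only [hg, if_true]; ring
    · have hg1 : g ≠ 1 := by
        rintro rfl
        exact hg (ann H).one_mem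
      simp only [hg, if_false, hg1]; ring
  rw [Finset.sum_congr rfl (fun χ₀ _ => by rw [h1 χ₀]), parseval]
  congr 1
  rw [Finset.mul_sum, Finset.sum_filter]
  apply Finset.sum_congr rfl
  intro g _
  split_ifs
  · rw [norm_mul, mul_pow]
    simp
  · rw [norm_mul, mul_pow]
    simp
  · simp

/-- translation invariance of the mean over all characters -/
lemma sum_translate (H : Subgroup (DirichletCharacter ℂ q)) (f : DirichletCharacter ℂ q → ℝ) :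
    ∑ χ₀ : DirichletCharacter ℂ q, ∑ ψ : H, f (χ₀ * ψ) =
      (Fintype.card H : ℝ) * ∑ χ : DirichletCharacter ℂ q, f χ := by
  rw [Finset.sum_comm]
  have h1 : ∀ ψ : H, ∑ χ₀ : DirichletCharacter ℂ q, f (χ₀ * ψ) = ∑ χ : DirichletCharacter ℂ q, f χ := by
    intro ψ
    exact Equiv.sum_comp (Equiv.mulRight (ψ : DirichletCharacter ℂ q)) f
  rw [Finset.sum_congr rfl (fun ψ _ => h1 ψ), Finset.sum_const, nsmul_eq_mul]
  simp

/-- **The number of the characters with a coset of small values.** -/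
theorem bad_count (H : Subgroup (DirichletCharacter ℂ q)) (w : (ZMod q)ˣ → ℂ)
    (L M R : DirichletCharacter ℂ q → ℂ) (t B V D : ℝ) (ht : 0 < t) (hV : 0 ≤ V) (hD : 0 < D)
    (hB : 0 < B) (hVB : V * (2 * D * B) ≤ t / 2)
    (hW : ∀ χ, L χ * (M χ * (starRingEnd ℂ) (R χ)) = Wf w χ)
    (hden : ∑ χ : DirichletCharacter ℂ q, ‖M χ‖ * ‖R χ‖ ≤ ((q : ℝ) - 1) * B)
    (hvar : ∑ g ∈ univ.filter (fun g : (ZMod q)ˣ => g ∈ ann H),
      ‖w g - (if g = 1 then (t : ℂ) else 0)‖ ^ 2 ≤ t ^ 2 / (8 * D)) :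
    ((univ.filter (fun χ₀ : DirichletCharacter ℂ q => ∀ ψ ∈ H, ‖L (χ₀ * ψ)‖ < V)).card : ℝ) ≤
      ((q : ℝ) - 1) / D := by
  have hq1 : (0 : ℝ) < (q : ℝ) - 1 := by
    have : (1 : ℝ) < q := by exact_mod_cast (Nat.Prime.one_lt Fact.out : 1 < q)
    linarith
  have hh0 : (0 : ℝ) < Fintype.card H := by
    have : 0 < Fintype.card H := Fintype.card_pos
    exact_mod_cast this
  set h : ℝ := ((Fintype.card H : ℕ) : ℝ) with hh
  set B1 := univ.filter (fun χ₀ : DirichletCharacter ℂ q =>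
    h * t / 2 ≤ ‖∑ ψ : H, Wf w (χ₀ * ψ) - (Fintype.card H : ℂ) * t‖) with hB1
  set B2 := univ.filter (fun χ₀ : DirichletCharacter ℂ q =>
    2 * D * h * B < ∑ ψ : H, ‖M (χ₀ * ψ)‖ * ‖R (χ₀ * ψ)‖) with hB2
  have c1 : (B1.card : ℝ) * (h * t / 2) ^ 2 ≤ ((q : ℝ) - 1) * (h ^ 2 * (t ^ 2 / (8 * D))) := by
    have e1 : (B1.card : ℝ) * (h * t / 2) ^ 2 ≤ ∑ χ₀ ∈ B1,
        ‖∑ ψ : H, Wf w (χ₀ * ψ) - (Fintype.card H : ℂ) * t‖ ^ 2 := by
      rw [← nsmul_eq_mul]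
      apply Finset.card_nsmul_le_sum
      intro χ₀ hχ
      rw [hB1, mem_filter] at hχ
      exact pow_le_pow_left₀ (by positivity) hχ.2 2
    have e2 : ∑ χ₀ ∈ B1, ‖∑ ψ : H, Wf w (χ₀ * ψ) - (Fintype.card H : ℂ) * t‖ ^ 2 ≤
        ∑ χ₀ : DirichletCharacter ℂ q, ‖∑ ψ : H, Wf w (χ₀ * ψ) - (Fintype.card H : ℂ) * t‖ ^ 2 :=
      Finset.sum_le_sum_of_subset_of_nonneg (filter_subset _ _) (fun _ _ _ => by positivity)
    rw [coset_var] at e2
    refine e1.trans (e2.trans ?_)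
    apply mul_le_mul_of_nonneg_left _ hq1.le
    apply mul_le_mul_of_nonneg_left _ (by positivity)
    exact hvar
  have c2 : (B2.card : ℝ) * (2 * D * h * B) ≤ h * (((q : ℝ) - 1) * B) := by
    have e1 : (B2.card : ℝ) * (2 * D * h * B) ≤ ∑ χ₀ ∈ B2, ∑ ψ : H, ‖M (χ₀ * ψ)‖ * ‖R (χ₀ * ψ)‖ := by
      rw [← nsmul_eq_mul]
      apply Finset.card_nsmul_le_sum
      intro χ₀ hχ
      rw [hB2, mem_filter] at hχ
      exact hχ.2.le
    have e2 : ∑ χ₀ ∈ B2, ∑ ψ : H, ‖M (χ₀ * ψ)‖ * ‖R (χ₀ * ψ)‖ ≤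
        ∑ χ₀ : DirichletCharacter ℂ q, ∑ ψ : H, ‖M (χ₀ * ψ)‖ * ‖R (χ₀ * ψ)‖ :=
      Finset.sum_le_sum_of_subset_of_nonneg (filter_subset _ _) (fun _ _ _ => by positivity)
    rw [sum_translate H (fun χ => ‖M χ‖ * ‖R χ‖)] at e2
    refine e1.trans (e2.trans ?_)
    exact mul_le_mul_of_nonneg_left hden hh0.le
  have c3 : (univ.filter (fun χ₀ : DirichletCharacter ℂ q => ∀ ψ ∈ H, ‖L (χ₀ * ψ)‖ < V)) ⊆ B1 ∪ B2 := by
    intro χ₀ hχ
    rw [mem_filter] at hχ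
    rw [mem_union]
    by_contra hcon
    push Not at hcon
    obtain ⟨d1, d2⟩ := hcon
    rw [hB1, mem_filter, not_and] at d1
    rw [hB2, mem_filter, not_and] at d2
    have d1' := not_le.1 (d1 (mem_univ _))
    have d2' := not_lt.1 (d2 (mem_univ _))
    have e1 : ‖∑ ψ : H, Wf w (χ₀ * ψ)‖ ≤ V * ∑ ψ : H, ‖M (χ₀ * ψ)‖ * ‖R (χ₀ * ψ)‖ := by
      rw [Finset.mul_sum]
      refine (norm_sum_le _ _).trans (Finset.sum_le_sum fun ψ _ => ?_)
      rw [← hW, norm_mul, norm_mul, RCLike.norm_conj]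
      exact mul_le_mul_of_nonneg_right (hχ.2 ψ.1 ψ.2).le (by positivity)
    have e2 : ‖(Fintype.card H : ℂ) * t‖ = h * t := by
      rw [norm_mul, Complex.norm_real, Real.norm_of_nonneg ht.le]
      simp [hh]
    have e3 : ‖(Fintype.card H : ℂ) * t‖ ≤ ‖∑ ψ : H, Wf w (χ₀ * ψ)‖ +
        ‖∑ ψ : H, Wf w (χ₀ * ψ) - (Fintype.card H : ℂ) * t‖ := by
      have := norm_sub_le (∑ ψ : H, Wf w (χ₀ * ψ)) (∑ ψ : H, Wf w (χ₀ * ψ) - (Fintype.card H : ℂ) * t)
      rwa [sub_sub_cancel] at this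
    rw [e2] at e3
    have e4 : V * ∑ ψ : H, ‖M (χ₀ * ψ)‖ * ‖R (χ₀ * ψ)‖ ≤ V * (2 * D * h * B) :=
      mul_le_mul_of_nonneg_left d2' hV
    have e5 : V * (2 * D * h * B) ≤ h * (t / 2) := by
      calc V * (2 * D * h * B) = h * (V * (2 * D * B)) := by ring
        _ ≤ _ := mul_le_mul_of_nonneg_left hVB hh0.le
    linarith
  have c4 : ((univ.filter (fun χ₀ : DirichletCharacter ℂ q => ∀ ψ ∈ H, ‖L (χ₀ * ψ)‖ < V)).card : ℝ) ≤
      B1.card + B2.card := by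
    exact_mod_cast (card_le_card c3).trans (card_union_le _ _)
  have c5 : (B1.card : ℝ) ≤ ((q : ℝ) - 1) / (2 * D) := by
    rw [le_div_iff₀ (by positivity)]
    have hpos : 0 < h ^ 2 * t ^ 2 := by positivity
    have e : (B1.card : ℝ) * (2 * D) * (h ^ 2 * t ^ 2) ≤ ((q : ℝ) - 1) * (h ^ 2 * t ^ 2) := by
      have e6 : (B1.card : ℝ) * (h * t / 2) ^ 2 * (8 * D) ≤
          ((q : ℝ) - 1) * (h ^ 2 * (t ^ 2 / (8 * D))) * (8 * D) :=
        mul_le_mul_of_nonneg_right c1 (by positivity)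
      have e7 : ((q : ℝ) - 1) * (h ^ 2 * (t ^ 2 / (8 * D))) * (8 * D) = ((q : ℝ) - 1) * (h ^ 2 * t ^ 2) := by
        field_simp
      rw [e7] at e6
      calc _ = (B1.card : ℝ) * (h * t / 2) ^ 2 * (8 * D) := by ring
        _ ≤ _ := e6
    exact le_of_mul_le_mul_right e hpos
  have c6 : (B2.card : ℝ) ≤ ((q : ℝ) - 1) / (2 * D) := by
    rw [le_div_iff₀ (by positivity)]
    have hpos : 0 < h * B := by positivity
    have e : (B2.card : ℝ) * (2 * D) * (h * B) ≤ ((q : ℝ) - 1) * (h * B) := by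
      calc _ = (B2.card : ℝ) * (2 * D * h * B) := by ring
        _ ≤ _ := c2
        _ = _ := by ring
    exact le_of_mul_le_mul_right e hpos
  have c7 : ((q : ℝ) - 1) / D = ((q : ℝ) - 1) / (2 * D) + ((q : ℝ) - 1) / (2 * D) := by
    field_simp; ring
  rw [c7]
  linarith

end Pool.Agent.K4H49.AC
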