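import Mathlib
import Pool.Agent.K4H49.AC.A1

/-! The polynomials, their mean squares and the coefficients of their products. -/

set_option autoImplicit false

namespace Pool.Agent.K4H49.AC
open Finset Pool.Agent.R311.RES
open scoped Classical

variable {q : ℕ} [Fact q.Prime]

lemma parseval_inj {ι : Type*} (J : Finset ι) (c : ι → ℂ) (π : ι → (ZMod q)ˣ)
    (hinj : ∀ i ∈ J, ∀ i' ∈ J, π i = π i' → i = i') :
    ∑ χ : DirichletCharacter ℂ q, ‖∑ i ∈ J, c i * χ (π i : ZMod q)‖ ^ 2 =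
      ((q : ℝ) - 1) * ∑ i ∈ J, ‖c i‖ ^ 2 := by
  have h1 : ∀ χ : DirichletCharacter ℂ q, ∑ i ∈ J, c i * χ (π i : ZMod q) =
      Wf (fun g => ∑ i ∈ J.filter (fun i => π i = g), c i) χ := by
    intro χ
    unfold Wf
    rw [← Finset.sum_fiberwise J π]
    apply Finset.sum_congr rfl
    intro g _
    rw [Finset.sum_mul]
    apply Finset.sum_congr rfl
    intro i hi
    rw [(mem_filter.1 hi).2]
  rw [Finset.sum_congr rfl (fun χ _ => by rw [h1 χ]), parseval]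
  congr 1
  rw [← Finset.sum_fiberwise J π]
  apply Finset.sum_congr rfl
  intro g _
  have h2 : (J.filter (fun i => π i = g)).card ≤ 1 := by
    rw [card_le_one]
    intro a ha b hb
    rw [mem_filter] at ha hb
    exact hinj a ha.1 b hb.1 (ha.2.trans hb.2.symm)
  rcases Nat.lt_or_ge (J.filter (fun i => π i = g)).card 1 with h3 | h3
  · rw [card_eq_zero.1 (by omega : (J.filter (fun i => π i = g)).card = 0)]
    simp
  · obtain ⟨a, ha⟩ := card_eq_one.1 (le_antisymm h2 h3)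
    rw [ha]
    simp

lemma conv_mul {ι : Type*} (J : Finset ι) (c : ι → ℂ) (π : ι → (ZMod q)ˣ) (w : (ZMod q)ˣ → ℂ)
    (χ : DirichletCharacter ℂ q) : (∑ i ∈ J, c i * χ (π i : ZMod q)) * Wf w χ =
      Wf (fun g => ∑ i ∈ J, c i * w (g * (π i)⁻¹)) χ := by
  unfold Wf
  have h1 : ∑ g : (ZMod q)ˣ, (∑ i ∈ J, c i * w (g * (π i)⁻¹)) * χ (g : ZMod q) =
      ∑ i ∈ J, ∑ g : (ZMod q)ˣ, c i * w (g * (π i)⁻¹) * χ (g : ZMod q) := by
    rw [Finset.sum_comm]
    apply Finset.sum_congr rfl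
    intro g _
    rw [Finset.sum_mul]
  rw [h1, Finset.sum_mul]
  apply Finset.sum_congr rfl
  intro i _
  rw [← Equiv.sum_comp (Equiv.mulRight (π i)) (fun g => c i * w (g * (π i)⁻¹) * χ (g : ZMod q)),
    Finset.mul_sum]
  apply Finset.sum_congr rfl
  intro g _
  show _ = c i * w (g * π i * (π i)⁻¹) * χ ((g * π i : (ZMod q)ˣ) : ZMod q)
  rw [mul_inv_cancel_right, Units.val_mul, map_mul]
  ring

lemma conv_conj {ι : Type*} (J : Finset ι) (c : ι → ℝ) (π : ι → (ZMod q)ˣ) (w : (ZMod q)ˣ → ℂ)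
    (χ : DirichletCharacter ℂ q) :
    (starRingEnd ℂ) (∑ i ∈ J, (c i : ℂ) * χ (π i : ZMod q)) * Wf w χ =
      Wf (fun g => ∑ i ∈ J, (c i : ℂ) * w (g * π i)) χ := by
  have h1 : (starRingEnd ℂ) (∑ i ∈ J, (c i : ℂ) * χ (π i : ZMod q)) =
      ∑ i ∈ J, (c i : ℂ) * χ (((π i)⁻¹ : (ZMod q)ˣ) : ZMod q) := by
    rw [map_sum]
    apply Finset.sum_congr rfl
    intro i _
    rw [map_mul, Complex.conj_ofReal, chi_inv]
  rw [h1, conv_mul J (fun i => (c i : ℂ)) (fun i => (π i)⁻¹)]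
  simp only [inv_inv]

/-- the inverse of the square root -/
noncomputable def rs (n : ℕ) : ℝ := (Real.sqrt n)⁻¹

lemma rs_nonneg (n : ℕ) : 0 ≤ rs n := inv_nonneg.2 (Real.sqrt_nonneg _)

lemma rs_sq {n : ℕ} : rs n ^ 2 = 1 / (n : ℝ) := by
  unfold rs
  rw [inv_pow, Real.sq_sqrt (Nat.cast_nonneg n), one_div]

lemma rs_mul (m n : ℕ) : rs (m * n) = rs m * rs n := by
  unfold rs
  rw [Nat.cast_mul, Real.sqrt_mul (Nat.cast_nonneg m), mul_inv]

lemma rs_le_one (n : ℕ) : rs n ≤ 1 := by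
  unfold rs
  rcases Nat.eq_zero_or_pos n with h | h
  · subst h; simp
  · apply inv_le_one_of_one_le₀
    rw [Real.one_le_sqrt]
    exact_mod_cast h

/-- the sum of the inverses of the products of `r` primes -/
noncomputable def EE (I : Finset ℕ) (r : ℕ) : ℝ := ∑ S ∈ powersetCard r I, 1 / (ms S : ℝ)

/-- the range of the mollifier -/
noncomputable def AA (I : Finset ℕ) (Y : ℕ) : Finset ℕ := (Icc 1 Y).filter (fun a => ∀ p ∈ I, ¬ p ∣ a)

/-- the mollifier -/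
noncomputable def MM (q : ℕ) (I : Finset ℕ) (Y : ℕ) (χ : DirichletCharacter ℂ q) : ℂ :=
  ∑ a ∈ AA I Y, (((ArithmeticFunction.moebius a : ℤ) : ℝ) * rs a : ℝ) * χ (un q a : ZMod q)

/-- the polynomial over products of `r` primes -/
noncomputable def RR (q : ℕ) (I : Finset ℕ) (r : ℕ) (χ : DirichletCharacter ℂ q) : ℂ :=
  ∑ S ∈ powersetCard r I, ((rs (ms S) : ℝ) : ℂ) * χ (ui q S : ZMod q)

lemma un_inj {m n : ℕ} (hm0 : 0 < m) (hn0 : 0 < n) (hm : m < q) (hn : n < q) (h : un q m = un q n) : m = n := by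
  have h1 : ((un q m : (ZMod q)ˣ) : ZMod q) = (un q n : ZMod q) := by rw [h]
  rw [un_val (cop_of_lt hm0 hm), un_val (cop_of_lt hn0 hn), ZMod.natCast_eq_natCast_iff] at h1
  exact Nat.ModEq.eq_of_lt_of_lt h1 hm hn

lemma cop_mul {m n : ℕ} (hm : m.Coprime q) (hn : n.Coprime q) : (m * n).Coprime q :=
  Nat.Coprime.mul_left hm hn

lemma un_mul {m n : ℕ} (hm : m.Coprime q) (hn : n.Coprime q) : un q (m * n) = un q m * un q n := by
  apply Units.ext
  rw [Units.val_mul, un_val hm, un_val hn, un_val (cop_mul hm hn), Nat.cast_mul]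

lemma RR_moment (I : Finset ℕ) (hI : ∀ p ∈ I, p.Prime) (r : ℕ)
    (hr : ∀ S ∈ powersetCard r I, ms S < q) :
    ∑ χ : DirichletCharacter ℂ q, ‖RR q I r χ‖ ^ 2 = ((q : ℝ) - 1) * EE I r := by
  unfold RR
  rw [parseval_inj (powersetCard r I) (fun S => ((rs (ms S) : ℝ) : ℂ)) (ui q)]
  · congr 1
    unfold EE
    apply Finset.sum_congr rfl
    intro S _
    rw [Complex.norm_real, Real.norm_of_nonneg (rs_nonneg _), rs_sq]
  · intro S hS S' hS' h
    have h1 := (mem_powersetCard.1 hS).1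
    have h2 := (mem_powersetCard.1 hS').1
    exact ms_inj (fun p hp => hI p (h1 hp)) (fun p hp => hI p (h2 hp))
      (un_inj (ms_pos fun p hp => hI p (h1 hp)) (ms_pos fun p hp => hI p (h2 hp)) (hr S hS) (hr S' hS') h)

lemma MR_moment (I : Finset ℕ) (hI : ∀ p ∈ I, p.Prime) (r Y : ℕ) (hY : 1 ≤ Y)
    (hr : ∀ S ∈ powersetCard r I, Y * ms S < q) :
    ∑ χ : DirichletCharacter ℂ q, ‖MM q I Y χ * RR q I r χ‖ ^ 2 ≤
      ((q : ℝ) - 1) * ((∑ a ∈ Icc 1 Y, 1 / (a : ℝ)) * EE I r) := by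
  have hq1 : (0 : ℝ) ≤ (q : ℝ) - 1 := by
    have : (1 : ℝ) < q := by exact_mod_cast (Nat.Prime.one_lt Fact.out : 1 < q)
    linarith
  have h1 : ∀ χ : DirichletCharacter ℂ q, MM q I Y χ * RR q I r χ =
      ∑ z ∈ AA I Y ×ˢ powersetCard r I,
        ((((ArithmeticFunction.moebius z.1 : ℤ) : ℝ) * rs z.1 * rs (ms z.2) : ℝ) : ℂ) *
          χ ((un q z.1 * ui q z.2 : (ZMod q)ˣ) : ZMod q) := by
    intro χ
    unfold MM RR
    rw [Finset.sum_mul_sum, Finset.sum_product]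
    apply Finset.sum_congr rfl
    intro a _
    apply Finset.sum_congr rfl
    intro S _
    rw [Units.val_mul, map_mul]
    push_cast
    ring
  rw [Finset.sum_congr rfl (fun χ _ => by rw [h1 χ])]
  rw [parseval_inj (AA I Y ×ˢ powersetCard r I)
    (fun z => ((((ArithmeticFunction.moebius z.1 : ℤ) : ℝ) * rs z.1 * rs (ms z.2) : ℝ) : ℂ))
    (fun z => un q z.1 * ui q z.2)]
  · apply mul_le_mul_of_nonneg_left _ hq1
    unfold EE
    rw [Finset.sum_mul_sum, ← Finset.sum_product']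
    have e1 : ∀ z ∈ AA I Y ×ˢ powersetCard r I,
        ‖((((ArithmeticFunction.moebius z.1 : ℤ) : ℝ) * rs z.1 * rs (ms z.2) : ℝ) : ℂ)‖ ^ 2 ≤
        1 / (z.1 : ℝ) * (1 / (ms z.2 : ℝ)) := by
      intro z _
      rw [Complex.norm_real, Real.norm_eq_abs, sq_abs, mul_pow, mul_pow, rs_sq, rs_sq]
      have e2 : ((ArithmeticFunction.moebius z.1 : ℤ) : ℝ) ^ 2 ≤ 1 := by
        have := ArithmeticFunction.abs_moebius_le_one (n := z.1)
        rw [sq_le_one_iff_abs_le_one]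
        exact_mod_cast this
      have e3 : 0 ≤ 1 / (z.1 : ℝ) * (1 / (ms z.2 : ℝ)) := by positivity
      calc _ = ((ArithmeticFunction.moebius z.1 : ℤ) : ℝ) ^ 2 * (1 / (z.1 : ℝ) * (1 / (ms z.2 : ℝ))) := by ring
        _ ≤ 1 * (1 / (z.1 : ℝ) * (1 / (ms z.2 : ℝ))) := mul_le_mul_of_nonneg_right e2 e3
        _ = _ := one_mul _
    refine (Finset.sum_le_sum e1).trans ?_
    apply Finset.sum_le_sum_of_subset_of_nonneg
    · apply Finset.product_subset_product (filter_subset _ _) (Finset.Subset.refl _)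
    · intro _ _ _; positivity
  · rintro ⟨a, S⟩ hz ⟨b, T⟩ hz' h
    simp only [mem_product, mem_powersetCard, AA, mem_filter, mem_Icc] at hz hz'
    obtain ⟨⟨⟨a1, a2⟩, a3⟩, a4, a5⟩ := hz
    obtain ⟨⟨⟨b1, b2⟩, b3⟩, b4, b5⟩ := hz'
    have hS : ∀ p ∈ S, p.Prime := fun p hp => hI p (a4 hp)
    have hT : ∀ p ∈ T, p.Prime := fun p hp => hI p (b4 hp)
    have pS := ms_pos hS
    have pT := ms_pos hT
    have sS : a * ms S < q :=
      lt_of_le_of_lt (Nat.mul_le_mul_right _ a2) (hr S (mem_powersetCard.2 ⟨a4, a5⟩))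
    have sT : b * ms T < q :=
      lt_of_le_of_lt (Nat.mul_le_mul_right _ b2) (hr T (mem_powersetCard.2 ⟨b4, b5⟩))
    have la : a < q := lt_of_le_of_lt (Nat.le_mul_of_pos_right _ pS) sS
    have lb : b < q := lt_of_le_of_lt (Nat.le_mul_of_pos_right _ pT) sT
    have lS : ms S < q := lt_of_le_of_lt (Nat.le_mul_of_pos_left _ a1) sS
    have lT : ms T < q := lt_of_le_of_lt (Nat.le_mul_of_pos_left _ b1) sT
    simp only [ui] at h
    rw [← un_mul (cop_of_lt a1 la) (cop_of_lt pS lS), ← un_mul (cop_of_lt b1 lb) (cop_of_lt pT lT)] at h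
    have h2 := un_inj (Nat.mul_pos a1 pS) (Nat.mul_pos b1 pT) sS sT h
    have h3 : S = T := by
      apply Finset.Subset.antisymm
      · intro p hp
        have hpd : p ∣ b * ms T := by
          rw [← h2]; exact Dvd.dvd.mul_left ((prime_dvd_ms hS (hS p hp)).2 hp) a
        rcases (Nat.Prime.dvd_mul (hS p hp)).1 hpd with h4 | h4
        · exact absurd h4 (b3 p (a4 hp))
        · exact (prime_dvd_ms hT (hS p hp)).1 h4
      · intro p hp
        have hpd : p ∣ a * ms S := by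
          rw [h2]; exact Dvd.dvd.mul_left ((prime_dvd_ms hT (hT p hp)).2 hp) b
        rcases (Nat.Prime.dvd_mul (hT p hp)).1 hpd with h4 | h4
        · exact absurd h4 (a3 p (b4 hp))
        · exact (prime_dvd_ms hS (hT p hp)).1 h4
    subst h3
    have h5 : a = b := Nat.eq_of_mul_eq_mul_right pS h2
    subst h5
    rfl

/-- **The denominator.** -/
theorem den_bound (I : Finset ℕ) (hI : ∀ p ∈ I, p.Prime) (k k' Y : ℕ) (hY : 1 ≤ Y)
    (hk : ∀ S ∈ powersetCard k I, Y * ms S < q) (hk' : ∀ S ∈ powersetCard k' I, ms S < q)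
    (Λ : ℝ) (hΛ : ∑ a ∈ Icc 1 Y, 1 / (a : ℝ) ≤ Λ) :
    ∑ χ : DirichletCharacter ℂ q, ‖MM q I Y χ * RR q I k χ‖ * ‖RR q I k' χ‖ ≤
      ((q : ℝ) - 1) * Real.sqrt (Λ * EE I k * EE I k') := by
  have hq1 : (0 : ℝ) ≤ (q : ℝ) - 1 := by
    have : (1 : ℝ) < q := by exact_mod_cast (Nat.Prime.one_lt Fact.out : 1 < q)
    linarith
  have hE : 0 ≤ EE I k := Finset.sum_nonneg fun _ _ => by positivity
  have hE' : 0 ≤ EE I k' := Finset.sum_nonneg fun _ _ => by positivity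
  refine (Real.sum_mul_le_sqrt_mul_sqrt _ _ _).trans ?_
  rw [RR_moment I hI k' hk']
  have h1 := MR_moment I hI k Y hY hk
  have h2 : ∑ χ : DirichletCharacter ℂ q, ‖MM q I Y χ * RR q I k χ‖ ^ 2 ≤ ((q : ℝ) - 1) * (Λ * EE I k) :=
    h1.trans (mul_le_mul_of_nonneg_left (mul_le_mul_of_nonneg_right hΛ hE) hq1)
  calc _ ≤ Real.sqrt (((q : ℝ) - 1) * (Λ * EE I k)) * Real.sqrt (((q : ℝ) - 1) * EE I k') :=
        mul_le_mul_of_nonneg_right (Real.sqrt_le_sqrt h2) (Real.sqrt_nonneg _)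
    _ = Real.sqrt (((q : ℝ) - 1) ^ 2 * (Λ * EE I k * EE I k')) := by
        rw [← Real.sqrt_mul' _ (by positivity)]
        congr 1; ring
    _ = _ := by rw [Real.sqrt_mul (by positivity), Real.sqrt_sq hq1]

/-- the coefficients of `L M` -/
noncomputable def CC (q : ℕ) (I : Finset ℕ) (Y : ℕ) (u : (ZMod q)ˣ) : ℂ :=
  ∑ a ∈ AA I Y, (((ArithmeticFunction.moebius a : ℤ) : ℝ) * rs a : ℝ) * hzv q (u * (un q a)⁻¹)

/-- the coefficients of the whole product, for given coefficients `C` of `L M` -/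
noncomputable def WW (q : ℕ) (I : Finset ℕ) (k k' : ℕ) (C : (ZMod q)ˣ → ℂ) (g : (ZMod q)ˣ) : ℂ :=
  ∑ S' ∈ powersetCard k' I, ((rs (ms S') : ℝ) : ℂ) *
    ∑ S ∈ powersetCard k I, ((rs (ms S) : ℝ) : ℂ) * C (g * ui q S' * (ui q S)⁻¹)

theorem product_eq (I : Finset ℕ) (k k' Y : ℕ) (χ : DirichletCharacter ℂ q) :
    DirichletCharacter.LFunction χ (1 / 2) *
      ((MM q I Y χ * RR q I k χ) * (starRingEnd ℂ) (RR q I k' χ)) =
    Wf (WW q I k k' (CC q I Y)) χ := by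
  have h0 : DirichletCharacter.LFunction χ (1 / 2) = Wf (hzv q) χ := by
    rw [L_half]
    unfold Wf
    apply Finset.sum_congr rfl
    intro u _
    ring
  have h1 : MM q I Y χ * Wf (hzv q) χ = Wf (CC q I Y) χ := by
    unfold MM
    rw [conv_mul (AA I Y) (fun a => ((((ArithmeticFunction.moebius a : ℤ) : ℝ) * rs a : ℝ) : ℂ)) (un q)]
    rfl
  have h2 : RR q I k χ * Wf (CC q I Y) χ =
      Wf (fun g => ∑ S ∈ powersetCard k I, ((rs (ms S) : ℝ) : ℂ) * CC q I Y (g * (ui q S)⁻¹)) χ := by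
    unfold RR
    rw [conv_mul (powersetCard k I) (fun S => ((rs (ms S) : ℝ) : ℂ)) (ui q)]
  have h3 := conv_conj (powersetCard k' I) (fun S => rs (ms S)) (ui q)
    (fun g => ∑ S ∈ powersetCard k I, ((rs (ms S) : ℝ) : ℂ) * CC q I Y (g * (ui q S)⁻¹)) χ
  calc _ = (starRingEnd ℂ) (RR q I k' χ) * (RR q I k χ * (MM q I Y χ * Wf (hzv q) χ)) := by
        rw [h0]; ring
    _ = _ := by
        rw [h1, h2]
        exact h3

end Pool.Agent.K4H49.AC
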