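import Mathlib
import Pool.Agent.K4H49.AC.A2

/-! The coefficients of `L M`: the main part and the rest. -/

set_option autoImplicit false

namespace Pool.Agent.K4H49.AC
open Finset Pool.Agent.R311.RES
open scoped Classical

lemma mu_ms {T : Finset ℕ} (hT : ∀ p ∈ T, p.Prime) : ArithmeticFunction.moebius (ms T) = (-1) ^ T.card := by
  unfold ms
  rw [ArithmeticFunction.isMultiplicative_moebius.map_prod_of_prime T hT]
  rw [Finset.prod_congr rfl (fun p hp => ArithmeticFunction.moebius_apply_prime (hT p hp)), Finset.prod_const]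

lemma mu_sum (I : Finset ℕ) (hI : ∀ p ∈ I, p.Prime) {v : ℕ} (hv : v ≠ 0) :
    ∑ a ∈ v.divisors.filter (fun a => ∀ p ∈ I, ¬ p ∣ a), ArithmeticFunction.moebius a =
      if v.primeFactors ⊆ I then 1 else 0 := by
  have h1 : ∑ a ∈ v.divisors.filter (fun a => ∀ p ∈ I, ¬ p ∣ a), ArithmeticFunction.moebius a =
      ∑ T ∈ (v.primeFactors \ I).powerset, (-1 : ℤ) ^ T.card := by
    rw [← Finset.sum_filter_ne_zero]
    refine Finset.sum_bij' (fun a _ => a.primeFactors) (fun T _ => ms T) ?_ ?_ ?_ ?_ ?_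
    · intro a ha
      simp only [mem_filter, Nat.mem_divisors] at ha
      rw [mem_powerset]
      intro p hp
      rw [mem_sdiff]
      have hp' := Nat.mem_primeFactors.1 hp
      refine ⟨Nat.mem_primeFactors.2 ⟨hp'.1, hp'.2.1.trans ha.1.1.1, hv⟩, fun hpI => ha.1.2 p hpI hp'.2.1⟩
    · intro T hT
      rw [mem_powerset] at hT
      have hTp : ∀ p ∈ T, p.Prime := fun p hp =>
        (Nat.mem_primeFactors.1 (mem_sdiff.1 (hT hp)).1).1
      simp only [mem_filter, Nat.mem_divisors]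
      refine ⟨⟨⟨?_, hv⟩, ?_⟩, ?_⟩
      · rw [ms_dvd_iff hTp]
        intro p hp
        exact (Nat.mem_primeFactors.1 (mem_sdiff.1 (hT hp)).1).2.1
      · intro p hpI hpd
        exact (mem_sdiff.1 (hT ((prime_dvd_ms hTp (hI p hpI)).1 hpd))).2 hpI
      · rw [mu_ms hTp]
        exact pow_ne_zero _ (by norm_num)
    · intro a ha
      simp only [mem_filter, Nat.mem_divisors] at ha
      have hsq : Squarefree a := by
        by_contra h
        exact ha.2 (ArithmeticFunction.moebius_eq_zero_of_not_squarefree h)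
      exact Nat.prod_primeFactors_of_squarefree hsq
    · intro T hT
      rw [mem_powerset] at hT
      exact ms_pf fun p hp => (Nat.mem_primeFactors.1 (mem_sdiff.1 (hT hp)).1).1
    · intro a ha
      simp only [mem_filter, Nat.mem_divisors] at ha
      have hsq : Squarefree a := by
        by_contra h
        exact ha.2 (ArithmeticFunction.moebius_eq_zero_of_not_squarefree h)
      have h2 : ms a.primeFactors = a := Nat.prod_primeFactors_of_squarefree hsq
      have h3 := mu_ms (T := a.primeFactors) (fun p hp => (Nat.mem_primeFactors.1 hp).1)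
      rw [h2] at h3
      exact h3
  rw [h1, Finset.sum_powerset_neg_one_pow_card]
  simp only [sdiff_eq_empty_iff_subset]

variable {q : ℕ} [Fact q.Prime]

/-- the main part of the coefficients -/
noncomputable def CS (q : ℕ) (I : Finset ℕ) (Y : ℕ) (u : (ZMod q)ˣ) : ℝ :=
  if (u : ZMod q).val ≤ Y ∧ (u : ZMod q).val.primeFactors ⊆ I then rs (u : ZMod q).val else 0

lemma hzv_rs (a : (ZMod q)ˣ) : ‖hzv q a - ((rs (a : ZMod q).val : ℝ) : ℂ)‖ ≤ 3 * rs q := by
  have h := hzv_two a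
  have e : ∀ n : ℕ, (n : ℝ) ^ (-(1 / 2 : ℝ)) = rs n := by
    intro n
    rw [Real.rpow_neg (Nat.cast_nonneg n), ← Real.sqrt_eq_rpow]; rfl
  rw [e, e] at h
  exact h

lemma rs_anti {m n : ℕ} (hm : 0 < m) (h : m ≤ n) : rs n ≤ rs m := by
  unfold rs
  apply inv_anti₀ (Real.sqrt_pos.2 (by exact_mod_cast hm))
  exact Real.sqrt_le_sqrt (by exact_mod_cast h)

lemma div_val (u : (ZMod q)ˣ) {a : ℕ} (ha : 0 < a) (haq : a < q) :
    (a ∣ (u : ZMod q).val → a * ((u * (un q a)⁻¹ : (ZMod q)ˣ) : ZMod q).val = (u : ZMod q).val) ∧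
    (¬ a ∣ (u : ZMod q).val → q ≤ a * ((u * (un q a)⁻¹ : (ZMod q)ˣ) : ZMod q).val) := by
  have hq : q.Prime := Fact.out
  have : NeZero q := ⟨hq.pos.ne'⟩
  set b := ((u * (un q a)⁻¹ : (ZMod q)ˣ) : ZMod q).val with hb
  have h1 : ((a * b : ℕ) : ZMod q) = (((u : ZMod q).val : ℕ) : ZMod q) := by
    rw [Nat.cast_mul, hb, ZMod.natCast_zmod_val, ZMod.natCast_zmod_val, ← un_val (cop_of_lt ha haq),
      ← Units.val_mul]
    congr 1
    rw [mul_comm u, mul_inv_cancel_left]
  rw [ZMod.natCast_eq_natCast_iff] at h1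
  have hv : (u : ZMod q).val < q := ZMod.val_lt _
  constructor
  · rintro ⟨c, hc⟩
    have hc0 : 0 < c := by
      rw [Nat.pos_iff_ne_zero]
      rintro rfl
      have := val_pos u
      omega
    have hcq : c < q := by
      have : c ≤ a * c := Nat.le_mul_of_pos_left _ ha
      omega
    have h2 : b = c := by
      have h3 : a * b ≡ a * c [MOD q] := by rw [← hc]; exact h1
      have h4 : b ≡ c [MOD q] := Nat.ModEq.cancel_left_of_coprime (cop_of_lt ha haq).symm h3
      exact Nat.ModEq.eq_of_lt_of_lt h4 (ZMod.val_lt _) hcq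
    rw [h2, hc]
  · intro hnd
    by_contra hlt
    push Not at hlt
    have h2 : a * b = (u : ZMod q).val := Nat.ModEq.eq_of_lt_of_lt h1 hlt hv
    exact hnd ⟨b, h2.symm⟩

/-- **The coefficients of `L M`.** -/
theorem CC_approx (I : Finset ℕ) (hI : ∀ p ∈ I, p.Prime) (Y : ℕ) (hYq : Y < q) (u : (ZMod q)ˣ) :
    ‖CC q I Y u - ((CS q I Y u : ℝ) : ℂ)‖ ≤
      (if Y < (u : ZMod q).val then ((u : ZMod q).val.divisors.card : ℝ) * rs (u : ZMod q).val else 0) +
        4 * Y * rs q := by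
  have hq : q.Prime := Fact.out
  set v := (u : ZMod q).val with hv
  have hv0 : 0 < v := val_pos u
  have hmu : ∀ a : ℕ, |((ArithmeticFunction.moebius a : ℤ) : ℝ)| ≤ 1 := by
    intro a
    exact_mod_cast ArithmeticFunction.abs_moebius_le_one (n := a)
  have hAY : ((AA I Y).card : ℝ) ≤ Y := by
    have : (AA I Y).card ≤ (Icc 1 Y).card := card_le_card (filter_subset _ _)
    rw [Nat.card_Icc] at this
    exact_mod_cast this
  have hmem : ∀ a ∈ AA I Y, 0 < a ∧ a < q := by
    intro a ha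
    rw [AA, mem_filter, mem_Icc] at ha
    omega
  have hrq := rs_nonneg q
  set S2 : ℝ := ∑ a ∈ AA I Y, ((ArithmeticFunction.moebius a : ℤ) : ℝ) *
    rs (a * ((u * (un q a)⁻¹ : (ZMod q)ˣ) : ZMod q).val) with hS2
  set S3 : ℝ := ∑ a ∈ (AA I Y).filter (fun a => a ∣ v), ((ArithmeticFunction.moebius a : ℤ) : ℝ) * rs v with hS3
  have b1 : ‖CC q I Y u - ((S2 : ℝ) : ℂ)‖ ≤ 3 * Y * rs q := by
    unfold CC
    rw [hS2, Complex.ofReal_sum, ← Finset.sum_sub_distrib]
    refine (norm_sum_le _ _).trans ?_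
    have e : ∀ a ∈ AA I Y, ‖((((ArithmeticFunction.moebius a : ℤ) : ℝ) * rs a : ℝ) : ℂ) *
        hzv q (u * (un q a)⁻¹) - ((((ArithmeticFunction.moebius a : ℤ) : ℝ) *
        rs (a * ((u * (un q a)⁻¹ : (ZMod q)ˣ) : ZMod q).val) : ℝ) : ℂ)‖ ≤ 3 * rs q := by
      intro a _
      rw [rs_mul, ← mul_assoc, Complex.ofReal_mul (((ArithmeticFunction.moebius a : ℤ) : ℝ) * rs a), ← mul_sub,
        norm_mul, Complex.norm_real, Real.norm_eq_abs, abs_mul, abs_of_nonneg (rs_nonneg a)]
      have h1 := hzv_rs (u * (un q a)⁻¹)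
      have h2 : |((ArithmeticFunction.moebius a : ℤ) : ℝ)| * rs a ≤ 1 := by
        have := mul_le_mul (hmu a) (rs_le_one a) (rs_nonneg a) zero_le_one
        linarith
      calc _ ≤ 1 * (3 * rs q) := mul_le_mul h2 h1 (norm_nonneg _) zero_le_one
        _ = _ := one_mul _
    refine (Finset.sum_le_sum e).trans ?_
    rw [Finset.sum_const, nsmul_eq_mul]
    calc _ ≤ (Y : ℝ) * (3 * rs q) := mul_le_mul_of_nonneg_right hAY (by positivity)
      _ = _ := by ring
  have b2 : |S2 - S3| ≤ Y * rs q := by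
    have e1 : S3 = ∑ a ∈ AA I Y, (if a ∣ v then ((ArithmeticFunction.moebius a : ℤ) : ℝ) * rs v else 0) := by
      rw [hS3, Finset.sum_filter]
    rw [e1, hS2, ← Finset.sum_sub_distrib]
    refine (Finset.abs_sum_le_sum_abs _ _).trans ?_
    have e : ∀ a ∈ AA I Y, |((ArithmeticFunction.moebius a : ℤ) : ℝ) *
        rs (a * ((u * (un q a)⁻¹ : (ZMod q)ˣ) : ZMod q).val) -
        (if a ∣ v then ((ArithmeticFunction.moebius a : ℤ) : ℝ) * rs v else 0)| ≤ rs q := by
      intro a ha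
      obtain ⟨h1, h2⟩ := div_val u (hmem a ha).1 (hmem a ha).2
      by_cases hd : a ∣ v
      · rw [if_pos hd, h1 hd, sub_self, abs_zero]
        exact hrq
      · rw [if_neg hd, sub_zero, abs_mul, abs_of_nonneg (rs_nonneg _)]
        have h3 := rs_anti hq.pos (h2 hd)
        calc _ ≤ 1 * rs q := mul_le_mul (hmu a) h3 (rs_nonneg _) zero_le_one
          _ = _ := one_mul _
    refine (Finset.sum_le_sum e).trans ?_
    rw [Finset.sum_const, nsmul_eq_mul]
    exact mul_le_mul_of_nonneg_right hAY hrq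
  have b3 : |S3 - CS q I Y u| ≤ (if Y < v then (v.divisors.card : ℝ) * rs v else 0) := by
    by_cases hvY : v ≤ Y
    · rw [if_neg (by omega)]
      have e1 : (AA I Y).filter (fun a => a ∣ v) = v.divisors.filter (fun a => ∀ p ∈ I, ¬ p ∣ a) := by
        ext a
        simp only [AA, mem_filter, mem_Icc, Nat.mem_divisors]
        constructor
        · rintro ⟨⟨⟨a1, a2⟩, a3⟩, a4⟩
          exact ⟨⟨a4, hv0.ne'⟩, a3⟩
        · rintro ⟨⟨a1, a2⟩, a3⟩
          have := Nat.le_of_dvd hv0 a1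
          have h0 := Nat.pos_of_dvd_of_pos a1 hv0
          exact ⟨⟨⟨h0, by omega⟩, a3⟩, a1⟩
      have e2 := mu_sum I hI hv0.ne'
      have e3 : S3 = (if v.primeFactors ⊆ I then 1 else 0) * rs v := by
        rw [hS3, e1, ← Finset.sum_mul]
        congr 1
        have : ((∑ a ∈ v.divisors.filter (fun a => ∀ p ∈ I, ¬ p ∣ a), ArithmeticFunction.moebius a : ℤ) : ℝ) =
            ((if v.primeFactors ⊆ I then 1 else 0 : ℤ) : ℝ) := by rw [e2]
        push_cast at this
        exact this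
      rw [e3]
      unfold CS
      rw [← hv]
      by_cases hs : v.primeFactors ⊆ I
      · rw [if_pos hs, if_pos ⟨hvY, hs⟩]; simp
      · rw [if_neg hs, if_neg (fun h => hs h.2)]; simp
    · rw [if_pos (by omega)]
      have e1 : CS q I Y u = 0 := by
        unfold CS
        rw [if_neg (fun h => hvY h.1)]
      rw [e1, sub_zero, hS3]
      refine (Finset.abs_sum_le_sum_abs _ _).trans ?_
      have e : ∀ a ∈ (AA I Y).filter (fun a => a ∣ v), |((ArithmeticFunction.moebius a : ℤ) : ℝ) * rs v| ≤ rs v := by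
        intro a _
        rw [abs_mul, abs_of_nonneg (rs_nonneg _)]
        calc _ ≤ 1 * rs v := mul_le_mul_of_nonneg_right (hmu a) (rs_nonneg _)
          _ = _ := one_mul _
      refine (Finset.sum_le_sum e).trans ?_
      rw [Finset.sum_const, nsmul_eq_mul]
      apply mul_le_mul_of_nonneg_right _ (rs_nonneg _)
      have : ((AA I Y).filter (fun a => a ∣ v)).card ≤ v.divisors.card := by
        apply card_le_card
        intro a ha
        rw [mem_filter] at ha
        exact Nat.mem_divisors.2 ⟨ha.2, hv0.ne'⟩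
      exact_mod_cast this
  have b4 : ‖((S2 : ℝ) : ℂ) - ((CS q I Y u : ℝ) : ℂ)‖ ≤ |S2 - S3| + |S3 - CS q I Y u| := by
    rw [← Complex.ofReal_sub, Complex.norm_real, Real.norm_eq_abs]
    exact abs_sub_le _ _ _
  have b5 : ‖CC q I Y u - ((CS q I Y u : ℝ) : ℂ)‖ ≤ ‖CC q I Y u - ((S2 : ℝ) : ℂ)‖ +
      ‖((S2 : ℝ) : ℂ) - ((CS q I Y u : ℝ) : ℂ)‖ := norm_sub_le_norm_sub_add_norm_sub _ _ _
  linarith

end Pool.Agent.K4H49.AC
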