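import Mathlib
import Pool.Agent.K4H49.AC.A3

/-! Numbers in a coset of a subgroup of the group of residue classes: powers of sums over them. -/

set_option autoImplicit false

namespace Pool.Agent.K4H49.AC
open Finset Pool.Agent.R311.RES
open scoped Classical

variable {q : ℕ} [Fact q.Prime]

lemma harm_le (T : ℕ) {F : ℝ} (hF : 1 ≤ F) (h : (T : ℝ) ≤ F) :
    ∑ t ∈ Icc 1 T, 1 / (t : ℝ) ≤ 1 + Real.log F := by
  have h1 : ∑ t ∈ Icc 1 T, 1 / (t : ℝ) = (harmonic T : ℝ) := by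
    rw [harmonic_eq_sum_Icc]
    push_cast
    apply Finset.sum_congr rfl
    intro p _
    rw [one_div]
  rw [h1]
  refine (harmonic_le_one_add_log T).trans ?_
  rcases Nat.eq_zero_or_pos T with h0 | h0
  · subst h0
    simp [Real.log_nonneg hF]
  · have : Real.log T ≤ Real.log F := Real.log_le_log (by exact_mod_cast h0) h
    linarith

/-- the numbers greater than `q` in a coset -/
lemma coset_harm (G : Subgroup (ZMod q)ˣ) (c : (ZMod q)ˣ) (N : ℕ) (hN : 1 ≤ N) :
    ∑ n ∈ (Icc 1 N).filter (fun n => q < n ∧ n.Coprime q ∧ c⁻¹ * un q n ∈ G), 1 / (n : ℝ) ≤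
      (Fintype.card G : ℝ) * (1 + Real.log N) / q := by
  have hq : q.Prime := Fact.out
  have hq0 : (0 : ℝ) < q := by exact_mod_cast hq.pos
  set T := N / q with hT
  have h1 : ∑ n ∈ (Icc 1 N).filter (fun n => q < n ∧ n.Coprime q ∧ c⁻¹ * un q n ∈ G), 1 / (n : ℝ) ≤
      ∑ z ∈ (univ : Finset G) ×ˢ Icc 1 T, 1 / ((q : ℝ) * z.2) := by
    have h2 : ∀ n ∈ (Icc 1 N).filter (fun n => q < n ∧ n.Coprime q ∧ c⁻¹ * un q n ∈ G),
        1 / (n : ℝ) ≤ 1 / ((q : ℝ) * ((n / q : ℕ) : ℝ)) := by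
      intro n hn
      rw [mem_filter, mem_Icc] at hn
      have h3 : 0 < n / q := Nat.div_pos hn.2.1.le hq.pos
      have h3' : (0 : ℝ) < ((n / q : ℕ) : ℝ) := by exact_mod_cast h3
      apply one_div_le_one_div_of_le (by positivity)
      exact_mod_cast Nat.mul_div_le n q
    refine (Finset.sum_le_sum h2).trans ?_
    set φ : ℕ → G × ℕ := fun n => (if h : c⁻¹ * un q n ∈ G then ⟨_, h⟩ else 1, n / q) with hφ
    have h4 : ∑ n ∈ (Icc 1 N).filter (fun n => q < n ∧ n.Coprime q ∧ c⁻¹ * un q n ∈ G),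
        1 / ((q : ℝ) * ((n / q : ℕ) : ℝ)) =
        ∑ z ∈ ((Icc 1 N).filter (fun n => q < n ∧ n.Coprime q ∧ c⁻¹ * un q n ∈ G)).image φ,
          1 / ((q : ℝ) * z.2) := by
      rw [Finset.sum_image]
      intro n hn m hm hnm
      simp only [coe_filter, mem_Icc, Set.mem_setOf_eq] at hn hm
      simp only [hφ, dif_pos hn.2.2.2, dif_pos hm.2.2.2, Prod.mk.injEq, Subtype.mk.injEq] at hnm
      have h5 : un q n = un q m := mul_left_cancel hnm.1
      have h6 : ((n : ℕ) : ZMod q) = ((m : ℕ) : ZMod q) := by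
        rw [← un_val hn.2.2.1, ← un_val hm.2.2.1, h5]
      rw [ZMod.natCast_eq_natCast_iff] at h6
      have h7 : n % q = m % q := h6
      rw [← Nat.div_add_mod n q, ← Nat.div_add_mod m q, hnm.2, h7]
    rw [h4]
    apply Finset.sum_le_sum_of_subset_of_nonneg
    · intro z hz
      rw [mem_image] at hz
      obtain ⟨n, hn, rfl⟩ := hz
      rw [mem_filter, mem_Icc] at hn
      rw [mem_product]
      refine ⟨mem_univ _, ?_⟩
      rw [mem_Icc]
      exact ⟨Nat.div_pos hn.2.1.le hq.pos, Nat.div_le_div_right hn.1.2⟩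
    · intro z _ _
      positivity
  refine h1.trans ?_
  rw [Finset.sum_product]
  simp only [Finset.sum_const, card_univ, nsmul_eq_mul]
  have h8 : ∑ t ∈ Icc 1 T, 1 / ((q : ℝ) * t) = (1 / q) * ∑ t ∈ Icc 1 T, 1 / (t : ℝ) := by
    rw [Finset.mul_sum]
    apply Finset.sum_congr rfl
    intro t _
    rw [one_div_mul_one_div]
  rw [h8]
  have h9 : ∑ t ∈ Icc 1 T, 1 / (t : ℝ) ≤ 1 + Real.log N := by
    apply harm_le T (by exact_mod_cast hN)
    exact_mod_cast Nat.div_le_self N q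
  calc (Fintype.card G : ℝ) * (1 / q * ∑ t ∈ Icc 1 T, 1 / (t : ℝ)) ≤
      (Fintype.card G : ℝ) * (1 / q * (1 + Real.log N)) := by
        apply mul_le_mul_of_nonneg_left _ (Nat.cast_nonneg _)
        exact mul_le_mul_of_nonneg_left h9 (by positivity)
    _ = _ := by ring

lemma un_prod {ι : Type*} (s : Finset ι) (f : ι → ℕ) (h : ∀ i ∈ s, (f i).Coprime q) :
    un q (∏ i ∈ s, f i) = ∏ i ∈ s, un q (f i) := by
  apply Units.ext
  rw [Units.coe_prod, un_val (Nat.Coprime.prod_left h), Nat.cast_prod]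
  apply Finset.prod_congr rfl
  intro i hi
  rw [un_val (h i hi)]

/-- **The power trick.** -/
theorem power_trick {ι : Type*} (G : Subgroup (ZMod q)ˣ) (c : (ZMod q)ˣ) (J : Finset ι) (f : ι → ℕ)
    (δ : ι → ℝ) (hδ : ∀ i ∈ J, 0 ≤ δ i) (K F Z : ℕ) (R : ℝ) (hK : 1 ≤ K) (hF1 : 1 ≤ F)
    (hZ : q ≤ Z ^ K) (hZf : ∀ i ∈ J, Z < f i) (hF : ∀ i ∈ J, f i ≤ F) (hcop : ∀ i ∈ J, (f i).Coprime q)
    (hc : ∀ i ∈ J, c⁻¹ * un q (f i) ∈ G)
    (hR : ∀ n : ℕ, 0 < n → n ≤ F ^ K → ∑ i ∈ J.filter (fun i => f i ∣ n), δ i ≤ R) :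
    (∑ i ∈ J, δ i / f i) ^ K ≤ R ^ K * (Fintype.card G : ℝ) * (1 + K * Real.log F) / q := by
  set 𝒩 := (Icc 1 (F ^ K)).filter (fun n => q < n ∧ n.Coprime q ∧ (c ^ K)⁻¹ * un q n ∈ G) with h𝒩
  set P := Fintype.piFinset (fun _ : Fin K => J) with hP
  have hR0 : 0 ≤ R := by
    refine le_trans ?_ (hR 1 Nat.one_pos (Nat.one_le_pow _ _ hF1))
    exact Finset.sum_nonneg fun i hi => hδ i (mem_filter.1 hi).1
  have e1 : (∑ i ∈ J, δ i / f i) ^ K = ∑ t ∈ P, ∏ l : Fin K, (δ (t l) / f (t l)) := by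
    rw [hP, ← Finset.prod_univ_sum (fun _ : Fin K => J) (fun _ i => δ i / (f i : ℝ)), Finset.prod_const,
      card_univ, Fintype.card_fin]
  have hmaps : ∀ t ∈ P, ∏ l : Fin K, f (t l) ∈ 𝒩 := by
    intro t ht
    have ht' : ∀ l, t l ∈ J := fun l => Fintype.mem_piFinset.1 ht l
    have hn1 : q < ∏ l : Fin K, f (t l) := by
      refine lt_of_le_of_lt hZ ?_
      have : Z ^ K = ∏ _l : Fin K, Z := by rw [Finset.prod_const, card_univ, Fintype.card_fin]
      rw [this]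
      rcases Nat.eq_zero_or_pos Z with h0 | h0
      · subst h0
        rw [Finset.prod_const, card_univ, Fintype.card_fin, zero_pow (by omega)]
        exact Finset.prod_pos fun l _ => (hZf _ (ht' l))
      · apply Finset.prod_lt_prod
        · intro l _; exact h0
        · intro l _; exact (hZf _ (ht' l)).le
        · exact ⟨⟨0, by omega⟩, mem_univ _, hZf _ (ht' _)⟩
    rw [h𝒩, mem_filter, mem_Icc]
    refine ⟨⟨by omega, ?_⟩, hn1, Nat.Coprime.prod_left fun l _ => hcop _ (ht' l), ?_⟩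
    · have : F ^ K = ∏ _l : Fin K, F := by rw [Finset.prod_const, card_univ, Fintype.card_fin]
      rw [this]
      exact Finset.prod_le_prod' fun l _ => hF _ (ht' l)
    · rw [un_prod _ _ (fun l _ => hcop _ (ht' l))]
      have : (c ^ K)⁻¹ * ∏ l : Fin K, un q (f (t l)) = ∏ l : Fin K, (c⁻¹ * un q (f (t l))) := by
        rw [Finset.prod_mul_distrib, Finset.prod_const, card_univ, Fintype.card_fin, inv_pow]
      rw [this]
      exact Subgroup.prod_mem _ fun l _ => hc _ (ht' l)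
  have e2 : ∑ t ∈ P, ∏ l : Fin K, (δ (t l) / f (t l)) ≤ ∑ n ∈ 𝒩, R ^ K * (1 / (n : ℝ)) := by
    rw [← Finset.sum_fiberwise_of_maps_to hmaps]
    apply Finset.sum_le_sum
    intro n hn
    rw [h𝒩, mem_filter, mem_Icc] at hn
    have e3 : ∑ t ∈ P.filter (fun t => ∏ l : Fin K, f (t l) = n), ∏ l : Fin K, (δ (t l) / f (t l)) =
        (∑ t ∈ P.filter (fun t => ∏ l : Fin K, f (t l) = n), ∏ l : Fin K, δ (t l)) * (1 / (n : ℝ)) := by
      rw [Finset.sum_mul]
      apply Finset.sum_congr rfl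
      intro t ht
      rw [mem_filter] at ht
      rw [Finset.prod_div_distrib, ← Nat.cast_prod, ht.2]
      ring
    rw [e3]
    apply mul_le_mul_of_nonneg_right _ (by positivity)
    have e4 : ∑ t ∈ P.filter (fun t => ∏ l : Fin K, f (t l) = n), ∏ l : Fin K, δ (t l) ≤
        ∑ t ∈ Fintype.piFinset (fun _ : Fin K => J.filter (fun i => f i ∣ n)), ∏ l : Fin K, δ (t l) := by
      apply Finset.sum_le_sum_of_subset_of_nonneg
      · intro t ht
        rw [mem_filter] at ht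
        rw [Fintype.mem_piFinset]
        intro l
        rw [mem_filter]
        refine ⟨Fintype.mem_piFinset.1 ht.1 l, ?_⟩
        rw [← ht.2]
        exact Finset.dvd_prod_of_mem _ (mem_univ l)
      · intro t ht _
        apply Finset.prod_nonneg
        intro l _
        exact hδ _ (mem_filter.1 (Fintype.mem_piFinset.1 ht l)).1
    refine e4.trans ?_
    rw [← Finset.prod_univ_sum (fun _ : Fin K => J.filter (fun i => f i ∣ n)) (fun _ i => δ i),
      Finset.prod_const, card_univ, Fintype.card_fin]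
    apply pow_le_pow_left₀
    · exact Finset.sum_nonneg fun i hi => hδ i (mem_filter.1 hi).1
    · exact hR n (by omega) hn.1.2
  rw [e1]
  refine e2.trans ?_
  rw [← Finset.mul_sum]
  have e5 := coset_harm G (c ^ K) (F ^ K) (Nat.one_le_pow _ _ hF1)
  rw [← h𝒩] at e5
  calc R ^ K * ∑ n ∈ 𝒩, 1 / (n : ℝ) ≤ R ^ K * ((Fintype.card G : ℝ) * (1 + Real.log ((F ^ K : ℕ) : ℝ)) / q) :=
        mul_le_mul_of_nonneg_left e5 (pow_nonneg hR0 _)
    _ = _ := by
      rw [Nat.cast_pow, Real.log_pow]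
      ring

end Pool.Agent.K4H49.AC
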