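import Mathlib
import Pool.Agent.K4H49.AC.A4
import Pool.Agent.H353R2.Z2

/-! The two applications of the power trick. -/

set_option autoImplicit false

namespace Pool.Agent.K4H49.AC
open Finset Pool.Agent.R311.RES Filter Topology
open scoped Classical

lemma ev_log_small (C a : ℝ) (ha : 0 < a) : ∀ᶠ x : ℝ in atTop, C * (1 + C * Real.log x) ≤ x ^ a := by
  have h1 : Tendsto (fun x : ℝ => Real.log x / x ^ (a / 2)) atTop (𝓝 0) :=
    (isLittleO_log_rpow_atTop (by positivity : 0 < a / 2)).tendsto_div_nhds_zero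
  have h2 : Tendsto (fun x : ℝ => x ^ (a / 2)) atTop atTop := tendsto_rpow_atTop (by positivity)
  filter_upwards [h1.eventually_le_const (show (0 : ℝ) < 1 by norm_num),
    h2.eventually_ge_atTop (|C| + C ^ 2 + 1), eventually_gt_atTop (1 : ℝ)] with x a1 a2 a3
  have hx : 0 < x := by linarith
  have hp : 0 < x ^ (a / 2) := Real.rpow_pos_of_pos hx _
  rw [div_le_one hp] at a1
  have h3 : x ^ a = x ^ (a / 2) * x ^ (a / 2) := by
    rw [← Real.rpow_add hx]; congr 1; ring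
  rw [h3]
  have hl : 0 ≤ Real.log x := Real.log_nonneg a3.le
  have h4 : C ≤ |C| := le_abs_self C
  have h5 : 1 ≤ x ^ (a / 2) := by
    have : 0 ≤ |C| + C ^ 2 := by positivity
    linarith
  calc C * (1 + C * Real.log x) = C + C ^ 2 * Real.log x := by ring
    _ ≤ |C| * x ^ (a / 2) + C ^ 2 * x ^ (a / 2) := by
        apply add_le_add
        · calc C ≤ |C| * 1 := by rw [mul_one]; exact h4
            _ ≤ _ := mul_le_mul_of_nonneg_left h5 (abs_nonneg _)
        · exact mul_le_mul_of_nonneg_left a1 (by positivity)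
    _ = (|C| + C ^ 2) * x ^ (a / 2) := by ring
    _ ≤ _ := mul_le_mul_of_nonneg_right (by linarith) hp.le

/-- **Few integers in a coset.** -/
theorem few_int (κ δ : ℝ) (hκ : 0 < κ) (hδ : 0 < δ) : ∃ ε₁ : ℝ, 0 < ε₁ ∧ ε₁ ≤ κ ∧ ∃ q₀ : ℕ, ∀ (q : ℕ) [Fact q.Prime],
    q₀ ≤ q → ∀ (G : Subgroup (ZMod q)ˣ), (Fintype.card G : ℝ) ≤ (q : ℝ) ^ (1 - κ) → ∀ (c : (ZMod q)ˣ) (Y : ℕ),
      (q : ℝ) ^ δ / 2 ≤ Y →
      ∑ u ∈ univ.filter (fun u : (ZMod q)ˣ => c⁻¹ * u ∈ G ∧ Y < (u : ZMod q).val),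
        (((u : ZMod q).val.divisors.card : ℝ)) ^ 2 / ((u : ZMod q).val : ℝ) ≤ (q : ℝ) ^ (-ε₁) := by
  set K : ℕ := ⌈2 / δ⌉₊ + 1 with hK
  have hK1 : 1 ≤ K := by omega
  have hKδ : 2 ≤ δ * K := by
    have h1 : 2 / δ ≤ (⌈2 / δ⌉₊ : ℝ) := Nat.le_ceil _
    rw [div_le_iff₀ hδ] at h1
    rw [hK]; push_cast
    nlinarith
  have hKr : (0 : ℝ) < K := by exact_mod_cast (by omega : 0 < K)
  have hK1r : (1 : ℝ) ≤ K := by exact_mod_cast hK1
  obtain ⟨C, hC0, hC⟩ := H353.divisor_bound_real (κ / (12 * K ^ 2)) (by positivity)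
  set C' : ℝ := max (C ^ (3 * K)) K with hC'
  have hC'0 : 0 < C' := lt_max_of_lt_right hKr
  have hev : ∀ᶠ q : ℕ in atTop, C' * (1 + C' * Real.log (q : ℝ)) ≤ (q : ℝ) ^ (κ / 4) :=
    tendsto_natCast_atTop_atTop.eventually (ev_log_small C' (κ / 4) (by positivity))
  obtain ⟨q₀, hq₀⟩ := eventually_atTop.1 hev
  refine ⟨κ / (2 * K), by positivity, ?_, max q₀ (2 ^ K), ?_⟩
  · rw [div_le_iff₀ (by positivity)]
    nlinarith
  intro q _ hqq G hG c Y hY
  have hq : q.Prime := Fact.out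
  have : NeZero q := ⟨hq.pos.ne'⟩
  have hq0 : (0 : ℝ) < q := by exact_mod_cast hq.pos
  have hq1 : (1 : ℝ) ≤ q := by exact_mod_cast hq.one_lt.le
  have hlq : 0 ≤ Real.log q := Real.log_nonneg hq1
  have hbig := hq₀ q (le_trans (le_max_left _ _) hqq)
  have h2K : (2 : ℝ) ^ K ≤ q := by exact_mod_cast le_trans (le_max_right _ _) hqq
  set J := univ.filter (fun u : (ZMod q)ˣ => c⁻¹ * u ∈ G ∧ Y < (u : ZMod q).val) with hJ
  have hcop : ∀ u : (ZMod q)ˣ, ((u : ZMod q).val).Coprime q := fun u => cop_of_lt (val_pos u) (ZMod.val_lt _)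
  have hun : ∀ u : (ZMod q)ˣ, un q (u : ZMod q).val = u := by
    intro u
    apply Units.ext
    rw [un_val (hcop u), ZMod.natCast_zmod_val]
  have hYK : q ≤ Y ^ K := by
    have h1 : (q : ℝ) ≤ ((Y ^ K : ℕ) : ℝ) := by
      push_cast
      have h2 : ((q : ℝ) ^ δ / 2) ^ K ≤ (Y : ℝ) ^ K := pow_le_pow_left₀ (by positivity) hY K
      refine le_trans ?_ h2
      rw [div_pow, ← Real.rpow_natCast ((q : ℝ) ^ δ) K, ← Real.rpow_mul hq0.le, le_div_iff₀ (by positivity)]
      calc (q : ℝ) * 2 ^ K ≤ q * q := mul_le_mul_of_nonneg_left h2K hq0.le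
        _ = (q : ℝ) ^ (2 : ℝ) := by rw [Real.rpow_two]; ring
        _ ≤ _ := Real.rpow_le_rpow_of_exponent_le hq1 hKδ
    exact_mod_cast h1
  set R : ℝ := (C * (q : ℝ) ^ (κ / (12 * K))) ^ 3 with hR
  have hmain := power_trick G c J (fun u : (ZMod q)ˣ => (u : ZMod q).val) (fun u : (ZMod q)ˣ => (((u : ZMod q).val.divisors.card : ℝ)) ^ 2)
    (fun _ _ => by positivity) K q Y R hK1 hq.one_lt.le hYK
    (fun u hu => (mem_filter.1 hu).2.2) (fun u _ => (ZMod.val_lt _).le) (fun u _ => hcop u)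
    (fun u hu => by rw [hun]; exact (mem_filter.1 hu).2.1) (by
      intro n hn0 hnq
      have hd : (n.divisors.card : ℝ) ≤ C * (q : ℝ) ^ (κ / (12 * K)) := by
        refine (hC n hn0.ne').trans ?_
        apply mul_le_mul_of_nonneg_left _ hC0.le
        have h1 : (n : ℝ) ≤ (q : ℝ) ^ (K : ℝ) := by
          rw [Real.rpow_natCast]; exact_mod_cast hnq
        refine (Real.rpow_le_rpow (Nat.cast_nonneg n) h1 (by positivity)).trans ?_
        rw [← Real.rpow_mul hq0.le]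
        apply le_of_eq
        congr 1
        field_simp
      have h2 : ∑ u ∈ J.filter (fun u : (ZMod q)ˣ => (u : ZMod q).val ∣ n), (((u : ZMod q).val.divisors.card : ℝ)) ^ 2 ≤
          ∑ b ∈ n.divisors, ((n.divisors.card : ℝ)) ^ 2 := by
        have h3 : ∑ u ∈ J.filter (fun u : (ZMod q)ˣ => (u : ZMod q).val ∣ n), (((u : ZMod q).val.divisors.card : ℝ)) ^ 2 =
            ∑ b ∈ (J.filter (fun u : (ZMod q)ˣ => (u : ZMod q).val ∣ n)).image (fun u : (ZMod q)ˣ => (u : ZMod q).val),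
              ((b.divisors.card : ℝ)) ^ 2 := by
          rw [Finset.sum_image]
          intro u _ v _ huv
          apply Units.ext
          exact ZMod.val_injective q huv
        rw [h3]
        have h4 : (J.filter (fun u : (ZMod q)ˣ => (u : ZMod q).val ∣ n)).image (fun u : (ZMod q)ˣ => (u : ZMod q).val) ⊆ n.divisors := by
          intro b hb
          rw [mem_image] at hb
          obtain ⟨u, hu, rfl⟩ := hb
          exact Nat.mem_divisors.2 ⟨(mem_filter.1 hu).2, hn0.ne'⟩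
        refine (Finset.sum_le_sum_of_subset_of_nonneg h4 (fun _ _ _ => by positivity)).trans ?_
        apply Finset.sum_le_sum
        intro b hb
        apply pow_le_pow_left₀ (Nat.cast_nonneg _)
        exact_mod_cast card_le_card (Nat.divisors_subset_of_dvd hn0.ne' (Nat.mem_divisors.1 hb).1)
      refine h2.trans ?_
      rw [Finset.sum_const, nsmul_eq_mul, ← pow_succ']
      exact pow_le_pow_left₀ (Nat.cast_nonneg _) hd 3)
  have hs0 : 0 ≤ ∑ u ∈ J, (((u : ZMod q).val.divisors.card : ℝ)) ^ 2 / ((u : ZMod q).val : ℝ) :=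
    Finset.sum_nonneg fun _ _ => by positivity
  have hfin : (∑ u ∈ J, (((u : ZMod q).val.divisors.card : ℝ)) ^ 2 / ((u : ZMod q).val : ℝ)) ^ K ≤
      ((q : ℝ) ^ (-(κ / (2 * K)))) ^ K := by
    refine hmain.trans ?_
    have e1 : ((q : ℝ) ^ (-(κ / (2 * K)))) ^ K = (q : ℝ) ^ (-(κ / 2)) := by
      rw [← Real.rpow_natCast ((q : ℝ) ^ (-(κ / (2 * K)))) K, ← Real.rpow_mul hq0.le]
      congr 1
      field_simp
    rw [e1]
    have e2 : R ^ K = C ^ (3 * K) * (q : ℝ) ^ (κ / 4) := by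
      rw [hR, ← pow_mul, mul_pow, ← Real.rpow_natCast ((q : ℝ) ^ (κ / (12 * K))) (3 * K), ← Real.rpow_mul hq0.le]
      congr 2
      push_cast
      field_simp
      norm_num
    rw [e2]
    have e3 : C ^ (3 * K) * (1 + K * Real.log q) ≤ (q : ℝ) ^ (κ / 4) := by
      refine le_trans ?_ hbig
      have h1 : C ^ (3 * K) ≤ C' := le_max_left _ _
      have h2 : (K : ℝ) ≤ C' := le_max_right _ _
      apply mul_le_mul h1 _ (by positivity) hC'0.le
      have := mul_le_mul_of_nonneg_right h2 hlq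
      linarith
    have e4 : (Fintype.card G : ℝ) / q ≤ (q : ℝ) ^ (-κ) := by
      rw [div_le_iff₀ hq0]
      refine hG.trans (le_of_eq ?_)
      rw [show (1 - κ) = -κ + 1 by ring, Real.rpow_add hq0, Real.rpow_one]
    have e5 : (q : ℝ) ^ (-(κ / 2)) = (q : ℝ) ^ (κ / 4) * (q : ℝ) ^ (κ / 4) * (q : ℝ) ^ (-κ) := by
      rw [← Real.rpow_add hq0, ← Real.rpow_add hq0]
      congr 1; ring
    rw [e5]
    calc C ^ (3 * K) * (q : ℝ) ^ (κ / 4) * (Fintype.card G : ℝ) * (1 + K * Real.log q) / q =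
        (C ^ (3 * K) * (1 + K * Real.log q)) * (q : ℝ) ^ (κ / 4) * ((Fintype.card G : ℝ) / q) := by ring
      _ ≤ (q : ℝ) ^ (κ / 4) * (q : ℝ) ^ (κ / 4) * (q : ℝ) ^ (-κ) := by
        apply mul_le_mul _ e4 (by positivity) (by positivity)
        exact mul_le_mul_of_nonneg_right e3 (by positivity)
  exact le_of_pow_le_pow_left₀ (by omega) (by positivity) hfin

end Pool.Agent.K4H49.AC
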