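import Mathlib
import Pool.Agent.K4H49.AC.A5

/-! Products of primes from a window in a coset. -/

set_option autoImplicit false

namespace Pool.Agent.K4H49.AC
open Finset Pool.Agent.R311.RES Filter Topology
open scoped Classical

/-- the tuples of elements of `I` with product in the coset `c G` -/
noncomputable def TU (q : ℕ) [Fact q.Prime] (G : Subgroup (ZMod q)ˣ) (I : Finset ℕ) (a : ℕ)
    (c : (ZMod q)ˣ) : Finset (Fin a → ℕ) :=
  (Fintype.piFinset (fun _ : Fin a => I)).filter (fun x => c⁻¹ * un q (∏ l, x l) ∈ G)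

/-- **Few products of primes in a coset.** -/
theorem few_smooth (κ : ℝ) (hκ : 0 < κ) : ∃ q₀ : ℕ, ∀ (q : ℕ) [Fact q.Prime], q₀ ≤ q →
    ∀ (G : Subgroup (ZMod q)ˣ), (Fintype.card G : ℝ) ≤ (q : ℝ) ^ (1 - κ) → ∀ y : ℕ, 3 ≤ y →
      ∀ I : Finset ℕ, (∀ p ∈ I, p.Prime ∧ y < p ∧ p ≤ y ^ 2 ∧ p < q) → ∀ a : ℕ, 1 ≤ a → y ^ a ≤ q →
        ∀ c : (ZMod q)ˣ, ∑ x ∈ TU q G I a c, 1 / ((∏ l, x l : ℕ) : ℝ) ≤
          (4 * Real.log q * (y : ℝ) ^ (-(κ / 4))) ^ a := by
  have hev : ∀ᶠ q : ℕ in atTop, (4 : ℝ) * (1 + 4 * Real.log (q : ℝ)) ≤ (q : ℝ) ^ (κ / 2) :=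
    tendsto_natCast_atTop_atTop.eventually (ev_log_small 4 (κ / 2) (by positivity))
  obtain ⟨q₀, hq₀⟩ := eventually_atTop.1 hev
  refine ⟨q₀, ?_⟩
  intro q _ hqq G hG y hy I hI a ha hya c
  have hq : q.Prime := Fact.out
  have hq0 : (0 : ℝ) < q := by exact_mod_cast hq.pos
  have hq1 : (1 : ℝ) ≤ q := by exact_mod_cast hq.one_lt.le
  have hlq : 0 < Real.log q := Real.log_pos (by exact_mod_cast hq.one_lt)
  have hbig := hq₀ q hqq
  have hy0 : (0 : ℝ) < y := by exact_mod_cast (by omega : 0 < y)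
  have hly : 1 ≤ Real.log y := by
    rw [Real.le_log_iff_exp_le hy0]
    have h3 : (3 : ℝ) ≤ y := by exact_mod_cast hy
    have := Real.exp_one_lt_d9
    linarith
  have har : (1 : ℝ) ≤ a := by exact_mod_cast ha
  set b : ℕ := y ^ a with hb
  have hb1 : 1 < b := Nat.one_lt_pow (by omega) (by omega)
  set K : ℕ := Nat.clog b q with hK
  have hKq : q ≤ b ^ K := Nat.le_pow_clog hb1 q
  have hK0 : 1 ≤ K := by
    by_contra h
    have : K = 0 := by omega
    rw [this, pow_zero] at hKq
    have := hq.one_lt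
    omega
  have hKr : (1 : ℝ) ≤ K := by exact_mod_cast hK0
  have hlogya : (a : ℝ) * Real.log y ≤ Real.log q := by
    rw [← Real.log_pow]
    apply Real.log_le_log (by positivity)
    exact_mod_cast hya
  have hKlog : (K : ℝ) * (a * Real.log y) ≤ 2 * Real.log q := by
    have h1 : b ^ K.pred < q := Nat.pow_pred_clog_lt_self hb1 hq.one_lt
    have h2 : ((K : ℝ) - 1) * (a * Real.log y) ≤ Real.log q := by
      have h3 : Real.log ((b ^ K.pred : ℕ) : ℝ) ≤ Real.log q := by
        apply Real.log_le_log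
        · exact_mod_cast Nat.pow_pos (by omega : 0 < b)
        · exact_mod_cast h1.le
      rw [Nat.cast_pow, Real.log_pow, hb, Nat.cast_pow, Real.log_pow, Nat.pred_eq_sub_one,
        Nat.cast_sub hK0, Nat.cast_one] at h3
      exact h3
    linarith
  have h2aK : 2 * (a : ℝ) * K ≤ 4 * Real.log q := by
    have h1 : (a : ℝ) * K * 1 ≤ a * K * Real.log y := mul_le_mul_of_nonneg_left hly (by positivity)
    nlinarith
  have hcop : ∀ x ∈ Fintype.piFinset (fun _ : Fin a => I), (∏ l, x l).Coprime q := by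
    intro x hx
    refine Nat.Coprime.prod_left fun l _ => ?_
    have := hI _ (Fintype.mem_piFinset.1 hx l)
    exact cop_of_lt this.1.pos this.2.2.2
  have hmain := power_trick G c (TU q G I a c) (fun x => ∏ l, x l) (fun _ => (1 : ℝ))
    (fun _ _ => zero_le_one) K (y ^ (2 * a)) b ((2 * (a : ℝ) * K) ^ a) hK0 (Nat.one_le_pow _ _ (by omega)) hKq
    (by
      intro x hx
      have hx' := Fintype.mem_piFinset.1 (mem_filter.1 hx).1
      have : b = ∏ _l : Fin a, y := by rw [Finset.prod_const, card_univ, Fintype.card_fin]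
      rw [this]
      apply Finset.prod_lt_prod
      · intro l _; omega
      · intro l _; exact (hI _ (hx' l)).2.1.le
      · exact ⟨⟨0, by omega⟩, mem_univ _, (hI _ (hx' _)).2.1⟩)
    (by
      intro x hx
      have hx' := Fintype.mem_piFinset.1 (mem_filter.1 hx).1
      have : y ^ (2 * a) = ∏ _l : Fin a, y ^ 2 := by
        rw [Finset.prod_const, card_univ, Fintype.card_fin, pow_mul]
      rw [this]
      exact Finset.prod_le_prod' fun l _ => (hI _ (hx' l)).2.2.1)
    (fun x hx => hcop x (mem_filter.1 hx).1)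
    (fun x hx => (mem_filter.1 hx).2)
    (by
      intro n hn0 hn
      rw [Finset.sum_const, nsmul_eq_mul, mul_one]
      have h1 : ((TU q G I a c).filter (fun x => ∏ l, x l ∣ n)).card ≤ (I.filter (fun p => p ∣ n)).card ^ a := by
        have h2 : (TU q G I a c).filter (fun x => ∏ l, x l ∣ n) ⊆
            Fintype.piFinset (fun _ : Fin a => I.filter (fun p => p ∣ n)) := by
          intro x hx
          rw [mem_filter] at hx
          have hx' := Fintype.mem_piFinset.1 (mem_filter.1 hx.1).1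
          rw [Fintype.mem_piFinset]
          intro l
          rw [mem_filter]
          exact ⟨hx' l, (Finset.dvd_prod_of_mem _ (mem_univ l)).trans hx.2⟩
        refine (card_le_card h2).trans (le_of_eq ?_)
        rw [Fintype.card_piFinset, Finset.prod_const, card_univ, Fintype.card_fin]
      have h3 : (I.filter (fun p => p ∣ n)).card ≤ 2 * a * K := by
        have h4 : ms (I.filter (fun p => p ∣ n)) ∣ n := by
          rw [ms_dvd_iff (fun p hp => (hI p (mem_filter.1 hp).1).1)]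
          intro p hp
          exact (mem_filter.1 hp).2
        have h5 : y ^ (I.filter (fun p => p ∣ n)).card ≤ ms (I.filter (fun p => p ∣ n)) := by
          unfold ms
          rw [← Finset.prod_const]
          exact Finset.prod_le_prod' fun p hp => (hI p (mem_filter.1 hp).1).2.1.le
        have h6 : y ^ (I.filter (fun p => p ∣ n)).card ≤ y ^ (2 * a * K) := by
          rw [pow_mul y (2 * a) K]
          exact h5.trans ((Nat.le_of_dvd hn0 h4).trans hn)
        exact (Nat.pow_le_pow_iff_right (by omega)).1 h6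
      calc (((TU q G I a c).filter (fun x => ∏ l, x l ∣ n)).card : ℝ) ≤
          (((I.filter (fun p => p ∣ n)).card ^ a : ℕ) : ℝ) := by exact_mod_cast h1
        _ ≤ (((2 * a * K) ^ a : ℕ) : ℝ) := by exact_mod_cast Nat.pow_le_pow_left h3 a
        _ = _ := by push_cast; rfl)
  have hly0 : 0 < Real.log y := by linarith
  have hρ0 : 0 ≤ (4 * Real.log q * (y : ℝ) ^ (-(κ / 4))) ^ a := by positivity
  have hfin : (∑ x ∈ TU q G I a c, 1 / ((∏ l, x l : ℕ) : ℝ)) ^ K ≤
      ((4 * Real.log q * (y : ℝ) ^ (-(κ / 4))) ^ a) ^ K := by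
    refine hmain.trans ?_
    have e1 : ((2 * (a : ℝ) * K) ^ a) ^ K ≤ ((4 * Real.log q) ^ a) ^ K := by
      apply pow_le_pow_left₀ (by positivity)
      exact pow_le_pow_left₀ (by positivity) h2aK a
    have e2 : 1 + (K : ℝ) * Real.log ((y ^ (2 * a) : ℕ) : ℝ) ≤ (q : ℝ) ^ (κ / 2) := by
      rw [Nat.cast_pow, Real.log_pow]
      push_cast
      have : (K : ℝ) * (2 * a * Real.log y) ≤ 4 * Real.log q := by
        calc (K : ℝ) * (2 * a * Real.log y) = 2 * (K * (a * Real.log y)) := by ring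
          _ ≤ _ := by linarith
      linarith
    have e3 : (Fintype.card G : ℝ) / q ≤ (q : ℝ) ^ (-κ) := by
      rw [div_le_iff₀ hq0]
      refine hG.trans (le_of_eq ?_)
      rw [show (1 - κ) = -κ + 1 by ring, Real.rpow_add hq0, Real.rpow_one]
    have e4 : (q : ℝ) ^ (κ / 2) * (q : ℝ) ^ (-κ) ≤ (((y : ℝ) ^ (-(κ / 4))) ^ a) ^ K := by
      rw [← Real.rpow_add hq0, ← pow_mul, ← Real.rpow_natCast ((y : ℝ) ^ (-(κ / 4))) (a * K),
        ← Real.rpow_mul hy0.le, Real.rpow_def_of_pos hq0, Real.rpow_def_of_pos hy0]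
      apply Real.exp_le_exp.2
      push_cast
      have : κ * ((K : ℝ) * (a * Real.log y)) ≤ κ * (2 * Real.log q) := mul_le_mul_of_nonneg_left hKlog hκ.le
      nlinarith
    calc ((2 * (a : ℝ) * K) ^ a) ^ K * (Fintype.card G : ℝ) * (1 + K * Real.log ((y ^ (2 * a) : ℕ) : ℝ)) / q =
        ((2 * (a : ℝ) * K) ^ a) ^ K * ((1 + K * Real.log ((y ^ (2 * a) : ℕ) : ℝ)) * ((Fintype.card G : ℝ) / q)) := by
          ring
      _ ≤ ((4 * Real.log q) ^ a) ^ K * ((q : ℝ) ^ (κ / 2) * (q : ℝ) ^ (-κ)) := by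
          apply mul_le_mul e1 _ (by
            have : 0 ≤ Real.log ((y ^ (2 * a) : ℕ) : ℝ) := Real.log_natCast_nonneg _
            positivity) (by positivity)
          exact mul_le_mul e2 e3 (by positivity) (by positivity)
      _ ≤ ((4 * Real.log q) ^ a) ^ K * (((y : ℝ) ^ (-(κ / 4))) ^ a) ^ K :=
          mul_le_mul_of_nonneg_left e4 (by positivity)
      _ = _ := by rw [← mul_pow, ← mul_pow]
  exact le_of_pow_le_pow_left₀ (by omega) hρ0 hfin

end Pool.Agent.K4H49.AC
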