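import Mathlib
import Pool.Agent.K4H49.AC.A7

/-! The sum of the squares of the coefficients on the annihilator, off the identity. -/

set_option autoImplicit false

namespace Pool.Agent.K4H49.AC
open Finset Pool.Agent.R311.RES
open scoped Classical

lemma tuple_of_smooth (I : Finset ℕ) {u : ℕ} (hu : 0 < u) (h : u.primeFactors ⊆ I) :
    ∃ x ∈ Fintype.piFinset (fun _ : Fin (ArithmeticFunction.cardFactors u) => I), ∏ l, x l = u := by
  have h1 : ArithmeticFunction.cardFactors u = u.primeFactorsList.length := ArithmeticFunction.cardFactors_apply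
  rw [h1]
  refine ⟨fun l => u.primeFactorsList.get l, ?_, ?_⟩
  · rw [Fintype.mem_piFinset]
    intro l
    apply h
    rw [Nat.mem_primeFactors_iff_mem_primeFactorsList]
    exact List.get_mem _ _
  · have := List.prod_ofFn (f := fun l : Fin u.primeFactorsList.length => u.primeFactorsList.get l)
    rw [← this, List.ofFn_get, Nat.prod_primeFactorsList hu.ne']

lemma cardFactors_ms (V : Finset ℕ) (hV : ∀ p ∈ V, p.Prime) : ArithmeticFunction.cardFactors (ms V) = V.card := by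
  induction V using Finset.induction_on with
  | empty => simp [ms]
  | insert p V hp ih =>
    have h1 : ∀ p ∈ V, p.Prime := fun x hx => hV x (mem_insert_of_mem hx)
    have h2 : p.Prime := hV p (mem_insert_self _ _)
    have h3 : ms (insert p V) = p * ms V := Finset.prod_insert hp
    rw [h3, ArithmeticFunction.cardFactors_mul h2.ne_zero (ms_pos h1).ne', ih h1,
      ArithmeticFunction.cardFactors_apply_prime h2, card_insert_of_notMem hp, add_comm]

lemma EE_nonneg (I : Finset ℕ) (r : ℕ) : 0 ≤ EE I r := Finset.sum_nonneg fun _ _ => by positivity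

lemma EE_step (I : Finset ℕ) (r : ℕ) : ((r : ℝ) + 1) * EE I (r + 1) =
    ∑ S ∈ powersetCard r I, ∑ p ∈ I \ S, 1 / ((ms S : ℝ) * p) := by
  have h1 : ((r : ℝ) + 1) * EE I (r + 1) = ∑ T ∈ powersetCard (r + 1) I, ∑ _p ∈ T, 1 / (ms T : ℝ) := by
    unfold EE
    rw [Finset.mul_sum]
    apply Finset.sum_congr rfl
    intro T hT
    rw [Finset.sum_const, (mem_powersetCard.1 hT).2, nsmul_eq_mul]
    push_cast
    rfl
  rw [h1, Finset.sum_sigma', Finset.sum_sigma']
  refine Finset.sum_bij' (fun x _ => ⟨x.1.erase x.2, x.2⟩) (fun x _ => ⟨insert x.2 x.1, x.2⟩) ?_ ?_ ?_ ?_ ?_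
  · rintro ⟨T, p⟩ h
    rw [mem_sigma, mem_powersetCard] at h
    obtain ⟨⟨a1, a2⟩, a3⟩ := h
    rw [mem_sigma, mem_powersetCard]
    refine ⟨⟨(erase_subset _ _).trans a1, ?_⟩, ?_⟩
    · show (T.erase p).card = r
      rw [card_erase_of_mem a3, a2]; rfl
    · show p ∈ I \ T.erase p
      rw [mem_sdiff]
      exact ⟨a1 a3, fun h => (mem_erase.1 h).1 rfl⟩
  · rintro ⟨S, p⟩ h
    rw [mem_sigma, mem_powersetCard] at h
    obtain ⟨⟨a1, a2⟩, a3⟩ := h
    have a3' := mem_sdiff.1 a3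
    rw [mem_sigma, mem_powersetCard]
    refine ⟨⟨?_, ?_⟩, mem_insert_self _ _⟩
    · intro x hx
      rcases mem_insert.1 hx with h | h
      · rw [h]; exact a3'.1
      · exact a1 h
    · show (insert p S).card = r + 1
      rw [card_insert_of_notMem a3'.2, a2]
  · rintro ⟨T, p⟩ h
    rw [mem_sigma] at h
    simp only [insert_erase h.2]
  · rintro ⟨S, p⟩ h
    rw [mem_sigma] at h
    simp only [erase_insert (mem_sdiff.1 h.2).2]
  · rintro ⟨T, p⟩ h
    rw [mem_sigma] at h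
    show 1 / (ms T : ℝ) = 1 / ((ms (T.erase p) : ℝ) * p)
    have : ms T = p * ms (T.erase p) := by
      exact (Finset.mul_prod_erase T (fun p => p) h.2).symm
    rw [this]
    push_cast
    rw [mul_comm]

lemma EE_up (I : Finset ℕ) (y : ℕ) (hy : 0 < y) (hI : ∀ p ∈ I, y < p) (r : ℕ) :
    EE I r * (∑ p ∈ I, 1 / (p : ℝ) - r / y) ≤ ((r : ℝ) + 1) * EE I (r + 1) := by
  rw [EE_step]
  unfold EE
  rw [Finset.sum_mul]
  apply Finset.sum_le_sum
  intro S hS
  rw [mem_powersetCard] at hS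
  have h1 : ∑ p ∈ I \ S, 1 / ((ms S : ℝ) * p) = 1 / (ms S : ℝ) * ∑ p ∈ I \ S, 1 / (p : ℝ) := by
    rw [Finset.mul_sum]
    apply Finset.sum_congr rfl
    intro p _
    rw [one_div_mul_one_div]
  rw [h1]
  apply mul_le_mul_of_nonneg_left _ (by positivity)
  have h2 : ∑ p ∈ I \ S, 1 / (p : ℝ) + ∑ p ∈ S, 1 / (p : ℝ) = ∑ p ∈ I, 1 / (p : ℝ) :=
    Finset.sum_sdiff hS.1
  have h3 : ∑ p ∈ S, 1 / (p : ℝ) ≤ r / y := by
    have hy0 : (0 : ℝ) < y := by exact_mod_cast hy
    calc ∑ p ∈ S, 1 / (p : ℝ) ≤ ∑ _p ∈ S, 1 / (y : ℝ) := by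
          apply Finset.sum_le_sum
          intro p hp
          apply one_div_le_one_div_of_le hy0
          exact_mod_cast (hI p (hS.1 hp)).le
      _ = r / y := by rw [Finset.sum_const, hS.2, nsmul_eq_mul]; ring
  linarith

/-- one step of the recursion, simplified -/
lemma EE_ratio (I : Finset ℕ) (y : ℕ) (hI : ∀ p ∈ I, y < p) (k' : ℕ) (hy : 36 * k' ≤ y) (hk' : 0 < k')
    (hs : 1 / 18 ≤ ∑ p ∈ I, 1 / (p : ℝ)) (r : ℕ) (hr : r < k') :
    EE I r ≤ 36 * k' * EE I (r + 1) := by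
  have hy0 : 0 < y := by omega
  have hy0' : (0 : ℝ) < y := by exact_mod_cast hy0
  have h1 := EE_up I y hy0 hI r
  have h2 : (r : ℝ) / y ≤ 1 / 36 := by
    rw [div_le_iff₀ hy0']
    have h3 : (36 : ℝ) * k' ≤ y := by exact_mod_cast hy
    have h4 : (r : ℝ) ≤ k' := by exact_mod_cast hr.le
    linarith
  have h3 : EE I r * (1 / 36) ≤ EE I r * (∑ p ∈ I, 1 / (p : ℝ) - r / y) :=
    mul_le_mul_of_nonneg_left (by linarith) (EE_nonneg I r)
  have h4 : ((r : ℝ) + 1) * EE I (r + 1) ≤ k' * EE I (r + 1) := by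
    apply mul_le_mul_of_nonneg_right _ (EE_nonneg I _)
    exact_mod_cast hr
  linarith

lemma EE_down (I : Finset ℕ) (y : ℕ) (hI : ∀ p ∈ I, y < p) (k' : ℕ) (hy : 36 * k' ≤ y) (hk' : 0 < k')
    (hs : 1 / 18 ≤ ∑ p ∈ I, 1 / (p : ℝ)) (b : ℕ) (hb : b ≤ k') :
    EE I (k' - b) ≤ (36 * (k' : ℝ)) ^ b * EE I k' := by
  induction b with
  | zero => simp
  | succ b ih =>
    have h1 := ih (by omega)
    have h2 := EE_ratio I y hI k' hy hk' hs (k' - (b + 1)) (by omega)
    rw [show k' - (b + 1) + 1 = k' - b by omega] at h2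
    calc EE I (k' - (b + 1)) ≤ 36 * k' * EE I (k' - b) := h2
      _ ≤ 36 * k' * ((36 * (k' : ℝ)) ^ b * EE I k') := mul_le_mul_of_nonneg_left h1 (by positivity)
      _ = _ := by ring

lemma choose_up (n k : ℕ) (h : k ≤ n) : (n + 1).choose k ≤ (k + 1) * n.choose k := by
  have h1 : n.choose k * (n + 1) = (n + 1).choose k * (n + 1 - k) := Nat.choose_mul_succ_eq n k
  have h2 : n + 1 ≤ (k + 1) * (n + 1 - k) := by
    obtain ⟨m, rfl⟩ := Nat.exists_eq_add_of_le h
    have : k + m + 1 - k = m + 1 := by omega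
    rw [this]
    nlinarith
  have h3 : 0 < n + 1 - k := by omega
  have h4 : (n + 1).choose k * (n + 1 - k) ≤ ((k + 1) * n.choose k) * (n + 1 - k) := by
    rw [← h1]
    calc n.choose k * (n + 1) ≤ n.choose k * ((k + 1) * (n + 1 - k)) := Nat.mul_le_mul_left _ h2
      _ = _ := by ring
  exact Nat.le_of_mul_le_mul_right h4 h3

lemma choose_ratio (k' k a b : ℕ) (h : k ≤ k') :
    (((a + (k' - b)).choose k : ℕ) : ℝ) ≤ ((k : ℝ) + 1) ^ a * ((k'.choose k : ℕ) : ℝ) := by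
  have h1 : (a + k').choose k ≤ (k + 1) ^ a * k'.choose k := by
    induction a with
    | zero => simp
    | succ a ih =>
      rw [show a + 1 + k' = (a + k') + 1 by ring]
      calc _ ≤ (k + 1) * (a + k').choose k := choose_up _ _ (by omega)
        _ ≤ (k + 1) * ((k + 1) ^ a * k'.choose k) := Nat.mul_le_mul_left _ ih
        _ = _ := by ring
  have h2 : (a + (k' - b)).choose k ≤ (a + k').choose k := Nat.choose_le_choose k (by omega)
  exact_mod_cast h2.trans h1

variable {q : ℕ} [Fact q.Prime]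

/-- the collision sum -/
noncomputable def coll (q : ℕ) [Fact q.Prime] (G : Subgroup (ZMod q)ˣ) (I : Finset ℕ) (a b : ℕ) : ℝ :=
  ∑ x ∈ Fintype.piFinset (fun _ : Fin a => I), ∑ z ∈ Fintype.piFinset (fun _ : Fin b => I),
    if (un q (∏ l, z l))⁻¹ * un q (∏ l, x l) ∈ G then 1 / (((∏ l, x l : ℕ) : ℝ) * ((∏ l, z l : ℕ) : ℝ)) else 0

lemma sum_tuples (I : Finset ℕ) (a : ℕ) : ∑ x ∈ Fintype.piFinset (fun _ : Fin a => I),
    1 / ((∏ l, x l : ℕ) : ℝ) = (∑ p ∈ I, 1 / (p : ℝ)) ^ a := by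
  have h := Finset.prod_univ_sum (fun _ : Fin a => I) (fun _ p => 1 / (p : ℝ))
  rw [Finset.prod_const, card_univ, Fintype.card_fin] at h
  rw [h]
  apply Finset.sum_congr rfl
  intro x _
  rw [Nat.cast_prod, Finset.prod_div_distrib, Finset.prod_const_one]

lemma coll_bound (G : Subgroup (ZMod q)ˣ) (I : Finset ℕ) (A : ℕ) (r s : ℝ) (hr0 : 0 ≤ r) (hr1 : r ≤ 1)
    (hs1 : 1 ≤ s) (hs : ∑ p ∈ I, 1 / (p : ℝ) ≤ s)
    (hQ : ∀ a, 1 ≤ a → a ≤ A → ∀ c : (ZMod q)ˣ, ∑ x ∈ TU q G I a c, 1 / ((∏ l, x l : ℕ) : ℝ) ≤ (r ^ 2) ^ a)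
    (a b : ℕ) (ha : a ≤ A) (hb : b ≤ A) (hab : 1 ≤ a + b) : coll q G I a b ≤ (s * r) ^ (a + b) := by
  have hs0 : 0 ≤ ∑ p ∈ I, 1 / (p : ℝ) := Finset.sum_nonneg fun _ _ => by positivity
  have hspow : ∀ m n : ℕ, m ≤ n → (∑ p ∈ I, 1 / (p : ℝ)) ^ m ≤ s ^ n := fun m n h =>
    (pow_le_pow_left₀ hs0 hs m).trans (pow_le_pow_right₀ hs1 h)
  rcases Nat.lt_or_ge a b with hlt | hge
  · have e1 : coll q G I a b = ∑ x ∈ Fintype.piFinset (fun _ : Fin a => I), 1 / ((∏ l, x l : ℕ) : ℝ) *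
        ∑ z ∈ TU q G I b (un q (∏ l, x l)), 1 / ((∏ l, z l : ℕ) : ℝ) := by
      unfold coll TU
      apply Finset.sum_congr rfl
      intro x _
      rw [Finset.mul_sum, Finset.sum_filter]
      apply Finset.sum_congr rfl
      intro z _
      have h1 : ((un q (∏ l, z l))⁻¹ * un q (∏ l, x l) ∈ G) ↔ ((un q (∏ l, x l))⁻¹ * un q (∏ l, z l) ∈ G) := by
        rw [← Subgroup.inv_mem_iff, mul_inv_rev, inv_inv]
      by_cases h : (un q (∏ l, x l))⁻¹ * un q (∏ l, z l) ∈ G
      · rw [if_pos (h1.2 h), if_pos h, one_div_mul_one_div]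
      · rw [if_neg (fun h' => h (h1.1 h')), if_neg h]
    rw [e1]
    have e2 : ∀ x ∈ Fintype.piFinset (fun _ : Fin a => I), 1 / ((∏ l, x l : ℕ) : ℝ) *
        ∑ z ∈ TU q G I b (un q (∏ l, x l)), 1 / ((∏ l, z l : ℕ) : ℝ) ≤
        1 / ((∏ l, x l : ℕ) : ℝ) * (r ^ 2) ^ b := fun x _ =>
      mul_le_mul_of_nonneg_left (hQ b (by omega) hb _) (by positivity)
    refine (Finset.sum_le_sum e2).trans ?_
    rw [← Finset.sum_mul, sum_tuples, mul_pow, ← pow_mul]
    apply mul_le_mul (hspow a (a + b) (by omega)) _ (by positivity) (by positivity)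
    exact pow_le_pow_of_le_one hr0 hr1 (by omega)
  · have e1 : coll q G I a b = ∑ z ∈ Fintype.piFinset (fun _ : Fin b => I), 1 / ((∏ l, z l : ℕ) : ℝ) *
        ∑ x ∈ TU q G I a (un q (∏ l, z l)), 1 / ((∏ l, x l : ℕ) : ℝ) := by
      unfold coll TU
      rw [Finset.sum_comm]
      apply Finset.sum_congr rfl
      intro z _
      rw [Finset.mul_sum, Finset.sum_filter]
      apply Finset.sum_congr rfl
      intro x _
      by_cases h : (un q (∏ l, z l))⁻¹ * un q (∏ l, x l) ∈ G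
      · rw [if_pos h, if_pos h, one_div_mul_one_div, mul_comm]
      · rw [if_neg h, if_neg h]
    rw [e1]
    have e2 : ∀ z ∈ Fintype.piFinset (fun _ : Fin b => I), 1 / ((∏ l, z l : ℕ) : ℝ) *
        ∑ x ∈ TU q G I a (un q (∏ l, z l)), 1 / ((∏ l, x l : ℕ) : ℝ) ≤
        1 / ((∏ l, z l : ℕ) : ℝ) * (r ^ 2) ^ a := fun z _ =>
      mul_le_mul_of_nonneg_left (hQ a (by omega) ha _) (by positivity)
    refine (Finset.sum_le_sum e2).trans ?_
    rw [← Finset.sum_mul, sum_tuples, mul_pow, ← pow_mul]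
    apply mul_le_mul (hspow b (a + b) (by omega)) _ (by positivity) (by positivity)
    exact pow_le_pow_of_le_one hr0 hr1 (by omega)

/-- the pairs of degrees -/
noncomputable def PP (A k' : ℕ) : Finset (ℕ × ℕ) :=
  (range (A + 1) ×ˢ range (k' + 1)).filter (fun z => z ≠ (0, 0))

theorem V_sum (G : Subgroup (ZMod q)ˣ) (I : Finset ℕ) (hI : ∀ p ∈ I, p.Prime) (k k' Y B B' : ℕ)
    (hB : ∀ S ∈ powersetCard k I, ms S ≤ B) (hB' : ∀ S ∈ powersetCard k' I, ms S ≤ B')
    (hq : Y * B * B' < q) (A : ℕ)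
    (hA : ∀ u : ℕ, 0 < u → u ≤ Y * B → u.primeFactors ⊆ I → ArithmeticFunction.cardFactors u ≤ A) :
    ∑ g ∈ univ.filter (fun g : (ZMod q)ˣ => g ∈ G ∧ g ≠ 1), WS q I k k' Y g ^ 2 ≤
      ∑ z ∈ PP A k', ((((z.1 + (k' - z.2)).choose k : ℕ) : ℝ) * EE I (k' - z.2)) ^ 2 * coll q G I z.1 z.2 := by
  set F : ℕ × ℕ → ℝ := fun z => ((((z.1 + (k' - z.2)).choose k : ℕ) : ℝ) * EE I (k' - z.2)) ^ 2 with hF
  have hF0 : ∀ z, 0 ≤ F z := fun z => by rw [hF]; positivity
  have h1 : ∀ g ∈ univ.filter (fun g : (ZMod q)ˣ => g ∈ G ∧ g ≠ 1), WS q I k k' Y g ^ 2 ≤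
      ∑ ab ∈ PP A k', ∑ x ∈ Fintype.piFinset (fun _ : Fin ab.1 => I),
        ∑ z ∈ Fintype.piFinset (fun _ : Fin ab.2 => I),
          if g = (un q (∏ l, z l))⁻¹ * un q (∏ l, x l) then
            F ab * (1 / (((∏ l, x l : ℕ) : ℝ) * ((∏ l, z l : ℕ) : ℝ))) else 0 := by
    intro g hg
    rw [mem_filter] at hg
    have hnn : ∀ (ab : ℕ × ℕ) (x : Fin ab.1 → ℕ) (z : Fin ab.2 → ℕ),
        0 ≤ (if g = (un q (∏ l, z l))⁻¹ * un q (∏ l, x l) then
            F ab * (1 / (((∏ l, x l : ℕ) : ℝ) * ((∏ l, z l : ℕ) : ℝ))) else 0) := by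
      intro ab x z
      split_ifs
      · have := hF0 ab; positivity
      · exact le_rfl
    by_cases h0 : WS q I k k' Y g = 0
    · rw [h0, zero_pow (by norm_num)]
      exact Finset.sum_nonneg fun ab _ => Finset.sum_nonneg fun x _ => Finset.sum_nonneg fun z _ => hnn ab x z
    · obtain ⟨u, V, u0, uY, uI, VI, Vk, e1, e2⟩ := fiber I hI k k' Y B B' hB hB' hq g h0
      have hVp : ∀ p ∈ V, p.Prime := fun p hp => hI p (VI hp)
      have pV := ms_pos hVp
      obtain ⟨x, hx1, hx2⟩ := tuple_of_smooth I u0 uI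
      obtain ⟨z, hz1, hz2⟩ := tuple_of_smooth I pV (by rw [ms_pf hVp]; exact VI)
      set ab : ℕ × ℕ := (ArithmeticFunction.cardFactors u, ArithmeticFunction.cardFactors (ms V)) with hab
      have hab2 : ab.2 = V.card := cardFactors_ms V hVp
      have hmem : ab ∈ PP A k' := by
        rw [PP, mem_filter, mem_product, mem_range, mem_range]
        refine ⟨⟨?_, ?_⟩, ?_⟩
        · have := hA u u0 uY uI
          show ArithmeticFunction.cardFactors u < A + 1
          omega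
        · rw [hab2]; omega
        · intro h
          have h3 : ArithmeticFunction.cardFactors u = 0 := congrArg Prod.fst h
          have h4 : V.card = 0 := by rw [← hab2, h]
          have h5 : u = 1 := by
            rcases (ArithmeticFunction.cardFactors_eq_zero_iff_eq_zero_or_one).1 h3 with h | h
            · omega
            · exact h
          have h6 : V = ∅ := card_eq_zero.1 h4
          rw [h5, h6] at e1
          have h7 : (ui q (∅ : Finset ℕ) : (ZMod q)ˣ) = un q 1 := by simp [ui, ms]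
          rw [h7] at e1
          have h8 : g = 1 := by
            have := e1.symm
            rw [mul_eq_right] at this
            exact this
          exact hg.2.2 h8
      have hsingle : (if g = (un q (∏ l, z l))⁻¹ * un q (∏ l, x l) then
            F ab * (1 / (((∏ l, x l : ℕ) : ℝ) * ((∏ l, z l : ℕ) : ℝ))) else 0) ≤
          ∑ ab ∈ PP A k', ∑ x ∈ Fintype.piFinset (fun _ : Fin ab.1 => I),
        ∑ z ∈ Fintype.piFinset (fun _ : Fin ab.2 => I),
          if g = (un q (∏ l, z l))⁻¹ * un q (∏ l, x l) then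
            F ab * (1 / (((∏ l, x l : ℕ) : ℝ) * ((∏ l, z l : ℕ) : ℝ))) else 0 := by
        refine le_trans ?_ (Finset.single_le_sum (f := fun ab : ℕ × ℕ =>
          ∑ x ∈ Fintype.piFinset (fun _ : Fin ab.1 => I),
          ∑ z ∈ Fintype.piFinset (fun _ : Fin ab.2 => I),
          if g = (un q (∏ l, z l))⁻¹ * un q (∏ l, x l) then
            F ab * (1 / (((∏ l, x l : ℕ) : ℝ) * ((∏ l, z l : ℕ) : ℝ))) else 0)
          (fun ab _ => Finset.sum_nonneg fun x _ => Finset.sum_nonneg fun z _ => hnn ab x z) hmem)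
        refine le_trans ?_ (Finset.single_le_sum (f := fun x : Fin ab.1 → ℕ =>
          ∑ z ∈ Fintype.piFinset (fun _ : Fin ab.2 => I),
          if g = (un q (∏ l, z l))⁻¹ * un q (∏ l, x l) then
            F ab * (1 / (((∏ l, x l : ℕ) : ℝ) * ((∏ l, z l : ℕ) : ℝ))) else 0)
          (fun x _ => Finset.sum_nonneg fun z _ => hnn ab x z) hx1)
        exact Finset.single_le_sum (f := fun z : Fin ab.2 → ℕ =>
          if g = (un q (∏ l, z l))⁻¹ * un q (∏ l, x l) then
            F ab * (1 / (((∏ l, x l : ℕ) : ℝ) * ((∏ l, z l : ℕ) : ℝ))) else 0)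
          (fun z _ => hnn ab x z) hz1
      refine le_trans ?_ hsingle
      have hgeq : g = (un q (∏ l, z l))⁻¹ * un q (∏ l, x l) := by
        rw [hx2, hz2, e1]
        unfold ui
        rw [mul_comm g, inv_mul_cancel_left]
      rw [if_pos hgeq, hx2, hz2]
      have hWS0 : 0 ≤ WS q I k k' Y g := by
        unfold WS
        refine Finset.sum_nonneg fun S' _ => Finset.sum_nonneg fun S _ => ?_
        exact mul_nonneg (rs_nonneg _) (mul_nonneg (rs_nonneg _) (CS_nonneg _ _ _))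
      have h9 := pow_le_pow_left₀ hWS0 e2 2
      refine h9.trans (le_of_eq ?_)
      rw [hF]
      simp only [hab2]
      rw [hab]
      simp only
      rw [mul_pow, mul_pow, mul_pow, rs_sq, rs_sq]
      rw [mul_pow, ← one_div_mul_one_div]
      ring
  refine (Finset.sum_le_sum h1).trans ?_
  rw [Finset.sum_comm]
  apply Finset.sum_le_sum
  intro ab _
  rw [Finset.sum_comm]
  unfold coll
  rw [Finset.mul_sum]
  apply Finset.sum_le_sum
  intro x _
  rw [Finset.sum_comm, Finset.mul_sum]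
  apply Finset.sum_le_sum
  intro z _
  have hnn : 0 ≤ F ab * (1 / (((∏ l, x l : ℕ) : ℝ) * ((∏ l, z l : ℕ) : ℝ))) := by
    have := hF0 ab; positivity
  by_cases h : (un q (∏ l, z l))⁻¹ * un q (∏ l, x l) ∈ G
  · rw [if_pos h]
    rw [Finset.sum_ite_eq' (univ.filter (fun g : (ZMod q)ˣ => g ∈ G ∧ g ≠ 1))]
    split_ifs
    · exact le_rfl
    · exact hnn
  · rw [if_neg h, mul_zero]
    apply le_of_eq
    apply Finset.sum_eq_zero
    intro g hg
    rw [if_neg]
    rintro rfl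
    exact h (mem_filter.1 hg).2.1

end Pool.Agent.K4H49.AC
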