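import Mathlib
import Pool.Agent.K4H49.AC.A8

/-! The main term, the mean square of the rest, and the size of the quotient. -/

set_option autoImplicit false

namespace Pool.Agent.K4H49.AC
open Finset Pool.Agent.R311.RES
open scoped Classical

variable {q : ℕ} [Fact q.Prime]

/-- the lower bound for the main term -/
theorem main_low (I : Finset ℕ) (hI : ∀ p ∈ I, p.Prime) (k k' Y : ℕ) (hk : k ≤ k') (hYq : Y < q)
    (hY : ∀ T ⊆ I, T.card = k' - k → ms T ≤ Y) (hk'q : ∀ S ∈ powersetCard k' I, ms S < q) :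
    ((k'.choose k : ℕ) : ℝ) * EE I k' ≤ WS q I k k' Y 1 := by
  unfold WS EE
  rw [Finset.mul_sum]
  apply Finset.sum_le_sum
  intro S' hS'
  have hS'm := mem_powersetCard.1 hS'
  have hp' : ∀ p ∈ S', p.Prime := fun p hp => hI p (hS'm.1 hp)
  have pS' := ms_pos hp'
  have e1 : ((k'.choose k : ℕ) : ℝ) * (1 / (ms S' : ℝ)) = ∑ _S ∈ powersetCard k S', 1 / (ms S' : ℝ) := by
    rw [Finset.sum_const, card_powersetCard, hS'm.2, nsmul_eq_mul]
  rw [e1]
  have e2 : ∑ _S ∈ powersetCard k S', 1 / (ms S' : ℝ) = ∑ S ∈ powersetCard k S',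
      rs (ms S') * (rs (ms S) * CS q I Y (1 * ui q S' * (ui q S)⁻¹)) := by
    apply Finset.sum_congr rfl
    intro S hS
    have hSm := mem_powersetCard.1 hS
    have hp : ∀ p ∈ S, p.Prime := fun p h => hp' p (hSm.1 h)
    have hpd : ∀ p ∈ S' \ S, p.Prime := fun p h => hp' p (mem_sdiff.1 h).1
    have pS := ms_pos hp
    have pd := ms_pos hpd
    have h1 : ms (S' \ S) * ms S = ms S' := by
      rw [← ms_disj sdiff_disjoint, sdiff_union_of_subset hSm.1]
    have hS'q := hk'q S' hS'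
    have hdq : ms (S' \ S) < q := lt_of_le_of_lt (by rw [← h1]; exact Nat.le_mul_of_pos_right _ pS) hS'q
    have hSq : ms S < q := lt_of_le_of_lt (by rw [← h1]; exact Nat.le_mul_of_pos_left _ pd) hS'q
    have h2 : (1 : (ZMod q)ˣ) * ui q S' * (ui q S)⁻¹ = un q (ms (S' \ S)) := by
      unfold ui
      rw [one_mul, ← h1, un_mul (cop_of_lt pd hdq) (cop_of_lt pS hSq), mul_inv_cancel_right]
    have h3 : ((un q (ms (S' \ S)) : (ZMod q)ˣ) : ZMod q).val = ms (S' \ S) := by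
      rw [un_val (cop_of_lt pd hdq), ZMod.val_natCast_of_lt hdq]
    have h4 : CS q I Y (1 * ui q S' * (ui q S)⁻¹) = rs (ms (S' \ S)) := by
      rw [h2]
      unfold CS
      rw [h3, if_pos]
      refine ⟨hY _ (sdiff_subset.trans hS'm.1) ?_, ?_⟩
      · rw [card_sdiff_of_subset hSm.1, hS'm.2, hSm.2]
      · rw [ms_pf hpd]; exact sdiff_subset.trans hS'm.1
    rw [h4, ← rs_mul, mul_comm (ms S), h1, ← rs_sq, sq]
  rw [e2]
  apply Finset.sum_le_sum_of_subset_of_nonneg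
  · exact powersetCard_mono hS'm.1
  · intro S _ _
    exact mul_nonneg (rs_nonneg _) (mul_nonneg (rs_nonneg _) (CS_nonneg _ _ _))

/-- the rest of a single coefficient -/
noncomputable def ee (q Y : ℕ) (u : (ZMod q)ˣ) : ℝ :=
  (if Y < (u : ZMod q).val then ((u : ZMod q).val.divisors.card : ℝ) * rs (u : ZMod q).val else 0) +
    4 * Y * rs q

lemma ee_nonneg (Y : ℕ) (u : (ZMod q)ˣ) : 0 ≤ ee q Y u := by
  unfold ee
  have h1 := rs_nonneg q
  have h2 := rs_nonneg (u : ZMod q).val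
  split_ifs <;> positivity

lemma rest_pointwise (I : Finset ℕ) (hI : ∀ p ∈ I, p.Prime) (k k' Y : ℕ) (hYq : Y < q) (g : (ZMod q)ˣ) :
    ‖WW q I k k' (CC q I Y) g - ((WS q I k k' Y g : ℝ) : ℂ)‖ ≤
      ∑ z ∈ powersetCard k' I ×ˢ powersetCard k I, ee q Y (g * ui q z.1 * (ui q z.2)⁻¹) := by
  have e1 : WW q I k k' (CC q I Y) g - ((WS q I k k' Y g : ℝ) : ℂ) =
      ∑ z ∈ powersetCard k' I ×ˢ powersetCard k I, ((rs (ms z.1) * rs (ms z.2) : ℝ) : ℂ) *
        (CC q I Y (g * ui q z.1 * (ui q z.2)⁻¹) - ((CS q I Y (g * ui q z.1 * (ui q z.2)⁻¹) : ℝ) : ℂ)) := by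
    unfold WW WS
    rw [Finset.sum_product, Complex.ofReal_sum, ← Finset.sum_sub_distrib]
    apply Finset.sum_congr rfl
    intro S' _
    rw [Complex.ofReal_sum, Finset.mul_sum, ← Finset.sum_sub_distrib]
    apply Finset.sum_congr rfl
    intro S _
    push_cast
    ring
  rw [e1]
  refine (norm_sum_le _ _).trans (Finset.sum_le_sum fun z _ => ?_)
  rw [norm_mul, Complex.norm_real, Real.norm_eq_abs, abs_of_nonneg (mul_nonneg (rs_nonneg _) (rs_nonneg _))]
  have h1 := CC_approx I hI Y hYq (g * ui q z.1 * (ui q z.2)⁻¹)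
  have h2 : rs (ms z.1) * rs (ms z.2) ≤ 1 := by
    have := mul_le_mul (rs_le_one (ms z.1)) (rs_le_one (ms z.2)) (rs_nonneg _) zero_le_one
    linarith
  calc _ ≤ 1 * ee q Y (g * ui q z.1 * (ui q z.2)⁻¹) :=
        mul_le_mul h2 h1 (norm_nonneg _) zero_le_one
    _ = _ := one_mul _

/-- the rest on a coset -/
lemma rest_coset (G : Subgroup (ZMod q)ˣ) (Y : ℕ) (E₁ : ℝ)
    (hE : ∀ c : (ZMod q)ˣ, ∑ u ∈ univ.filter (fun u : (ZMod q)ˣ => c⁻¹ * u ∈ G ∧ Y < (u : ZMod q).val),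
        (((u : ZMod q).val.divisors.card : ℝ)) ^ 2 / ((u : ZMod q).val : ℝ) ≤ E₁) (c : (ZMod q)ˣ) :
    ∑ g ∈ univ.filter (fun g : (ZMod q)ˣ => g ∈ G), ee q Y (g * c) ^ 2 ≤
      2 * E₁ + 32 * (Y : ℝ) ^ 2 * (Fintype.card G : ℝ) / q := by
  have e1 : ∑ g ∈ univ.filter (fun g : (ZMod q)ˣ => g ∈ G), ee q Y (g * c) ^ 2 =
      ∑ u ∈ univ.filter (fun u : (ZMod q)ˣ => c⁻¹ * u ∈ G), ee q Y u ^ 2 := by
    refine Finset.sum_bij' (fun g _ => g * c) (fun u _ => u * c⁻¹) ?_ ?_ ?_ ?_ ?_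
    · intro g hg
      rw [mem_filter] at hg ⊢
      refine ⟨mem_univ _, ?_⟩
      rw [mul_comm g, inv_mul_cancel_left]
      exact hg.2
    · intro u hu
      rw [mem_filter] at hu ⊢
      refine ⟨mem_univ _, ?_⟩
      rw [mul_comm]
      exact hu.2
    · intro g _
      simp
    · intro u _
      simp
    · intro g _
      rfl
  rw [e1]
  have e2 : ∀ u ∈ univ.filter (fun u : (ZMod q)ˣ => c⁻¹ * u ∈ G), ee q Y u ^ 2 ≤
      2 * (if Y < (u : ZMod q).val then (((u : ZMod q).val.divisors.card : ℝ)) ^ 2 / ((u : ZMod q).val : ℝ) else 0) +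
        32 * (Y : ℝ) ^ 2 / q := by
    intro u _
    unfold ee
    have h1 : ∀ a b : ℝ, (a + b) ^ 2 ≤ 2 * a ^ 2 + 2 * b ^ 2 := by
      intro a b
      nlinarith [sq_nonneg (a - b)]
    refine (h1 _ _).trans ?_
    have h2 : 2 * (4 * (Y : ℝ) * rs q) ^ 2 = 32 * (Y : ℝ) ^ 2 / q := by
      rw [mul_pow, rs_sq]; ring
    rw [h2]
    split_ifs
    · rw [mul_pow, rs_sq]
      apply le_of_eq; ring
    · apply le_of_eq; ring
  refine (Finset.sum_le_sum e2).trans ?_
  rw [Finset.sum_add_distrib, ← Finset.mul_sum, Finset.sum_const, nsmul_eq_mul]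
  apply add_le_add
  · apply mul_le_mul_of_nonneg_left _ (by norm_num)
    rw [← Finset.sum_filter, Finset.filter_filter]
    exact hE c
  · have h3 : (univ.filter (fun u : (ZMod q)ˣ => c⁻¹ * u ∈ G)).card = Fintype.card G := by
      rw [← Finset.card_univ (α := G)]
      refine Finset.card_bij' (fun u hu => (⟨c⁻¹ * u, (mem_filter.1 hu).2⟩ : G)) (fun g _ => c * (g : (ZMod q)ˣ)) ?_ ?_ ?_ ?_
      · intro u _; exact mem_univ _
      · intro g _
        rw [mem_filter]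
        refine ⟨mem_univ _, ?_⟩
        rw [inv_mul_cancel_left]
        exact g.2
      · intro u _
        simp
      · intro g _
        simp
    rw [h3]
    apply le_of_eq; ring

theorem rest_total (G : Subgroup (ZMod q)ˣ) (I : Finset ℕ) (hI : ∀ p ∈ I, p.Prime) (k k' Y : ℕ) (hYq : Y < q)
    (E₁ N : ℝ) (hN : ((powersetCard k' I ×ˢ powersetCard k I).card : ℝ) ≤ N) (hE0 : 0 ≤ E₁)
    (hE : ∀ c : (ZMod q)ˣ, ∑ u ∈ univ.filter (fun u : (ZMod q)ˣ => c⁻¹ * u ∈ G ∧ Y < (u : ZMod q).val),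
        (((u : ZMod q).val.divisors.card : ℝ)) ^ 2 / ((u : ZMod q).val : ℝ) ≤ E₁) :
    ∑ g ∈ univ.filter (fun g : (ZMod q)ˣ => g ∈ G),
      ‖WW q I k k' (CC q I Y) g - ((WS q I k k' Y g : ℝ) : ℂ)‖ ^ 2 ≤
      N ^ 2 * (2 * E₁ + 32 * (Y : ℝ) ^ 2 * (Fintype.card G : ℝ) / q) := by
  set Z := powersetCard k' I ×ˢ powersetCard k I with hZ
  have hq0 : (0 : ℝ) < q := by exact_mod_cast (Nat.Prime.pos Fact.out : 0 < q)
  have h1 : ∀ g ∈ univ.filter (fun g : (ZMod q)ˣ => g ∈ G),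
      ‖WW q I k k' (CC q I Y) g - ((WS q I k k' Y g : ℝ) : ℂ)‖ ^ 2 ≤
      (Z.card : ℝ) * ∑ z ∈ Z, ee q Y (g * ui q z.1 * (ui q z.2)⁻¹) ^ 2 := by
    intro g _
    refine (pow_le_pow_left₀ (norm_nonneg _) (rest_pointwise I hI k k' Y hYq g) 2).trans ?_
    exact sq_sum_le_card_mul_sum_sq
  refine (Finset.sum_le_sum h1).trans ?_
  rw [← Finset.mul_sum, Finset.sum_comm]
  have h2 : ∀ z ∈ Z, ∑ g ∈ univ.filter (fun g : (ZMod q)ˣ => g ∈ G), ee q Y (g * ui q z.1 * (ui q z.2)⁻¹) ^ 2 ≤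
      2 * E₁ + 32 * (Y : ℝ) ^ 2 * (Fintype.card G : ℝ) / q := by
    intro z _
    simp only [mul_assoc]
    have := rest_coset G Y E₁ hE (ui q z.1 * (ui q z.2)⁻¹)
    simp only [mul_assoc] at this
    exact this
  have h3 := Finset.sum_le_sum h2
  rw [Finset.sum_const, nsmul_eq_mul] at h3
  have h4 : 0 ≤ 2 * E₁ + 32 * (Y : ℝ) ^ 2 * (Fintype.card G : ℝ) / q := by positivity
  have hc0 : (0 : ℝ) ≤ Z.card := Nat.cast_nonneg _
  calc (Z.card : ℝ) * ∑ z ∈ Z, ∑ g ∈ univ.filter (fun g : (ZMod q)ˣ => g ∈ G),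
        ee q Y (g * ui q z.1 * (ui q z.2)⁻¹) ^ 2 ≤
      (Z.card : ℝ) * ((Z.card : ℝ) * (2 * E₁ + 32 * (Y : ℝ) ^ 2 * (Fintype.card G : ℝ) / q)) :=
        mul_le_mul_of_nonneg_left h3 hc0
    _ = (Z.card : ℝ) ^ 2 * (2 * E₁ + 32 * (Y : ℝ) ^ 2 * (Fintype.card G : ℝ) / q) := by ring
    _ ≤ _ := mul_le_mul_of_nonneg_right (pow_le_pow_left₀ hc0 hN 2) h4

/-- the off-diagonal sum, summed up -/
theorem V_final (G : Subgroup (ZMod q)ˣ) (I : Finset ℕ) (y k k' A : ℕ) (hk : k ≤ k') (hk'0 : 0 < k')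
    (hIy : ∀ p ∈ I, y < p) (hy : 36 * k' ≤ y) (hs18 : 1 / 18 ≤ ∑ p ∈ I, 1 / (p : ℝ))
    (r s : ℝ) (hr0 : 0 ≤ r) (hr1 : r ≤ 1)
    (hs1 : 1 ≤ s) (hs : ∑ p ∈ I, 1 / (p : ℝ) ≤ s) (hk'A : k' ≤ A)
    (hQ : ∀ a, 1 ≤ a → a ≤ A → ∀ c : (ZMod q)ˣ, ∑ x ∈ TU q G I a c, 1 / ((∏ l, x l : ℕ) : ℝ) ≤ (r ^ 2) ^ a)
    (hlam : (36 * (k' : ℝ)) ^ 2 * (s * r) ≤ 1 / 4) :
    ∑ z ∈ PP A k', ((((z.1 + (k' - z.2)).choose k : ℕ) : ℝ) * EE I (k' - z.2)) ^ 2 * coll q G I z.1 z.2 ≤
      (((k'.choose k : ℕ) : ℝ) * EE I k') ^ 2 * (4 * ((36 * (k' : ℝ)) ^ 2 * (s * r))) := by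
  set M : ℝ := 36 * (k' : ℝ) with hM
  set t : ℝ := ((k'.choose k : ℕ) : ℝ) * EE I k' with ht
  have hE := EE_nonneg I k'
  have hM0 : 0 ≤ M := by positivity
  have hMk : (k : ℝ) + 1 ≤ M := by
    have h1 : (k : ℝ) ≤ k' := by exact_mod_cast hk
    have h2 : (1 : ℝ) ≤ k' := by exact_mod_cast hk'0
    rw [hM]; linarith
  set lam : ℝ := M ^ 2 * (s * r) with hl
  have hlam0 : 0 ≤ lam := by positivity
  have h1 : ∀ z ∈ PP A k', ((((z.1 + (k' - z.2)).choose k : ℕ) : ℝ) * EE I (k' - z.2)) ^ 2 * coll q G I z.1 z.2 ≤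
      t ^ 2 * (lam ^ z.1 * lam ^ z.2) := by
    rintro ⟨a, b⟩ hz
    rw [PP, mem_filter, mem_product, mem_range, mem_range] at hz
    obtain ⟨⟨ha, hb⟩, hne⟩ := hz
    have ha' : a ≤ A := by have : a < A + 1 := ha; omega
    have hb' : b ≤ k' := by have : b < k' + 1 := hb; omega
    have hab : 1 ≤ a + b := by
      by_contra hcon
      apply hne
      have h3 : a = 0 := by omega
      have h4 : b = 0 := by omega
      rw [h3, h4]
    have e1 := choose_ratio k' k a b hk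
    have e2 := EE_down I y hIy k' hy hk'0 hs18 b hb'
    have e3 := coll_bound G I A r s hr0 hr1 hs1 hs hQ a b ha' (by omega) hab
    have e4 : (((a + (k' - b)).choose k : ℕ) : ℝ) * EE I (k' - b) ≤ t * M ^ (a + b) := by
      calc (((a + (k' - b)).choose k : ℕ) : ℝ) * EE I (k' - b) ≤
          (((k : ℝ) + 1) ^ a * ((k'.choose k : ℕ) : ℝ)) * (M ^ b * EE I k') :=
            mul_le_mul e1 e2 (EE_nonneg I _) (by positivity)
        _ ≤ (M ^ a * ((k'.choose k : ℕ) : ℝ)) * (M ^ b * EE I k') := by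
            apply mul_le_mul_of_nonneg_right _ (by positivity)
            apply mul_le_mul_of_nonneg_right _ (Nat.cast_nonneg _)
            exact pow_le_pow_left₀ (by positivity) hMk a
        _ = t * M ^ (a + b) := by rw [ht, pow_add]; ring
    have e5 : 0 ≤ coll q G I a b := by
      unfold coll
      refine Finset.sum_nonneg fun x _ => Finset.sum_nonneg fun z _ => ?_
      split_ifs <;> positivity
    calc _ ≤ (t * M ^ (a + b)) ^ 2 * (s * r) ^ (a + b) := by
          apply mul_le_mul _ e3 e5 (by positivity)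
          exact pow_le_pow_left₀ (mul_nonneg (Nat.cast_nonneg _) (EE_nonneg I _)) e4 2
      _ = t ^ 2 * lam ^ (a + b) := by
          have hgen : ∀ (t M w : ℝ) (n : ℕ), (t * M ^ n) ^ 2 * w ^ n = t ^ 2 * (M ^ 2 * w) ^ n := by
            intro t M w n
            rw [mul_pow, mul_pow, ← pow_mul, ← pow_mul, mul_comm n 2]
            ring
          rw [hl]
          exact hgen t M (s * r) (a + b)
      _ = _ := by rw [pow_add]
  refine (Finset.sum_le_sum h1).trans ?_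
  rw [← Finset.mul_sum]
  apply mul_le_mul_of_nonneg_left _ (sq_nonneg t)
  have hgeo : ∀ n : ℕ, ∑ i ∈ range n, lam ^ i ≤ 1 / (1 - lam) := by
    intro n
    have hlt : lam < 1 := by linarith
    have h5 : Summable (fun i : ℕ => lam ^ i) := summable_geometric_of_lt_one hlam0 hlt
    have h6 := h5.sum_le_tsum (range n) (fun i _ => by positivity)
    rw [tsum_geometric_of_lt_one hlam0 hlt] at h6
    rw [one_div]; exact h6
  have h7 : ∑ z ∈ PP A k', lam ^ z.1 * lam ^ z.2 =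
      (∑ i ∈ range (A + 1), lam ^ i) * (∑ i ∈ range (k' + 1), lam ^ i) - 1 := by
    rw [Finset.sum_mul_sum, ← Finset.sum_product']
    have h8 : ((0, 0) : ℕ × ℕ) ∈ range (A + 1) ×ˢ range (k' + 1) := by
      rw [mem_product]; simp
    have h9 := Finset.sum_filter_add_sum_filter_not (range (A + 1) ×ˢ range (k' + 1)) (fun z => z ≠ (0, 0))
      (fun z => lam ^ z.1 * lam ^ z.2)
    have h10 : (range (A + 1) ×ˢ range (k' + 1)).filter (fun z => ¬ z ≠ (0, 0)) = {(0, 0)} := by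
      ext z
      simp only [mem_filter, not_not, mem_singleton]
      constructor
      · rintro ⟨_, h⟩; exact h
      · rintro rfl; exact ⟨h8, rfl⟩
    rw [h10, Finset.sum_singleton] at h9
    unfold PP
    simp only [pow_zero, mul_one] at h9
    linarith
  rw [h7]
  have hpos : 0 < 1 - lam := by linarith
  have h11 : (∑ i ∈ range (A + 1), lam ^ i) * (∑ i ∈ range (k' + 1), lam ^ i) ≤
      (1 / (1 - lam)) * (1 / (1 - lam)) :=
    mul_le_mul (hgeo _) (hgeo _) (Finset.sum_nonneg fun _ _ => by positivity) (by positivity)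
  have h12 : (1 / (1 - lam)) * (1 / (1 - lam)) ≤ 1 + 4 * lam := by
    rw [one_div_mul_one_div, div_le_iff₀ (by positivity)]
    nlinarith [mul_nonneg hlam0 hlam0, mul_nonneg hlam0 (sub_nonneg.2 hlam)]
  linarith

/-- the size of the quotient of the main term by the mean of the weight -/
theorem quotient_low (I : Finset ℕ) (y k j : ℕ) (hj : 1 ≤ j) (hjk : 576 * j ^ 2 ≤ k)
    (hIy : ∀ p ∈ I, y < p) (hy : 36 * (k + j) ≤ y) (hs18 : 1 / 18 ≤ ∑ p ∈ I, 1 / (p : ℝ)) :
    0 < EE I (k + j) ∧ 0 < EE I k ∧ (y : ℝ) ^ (-((k + j : ℕ) : ℝ)) ≤ EE I (k + j) ∧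
    Real.exp j * Real.sqrt (EE I k * EE I (k + j)) ≤ (((k + j).choose k : ℕ) : ℝ) * EE I (k + j) := by
  have hk0 : 0 < k := by nlinarith
  have hkj0 : 0 < k + j := by omega
  have hr := EE_ratio I y hIy (k + j) hy hkj0 hs18
  have hkr : (0 : ℝ) < k := by exact_mod_cast hk0
  have hjr : (1 : ℝ) ≤ j := by exact_mod_cast hj
  have hy0 : (0 : ℝ) < y := by exact_mod_cast (by omega : 0 < y)
  have hpos : ∀ r, r ≤ k + j → 0 < EE I r := by
    intro r
    induction r with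
    | zero =>
      intro _
      unfold EE
      rw [powersetCard_zero, Finset.sum_singleton]
      simp [ms]
    | succ r ih =>
      intro h
      have h1 := ih (by omega)
      have h2 := hr r (by omega)
      by_contra hcon
      have h3 : EE I (r + 1) ≤ 0 := not_lt.1 hcon
      have h4 : 36 * ((k + j : ℕ) : ℝ) * EE I (r + 1) ≤ 0 :=
        mul_nonpos_of_nonneg_of_nonpos (by positivity) h3
      linarith
  have hEk' := hpos (k + j) le_rfl
  have hEk := hpos k (by omega)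
  have hdown := EE_down I y hIy (k + j) hy hkj0 hs18
  refine ⟨hEk', hEk, ?_, ?_⟩
  · have h1 := hdown (k + j) le_rfl
    rw [Nat.sub_self] at h1
    have h2 : EE I 0 = 1 := by
      unfold EE
      rw [powersetCard_zero, Finset.sum_singleton]
      simp [ms]
    rw [h2] at h1
    have h3 : (36 * ((k + j : ℕ) : ℝ)) ^ (k + j) ≤ (y : ℝ) ^ (k + j) :=
      pow_le_pow_left₀ (by positivity) (by exact_mod_cast hy) _
    rw [Real.rpow_neg hy0.le, Real.rpow_natCast, inv_le_iff_one_le_mul₀ (by positivity), mul_comm]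
    exact h1.trans (mul_le_mul_of_nonneg_right h3 hEk'.le)
  · have h1 := hdown j (by omega)
    rw [Nat.add_sub_cancel] at h1
    -- the binomial coefficient
    have h2 : ((k : ℝ) / j) ^ j ≤ (((k + j).choose k : ℕ) : ℝ) := by
      have h3 := Nat.pow_le_choose (α := ℝ) j (k + j)
      rw [show k + j + 1 - j = k + 1 by omega] at h3
      rw [Nat.choose_symm_add]
      refine le_trans ?_ h3
      rw [div_pow]
      apply div_le_div₀ (by positivity)
      · apply pow_le_pow_left₀ (by positivity)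
        push_cast
        linarith
      · exact_mod_cast Nat.factorial_pos j
      · exact_mod_cast Nat.factorial_le_pow j
    have h4 : Real.sqrt (EE I k * EE I (k + j)) ≤ Real.sqrt ((36 * ((k + j : ℕ) : ℝ)) ^ j) * EE I (k + j) := by
      have h5 : EE I k * EE I (k + j) ≤ (36 * ((k + j : ℕ) : ℝ)) ^ j * EE I (k + j) ^ 2 := by
        calc EE I k * EE I (k + j) ≤ ((36 * ((k + j : ℕ) : ℝ)) ^ j * EE I (k + j)) * EE I (k + j) :=
              mul_le_mul_of_nonneg_right h1 hEk'.le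
          _ = _ := by ring
      refine (Real.sqrt_le_sqrt h5).trans (le_of_eq ?_)
      rw [Real.sqrt_mul (by positivity), Real.sqrt_sq hEk'.le]
    have h6 : Real.exp j * Real.sqrt ((36 * ((k + j : ℕ) : ℝ)) ^ j) ≤ ((k : ℝ) / j) ^ j := by
      have h7 : Real.sqrt ((36 * ((k + j : ℕ) : ℝ)) ^ j) = (Real.sqrt (36 * ((k + j : ℕ) : ℝ))) ^ j := by
        rw [Real.sqrt_eq_rpow, Real.sqrt_eq_rpow, ← Real.rpow_natCast, ← Real.rpow_natCast,
          ← Real.rpow_mul (by positivity), ← Real.rpow_mul (by positivity), mul_comm (j : ℝ)]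
      have h8 : Real.exp j = (Real.exp 1) ^ j := by
        rw [← Real.exp_nat_mul, mul_one]
      rw [h7, h8, ← mul_pow]
      apply pow_le_pow_left₀ (by positivity)
      rw [le_div_iff₀ (by linarith)]
      have h9 : Real.sqrt (36 * ((k + j : ℕ) : ℝ)) * (Real.exp 1 * j) ≤ k := by
        have h10 : (Real.sqrt (36 * ((k + j : ℕ) : ℝ)) * (Real.exp 1 * j)) ^ 2 ≤ (k : ℝ) ^ 2 := by
          rw [mul_pow, Real.sq_sqrt (by positivity)]
          have h11 : Real.exp 1 < 2.7182818286 := Real.exp_one_lt_d9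
          have h12 : Real.exp 1 ^ 2 ≤ 8 := by
            have := Real.exp_pos 1
            nlinarith
          have h13 : (576 : ℝ) * j ^ 2 ≤ k := by exact_mod_cast hjk
          have h14 : (j : ℝ) ≤ k := by nlinarith
          push_cast
          calc 36 * ((k : ℝ) + j) * (Real.exp 1 * j) ^ 2 = 36 * ((k : ℝ) + j) * (Real.exp 1 ^ 2 * j ^ 2) := by ring
            _ ≤ 36 * ((k : ℝ) + k) * (8 * j ^ 2) := by
                apply mul_le_mul _ _ (by positivity) (by positivity)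
                · linarith
                · exact mul_le_mul_of_nonneg_right h12 (by positivity)
            _ = k * (576 * j ^ 2) := by ring
            _ ≤ k * k := mul_le_mul_of_nonneg_left h13 hkr.le
            _ = _ := by ring
        exact le_of_pow_le_pow_left₀ (by norm_num) hkr.le h10
      calc Real.exp 1 * Real.sqrt (36 * ((k + j : ℕ) : ℝ)) * j = Real.sqrt (36 * ((k + j : ℕ) : ℝ)) * (Real.exp 1 * j) := by ring
        _ ≤ _ := h9
    calc Real.exp j * Real.sqrt (EE I k * EE I (k + j)) ≤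
        Real.exp j * (Real.sqrt ((36 * ((k + j : ℕ) : ℝ)) ^ j) * EE I (k + j)) :=
          mul_le_mul_of_nonneg_left h4 (Real.exp_pos _).le
      _ = (Real.exp j * Real.sqrt ((36 * ((k + j : ℕ) : ℝ)) ^ j)) * EE I (k + j) := by ring
      _ ≤ (((k + j).choose k : ℕ) : ℝ) * EE I (k + j) :=
          mul_le_mul_of_nonneg_right (h6.trans h2) hEk'.le

end Pool.Agent.K4H49.AC
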