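import Mathlib
import Pool.Agent.K4H49.AC.A9

/-! The count of the bad cosets, for given parameters. -/

set_option autoImplicit false

namespace Pool.Agent.K4H49.AC
open Finset Pool.Agent.R311.RES
open scoped Classical

variable {q : ℕ} [Fact q.Prime]

theorem finite_main (H : Subgroup (DirichletCharacter ℂ q)) (I : Finset ℕ) (y k j Y : ℕ)
    (hI : ∀ p ∈ I, p.Prime ∧ y < p ∧ p ≤ y ^ 2 ∧ p < q) (hy3 : 3 ≤ y) (hj : 1 ≤ j) (hjk : 576 * j ^ 2 ≤ k)
    (hy : 36 * (k + j) ≤ y) (hs18 : 1 / 18 ≤ ∑ p ∈ I, 1 / (p : ℝ))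
    (hY : y ^ (2 * j) ≤ Y) (hsize : Y * y ^ (2 * k) * y ^ (2 * (k + j)) < q)
    (r s Λ E₁ D : ℝ) (hr0 : 0 ≤ r) (hr1 : r ≤ 1) (hs1 : 1 ≤ s) (hs : ∑ p ∈ I, 1 / (p : ℝ) ≤ s)
    (hQ : ∀ a, 1 ≤ a → y ^ a ≤ q → ∀ c : (ZMod q)ˣ,
      ∑ x ∈ TU q (ann H) I a c, 1 / ((∏ l, x l : ℕ) : ℝ) ≤ (r ^ 2) ^ a)
    (hΛ : ∑ a ∈ Icc 1 Y, 1 / (a : ℝ) ≤ Λ) (hΛ0 : 0 < Λ) (hE0 : 0 ≤ E₁)
    (hE : ∀ c : (ZMod q)ˣ, ∑ u ∈ univ.filter (fun u : (ZMod q)ˣ => c⁻¹ * u ∈ ann H ∧ Y < (u : ZMod q).val),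
        (((u : ZMod q).val.divisors.card : ℝ)) ^ 2 / ((u : ZMod q).val : ℝ) ≤ E₁)
    (hD : 1 ≤ D) (hlam : (36 * ((k + j : ℕ) : ℝ)) ^ 2 * (s * r) ≤ 1 / (128 * D))
    (herr : 32 * D * (y : ℝ) ^ (10 * (k + j)) *
      (2 * E₁ + 32 * (Y : ℝ) ^ 2 * (Fintype.card (ann H) : ℝ) / q) ≤ 1) :
    ((univ.filter (fun χ₀ : DirichletCharacter ℂ q => ∀ ψ ∈ H,
      ‖DirichletCharacter.LFunction (χ₀ * ψ) (1 / 2)‖ < Real.exp j / (4 * D * Real.sqrt Λ))).card : ℝ) ≤
      ((q : ℝ) - 1) / D := by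
  have hqp : q.Prime := Fact.out
  have hIp : ∀ p ∈ I, p.Prime := fun p hp => (hI p hp).1
  have hIy : ∀ p ∈ I, y < p := fun p hp => (hI p hp).2.1
  have hk'0 : 0 < k + j := by omega
  have hy0 : 0 < y := by omega
  have hyr : (1 : ℝ) ≤ y := by exact_mod_cast hy0
  have hyr0 : (0 : ℝ) < y := by linarith
  have hD0 : 0 < D := by linarith
  obtain ⟨Epos', Epos, Elow, Equo⟩ := quotient_low I y k j hj hjk hIy hy hs18
  -- sizes
  have hms : ∀ r : ℕ, ∀ S ∈ powersetCard r I, ms S ≤ y ^ (2 * r) := by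
    intro r S hS
    rw [mem_powersetCard] at hS
    rw [pow_mul, ← hS.2, ← Finset.prod_const]
    exact Finset.prod_le_prod' fun p hp => (hI p (hS.1 hp)).2.2.1
  have hp2k : 0 < y ^ (2 * k) := Nat.pow_pos hy0
  have hp2k' : 0 < y ^ (2 * (k + j)) := Nat.pow_pos hy0
  have hYpos : 0 < Y := lt_of_lt_of_le (Nat.pow_pos hy0) hY
  have hY2k : Y * y ^ (2 * k) < q := lt_of_le_of_lt (Nat.le_mul_of_pos_right _ hp2k') hsize
  have hYq : Y < q := lt_of_le_of_lt (Nat.le_mul_of_pos_right _ hp2k) hY2k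
  have hk'q : y ^ (2 * (k + j)) < q := by
    refine lt_of_le_of_lt ?_ hsize
    exact Nat.le_mul_of_pos_left _ (Nat.mul_pos hYpos hp2k)
  set t₁ : ℝ := WS q I k (k + j) Y 1 with ht₁
  set t₀ : ℝ := (((k + j).choose k : ℕ) : ℝ) * EE I (k + j) with ht₀
  have hC1 : (1 : ℝ) ≤ (((k + j).choose k : ℕ) : ℝ) := by
    exact_mod_cast Nat.choose_pos (by omega : k ≤ k + j)
  have ht₀0 : 0 < t₀ := by positivity
  have ht01 : t₀ ≤ t₁ := by
    refine main_low I hIp k (k + j) Y (by omega) hYq ?_ ?_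
    · intro T hT hTc
      rw [Nat.add_sub_cancel_left] at hTc
      exact (hms j T (mem_powersetCard.2 ⟨hT, hTc⟩)).trans hY
    · intro S hS
      exact lt_of_le_of_lt (hms _ S hS) hk'q
  have ht₁0 : 0 < t₁ := lt_of_lt_of_le ht₀0 ht01
  have hsqΛ : 0 < Real.sqrt Λ := Real.sqrt_pos.2 hΛ0
  have hBpos : 0 < Real.sqrt (Λ * EE I k * EE I (k + j)) := Real.sqrt_pos.2 (by positivity)
  refine bad_count H (WW q I k (k + j) (CC q I Y)) (fun χ => DirichletCharacter.LFunction χ (1 / 2))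
    (fun χ => MM q I Y χ * RR q I k χ) (fun χ => RR q I (k + j) χ) t₁
    (Real.sqrt (Λ * EE I k * EE I (k + j))) _ D ht₁0 (by positivity) hD0 hBpos ?_ ?_ ?_ ?_
  · -- the value
    have e1 : Real.sqrt (Λ * EE I k * EE I (k + j)) = Real.sqrt Λ * Real.sqrt (EE I k * EE I (k + j)) := by
      rw [mul_assoc, Real.sqrt_mul hΛ0.le]
    rw [e1]
    have e2 : Real.exp j / (4 * D * Real.sqrt Λ) * (2 * D * (Real.sqrt Λ * Real.sqrt (EE I k * EE I (k + j)))) =
        (Real.exp j * Real.sqrt (EE I k * EE I (k + j))) / 2 := by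
      field_simp
      ring
    rw [e2]
    linarith
  · intro χ
    exact product_eq I k (k + j) Y χ
  · exact den_bound I hIp k (k + j) Y hYpos
      (fun S hS => lt_of_le_of_lt (Nat.mul_le_mul_left _ (hms k S hS)) hY2k)
      (fun S hS => lt_of_le_of_lt (hms _ S hS) hk'q) Λ hΛ
  · -- the variance
    set A := Nat.log y q with hA
    have hyA : ∀ a, a ≤ A → y ^ a ≤ q := by
      intro a ha
      exact (Nat.pow_le_pow_right hy0 ha).trans (Nat.pow_log_le_self y hqp.pos.ne')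
    have hAy : ∀ a, y ^ a ≤ q → a ≤ A := by
      intro a ha
      exact (Nat.le_log_iff_pow_le (by omega) hqp.pos.ne').2 ha
    have hk'A : k + j ≤ A := by
      apply hAy
      refine le_trans ?_ hk'q.le
      exact Nat.pow_le_pow_right hy0 (by omega)
    have hsmooth : ∀ u : ℕ, 0 < u → u ≤ Y * y ^ (2 * k) → u.primeFactors ⊆ I →
        ArithmeticFunction.cardFactors u ≤ A := by
      intro u hu huY huI
      apply hAy
      refine le_trans ?_ (huY.trans hY2k.le)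
      obtain ⟨x, hx1, hx2⟩ := tuple_of_smooth I hu huI
      rw [Fintype.mem_piFinset] at hx1
      calc y ^ (ArithmeticFunction.cardFactors u) = ∏ _l : Fin (ArithmeticFunction.cardFactors u), y := by
            rw [Finset.prod_const, card_univ, Fintype.card_fin]
        _ ≤ ∏ l, x l := Finset.prod_le_prod' fun l _ => (hIy _ (hx1 l)).le
        _ = u := hx2
    have hV := (V_sum (ann H) I hIp k (k + j) Y (y ^ (2 * k)) (y ^ (2 * (k + j))) (hms k) (hms (k + j))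
      hsize A hsmooth).trans (V_final (ann H) I y k (k + j) A (by omega) hk'0 hIy hy hs18 r s hr0 hr1 hs1 hs hk'A
        (fun a ha haA => hQ a ha (hyA a haA)) (by
          refine hlam.trans ?_
          rw [div_le_div_iff₀ (by positivity) (by norm_num)]
          linarith))
    have hcardI : I.card ≤ y ^ 2 := by
      have : I ⊆ Icc 1 (y ^ 2) := by
        intro p hp
        rw [mem_Icc]
        exact ⟨(hIp p hp).one_lt.le, (hI p hp).2.2.1⟩
      have := card_le_card this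
      rwa [Nat.card_Icc, Nat.add_sub_cancel] at this
    have hN : ((powersetCard (k + j) I ×ˢ powersetCard k I).card : ℝ) ≤ (y : ℝ) ^ (4 * (k + j)) := by
      rw [card_product, card_powersetCard, card_powersetCard]
      have h1 : ∀ r : ℕ, I.card.choose r ≤ y ^ (2 * r) := by
        intro r
        refine (Nat.choose_le_pow _ _).trans ?_
        rw [pow_mul]
        exact Nat.pow_le_pow_left hcardI r
      have h2 : I.card.choose (k + j) * I.card.choose k ≤ y ^ (4 * (k + j)) := by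
        calc I.card.choose (k + j) * I.card.choose k ≤ y ^ (2 * (k + j)) * y ^ (2 * k) := Nat.mul_le_mul (h1 _) (h1 _)
          _ = y ^ (2 * (k + j) + 2 * k) := (pow_add _ _ _).symm
          _ ≤ _ := Nat.pow_le_pow_right hy0 (by omega)
      exact_mod_cast h2
    have hR := rest_total (ann H) I hIp k (k + j) Y hYq E₁ _ hN hE0 hE
    have hsplit : ∑ g ∈ univ.filter (fun g : (ZMod q)ˣ => g ∈ ann H),
        ‖WW q I k (k + j) (CC q I Y) g - (if g = 1 then (t₁ : ℂ) else 0)‖ ^ 2 ≤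
        2 * ∑ g ∈ univ.filter (fun g : (ZMod q)ˣ => g ∈ ann H),
          ‖WW q I k (k + j) (CC q I Y) g - ((WS q I k (k + j) Y g : ℝ) : ℂ)‖ ^ 2 +
        2 * ∑ g ∈ univ.filter (fun g : (ZMod q)ˣ => g ∈ ann H ∧ g ≠ 1), WS q I k (k + j) Y g ^ 2 := by
      have h1 : ∑ g ∈ univ.filter (fun g : (ZMod q)ˣ => g ∈ ann H ∧ g ≠ 1), WS q I k (k + j) Y g ^ 2 =
          ∑ g ∈ univ.filter (fun g : (ZMod q)ˣ => g ∈ ann H),
            (if g ≠ 1 then WS q I k (k + j) Y g ^ 2 else 0) := by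
        rw [← Finset.sum_filter, Finset.filter_filter]
      rw [h1, Finset.mul_sum, Finset.mul_sum, ← Finset.sum_add_distrib]
      apply Finset.sum_le_sum
      intro g _
      have h2 : ∀ a b : ℝ, 0 ≤ a → 0 ≤ b → (a + b) ^ 2 ≤ 2 * a ^ 2 + 2 * b ^ 2 := by
        intro a b _ _
        nlinarith [sq_nonneg (a - b)]
      by_cases hg : g = 1
      · rw [if_pos hg, if_neg (fun h => h hg), hg]
        have : 0 ≤ ‖WW q I k (k + j) (CC q I Y) 1 - (t₁ : ℂ)‖ ^ 2 := by positivity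
        rw [← ht₁]
        linarith
      · rw [if_neg hg, if_pos hg, sub_zero]
        have h3 : ‖WW q I k (k + j) (CC q I Y) g‖ ≤
            ‖WW q I k (k + j) (CC q I Y) g - ((WS q I k (k + j) Y g : ℝ) : ℂ)‖ + |WS q I k (k + j) Y g| := by
          have := norm_add_le (WW q I k (k + j) (CC q I Y) g - ((WS q I k (k + j) Y g : ℝ) : ℂ))
            ((WS q I k (k + j) Y g : ℝ) : ℂ)
          rw [sub_add_cancel, Complex.norm_real, Real.norm_eq_abs] at this
          exact this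
        refine (pow_le_pow_left₀ (norm_nonneg _) h3 2).trans ?_
        refine (h2 _ _ (norm_nonneg _) (abs_nonneg _)).trans ?_
        rw [sq_abs]
    refine hsplit.trans ?_
    have f1 : 2 * ∑ g ∈ univ.filter (fun g : (ZMod q)ˣ => g ∈ ann H ∧ g ≠ 1), WS q I k (k + j) Y g ^ 2 ≤
        t₁ ^ 2 / (16 * D) := by
      have g1 : t₀ ^ 2 ≤ t₁ ^ 2 := pow_le_pow_left₀ ht₀0.le ht01 2
      have g2 : t₀ ^ 2 * (4 * ((36 * ((k + j : ℕ) : ℝ)) ^ 2 * (s * r))) ≤ t₁ ^ 2 * (4 * (1 / (128 * D))) := by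
        apply mul_le_mul g1 _ (by positivity) (by positivity)
        linarith
      have g3 : t₁ ^ 2 * (4 * (1 / (128 * D))) * 2 = t₁ ^ 2 / (16 * D) := by
        field_simp; ring
      rw [← g3]
      linarith
    have f2 : 2 * ∑ g ∈ univ.filter (fun g : (ZMod q)ˣ => g ∈ ann H),
          ‖WW q I k (k + j) (CC q I Y) g - ((WS q I k (k + j) Y g : ℝ) : ℂ)‖ ^ 2 ≤ t₁ ^ 2 / (16 * D) := by
      set X : ℝ := 2 * E₁ + 32 * (Y : ℝ) ^ 2 * (Fintype.card (ann H) : ℝ) / q with hX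
      have hX0 : 0 ≤ X := by positivity
      have g1 : (y : ℝ) ^ (-((k + j : ℕ) : ℝ)) ≤ t₁ := by
        refine Elow.trans (le_trans ?_ ht01)
        calc EE I (k + j) = 1 * EE I (k + j) := (one_mul _).symm
          _ ≤ t₀ := mul_le_mul_of_nonneg_right hC1 Epos'.le
      have g2 : ((y : ℝ) ^ (2 * (k + j)))⁻¹ ≤ t₁ ^ 2 := by
        have h1 := pow_le_pow_left₀ (by positivity) g1 2
        have h2 : ((y : ℝ) ^ (-((k + j : ℕ) : ℝ))) ^ 2 = ((y : ℝ) ^ (2 * (k + j)))⁻¹ := by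
          rw [Real.rpow_neg hyr0.le, Real.rpow_natCast, inv_pow, ← pow_mul, mul_comm (k + j) 2]
        rw [h2] at h1
        exact h1
      rw [le_div_iff₀ (by positivity)]
      have g3 : 32 * D * (y : ℝ) ^ (8 * (k + j)) * X ≤ ((y : ℝ) ^ (2 * (k + j)))⁻¹ := by
        have hpos : 0 < (y : ℝ) ^ (2 * (k + j)) := by positivity
        rw [← one_div, le_div_iff₀ hpos]
        calc 32 * D * (y : ℝ) ^ (8 * (k + j)) * X * (y : ℝ) ^ (2 * (k + j)) =
            32 * D * ((y : ℝ) ^ (8 * (k + j)) * (y : ℝ) ^ (2 * (k + j))) * X := by ring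
          _ = 32 * D * (y : ℝ) ^ (10 * (k + j)) * X := by
              rw [← pow_add]; congr 3; ring
          _ ≤ 1 := herr
      have g4 : ((y : ℝ) ^ (4 * (k + j))) ^ 2 = (y : ℝ) ^ (8 * (k + j)) := by
        rw [← pow_mul]; congr 1; ring
      rw [g4] at hR
      calc _ ≤ 2 * ((y : ℝ) ^ (8 * (k + j)) * X) * (16 * D) := by
            apply mul_le_mul_of_nonneg_right _ (by positivity)
            exact mul_le_mul_of_nonneg_left hR (by norm_num)
        _ = 32 * D * (y : ℝ) ^ (8 * (k + j)) * X := by ring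
        _ ≤ t₁ ^ 2 := g3.trans g2
    have f3 : t₁ ^ 2 / (8 * D) = t₁ ^ 2 / (16 * D) + t₁ ^ 2 / (16 * D) := by
      field_simp; ring
    rw [f3]
    exact add_le_add f2 f1

end Pool.Agent.K4H49.AC
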