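import Mathlib
import Pool.Agent.K4H49.AC.A10
import Pool.Agent.H17HN.Smooth

/-! The choice of the parameters. -/

set_option autoImplicit false

namespace Pool.Agent.K4H49.AC
open Finset Pool.Agent.R311.RES Filter Topology
open scoped Classical

/-- the conditions on `x = log q` -/
structure Big (κ ε₁ θ c₂ x : ℝ) : Prop where
  x1 : 1024 ≤ x
  m : 4608 / c₂ ≤ x ^ (2 / 3 : ℝ)
  two : Real.log 2 ≤ (κ / 8 - θ) * x
  four : Real.log 4 ≤ κ / 8 * x
  err : Real.log 1088 + x ^ (1 / 3 : ℝ) ≤ 3 / 8 * ε₁ * x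

lemma big_ev (κ ε₁ θ c₂ : ℝ) (hκ : 0 < κ) (hε₁ : 0 < ε₁) (hθ : θ < κ / 8) :
    ∀ᶠ x : ℝ in atTop, Big κ ε₁ θ c₂ x := by
  have h1 : Tendsto (fun x : ℝ => x ^ (2 / 3 : ℝ)) atTop atTop := tendsto_rpow_atTop (by norm_num)
  have h2 : Tendsto (fun x : ℝ => (κ / 8 - θ) * x) atTop atTop :=
    Tendsto.const_mul_atTop (by linarith) tendsto_id
  have h3 : Tendsto (fun x : ℝ => κ / 8 * x) atTop atTop := Tendsto.const_mul_atTop (by linarith) tendsto_id
  have h4 : Tendsto (fun x : ℝ => 3 / 16 * ε₁ * x) atTop atTop := Tendsto.const_mul_atTop (by positivity) tendsto_id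
  have h5 : Tendsto (fun x : ℝ => 3 / 16 * ε₁ * x ^ (2 / 3 : ℝ)) atTop atTop :=
    Tendsto.const_mul_atTop (by positivity) h1
  filter_upwards [eventually_ge_atTop (1024 : ℝ), h1.eventually_ge_atTop (4608 / c₂),
    h2.eventually_ge_atTop (Real.log 2), h3.eventually_ge_atTop (Real.log 4),
    h4.eventually_ge_atTop (Real.log 1088), h5.eventually_ge_atTop 1] with x a1 a2 a3 a4 a5 a6
  refine ⟨a1, a2, a3, a4, ?_⟩
  have hx : 0 < x := by linarith
  have e : x = x ^ (1 / 3 : ℝ) * x ^ (2 / 3 : ℝ) := by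
    rw [← Real.rpow_add hx]; norm_num
  have h6 : x ^ (1 / 3 : ℝ) ≤ 3 / 16 * ε₁ * x := by
    have h7 : 0 < x ^ (1 / 3 : ℝ) := Real.rpow_pos_of_pos hx _
    calc x ^ (1 / 3 : ℝ) = x ^ (1 / 3 : ℝ) * 1 := (mul_one _).symm
      _ ≤ x ^ (1 / 3 : ℝ) * (3 / 16 * ε₁ * x ^ (2 / 3 : ℝ)) := mul_le_mul_of_nonneg_left a6 h7.le
      _ = 3 / 16 * ε₁ * (x ^ (1 / 3 : ℝ) * x ^ (2 / 3 : ℝ)) := by ring
      _ = _ := by rw [← e]
  linarith

lemma aux_exp2 : Real.exp 2 ≤ 8 := by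
  have h1 : Real.exp 2 = Real.exp 1 ^ 2 := by rw [← Real.exp_nat_mul]; norm_num
  have h2 := Real.exp_one_lt_d9
  have h3 := Real.exp_pos 1
  rw [h1]; nlinarith

lemma aux_pow {m : ℝ} {n : ℝ} (h : m ≤ n) (hm : 0 ≤ m) : m ^ 2 ≤ n ^ 2 := pow_le_pow_left₀ hm h 2

lemma aux_jk {j k : ℕ} (hj : 1 ≤ j) (h : 576 * j ^ 2 ≤ k) : 2 * j ≤ k := by nlinarith

lemma aux_lam1 {D x : ℝ} (hx : 1024 ≤ x) (hD : x ≤ D) : 31104 / (D ^ 5 * x) ≤ 1 / (128 * D) := by
  have hD0 : 0 < D := by linarith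
  have hx0 : 0 < x := by linarith
  rw [div_le_div_iff₀ (by positivity) (by positivity)]
  have h6 : (1024 : ℝ) ≤ D := by linarith
  have h7 : (1024 : ℝ) ^ 3 ≤ D ^ 3 := pow_le_pow_left₀ (by norm_num) h6 3
  have h8 : (31104 : ℝ) * 128 ≤ D ^ 3 := by linarith
  have h9 : D ^ 3 * D ≤ D ^ 5 := by
    have h10 : D ^ 5 = D ^ 3 * D * D := by ring
    rw [h10]
    exact le_mul_of_one_le_right (by positivity) (by linarith)
  calc (31104 : ℝ) * (128 * D) = (31104 * 128) * D := by ring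
    _ ≤ D ^ 3 * D := mul_le_mul_of_nonneg_right h8 hD0.le
    _ ≤ D ^ 5 := h9
    _ ≤ D ^ 5 * x := le_mul_of_one_le_right (by positivity) (by linarith)
    _ = 1 * (D ^ 5 * x) := (one_mul _).symm

lemma aux_lam2 {D x : ℝ} (hx : 0 < x) (hD : 0 < D) :
    (72 * x) ^ 2 * ((3 * x) * (2 * x * (1 / (D ^ 5 * x ^ 5)))) = 31104 / (D ^ 5 * x) := by
  field_simp; ring

lemma aux_r1 {D x : ℝ} (hx : 1024 ≤ x) (hD : x ≤ D) : 2 * x * (1 / (D ^ 5 * x ^ 5)) ≤ 1 := by
  have hD0 : 0 < D := by linarith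
  have hx0 : 0 < x := by linarith
  have h1 : 2 * x * (1 / (D ^ 5 * x ^ 5)) = 2 / (D ^ 5 * x ^ 4) := by field_simp
  rw [h1, div_le_one (by positivity)]
  have h2 : 1 ≤ D ^ 5 := one_le_pow₀ (by linarith)
  have h3 : 2 ≤ x ^ 4 := by
    have := pow_le_pow_left₀ (by norm_num : (0:ℝ) ≤ 1024) hx 4
    linarith
  calc (2 : ℝ) ≤ x ^ 4 := h3
    _ = 1 * x ^ 4 := (one_mul _).symm
    _ ≤ D ^ 5 * x ^ 4 := mul_le_mul_of_nonneg_right h2 (by positivity)

lemma aux_val {D x : ℝ} (hx : 1024 ≤ x) (hD : x ≤ D) : 4 * D * Real.sqrt (1 + x) ≤ D ^ 3 := by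
  have hD0 : 0 < D := by linarith
  have hx0 : 0 < x := by linarith
  have h2 : Real.sqrt (1 + x) ≤ x := by
    rw [Real.sqrt_le_left hx0.le]; nlinarith
  have h3 : 4 * x ≤ D ^ 2 := by nlinarith
  calc 4 * D * Real.sqrt (1 + x) ≤ 4 * D * x := mul_le_mul_of_nonneg_left h2 (by positivity)
    _ = D * (4 * x) := by ring
    _ ≤ D * D ^ 2 := mul_le_mul_of_nonneg_left h3 hD0.le
    _ = _ := by ring

lemma aux_fin {L x c c₃ : ℝ} (hL : 0 < L) (hx : 0 < x) (hc0 : 0 < c) (hc1 : c ≤ 1) (hcc : c ≤ c₃ / 6)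
    (h : L ≤ c * x ^ (1 / 3 : ℝ)) : 3 * L ≤ c₃ / 2 * Real.sqrt (x / L) := by
  have hc₃ : 0 < c₃ := by linarith
  have h6 : (3 * L) ^ 2 ≤ (c₃ / 2 * Real.sqrt (x / L)) ^ 2 := by
    rw [mul_pow (c₃ / 2), Real.sq_sqrt (by positivity)]
    have h7 : L ^ 3 ≤ c ^ 3 * x := by
      have h8 := pow_le_pow_left₀ hL.le h 3
      have h9 : (c * x ^ (1 / 3 : ℝ)) ^ 3 = c ^ 3 * x := by
        rw [mul_pow, ← Real.rpow_natCast (x ^ (1 / 3 : ℝ)) 3, ← Real.rpow_mul hx.le]
        norm_num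
      rw [h9] at h8
      exact h8
    have h10 : c ^ 3 ≤ (c₃ / 6) ^ 2 := by
      have h11 : c ^ 3 ≤ c ^ 2 := pow_le_pow_of_le_one hc0.le hc1 (by norm_num)
      exact h11.trans (pow_le_pow_left₀ hc0.le hcc 2)
    have h12 : L ^ 3 ≤ (c₃ / 6) ^ 2 * x := h7.trans (mul_le_mul_of_nonneg_right h10 hx.le)
    rw [← mul_div_assoc, le_div_iff₀ hL]
    nlinarith
  exact le_of_pow_le_pow_left₀ (by norm_num) (by positivity) h6

lemma aux_rsq {x E F : ℝ} (hx : 1 ≤ x) (hF : F ≤ E ^ 2) (hF0 : 0 ≤ F) : 4 * x * F ≤ (2 * x * E) ^ 2 := by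
  have h1 : (2 * x * E) ^ 2 = 4 * x ^ 2 * E ^ 2 := by ring
  rw [h1]
  apply mul_le_mul _ hF hF0 (by positivity)
  nlinarith

theorem core (κ : ℝ) (hκ : 0 < κ) (hκ1 : κ ≤ 1) : ∃ c : ℝ, 0 < c ∧ c ≤ 1 ∧ ∃ q₀ : ℕ, ∀ (q : ℕ) [Fact q.Prime],
    q₀ ≤ q → ∀ H : Subgroup (DirichletCharacter ℂ q), (Fintype.card (ann H) : ℝ) ≤ (q : ℝ) ^ (1 - κ) →
      ∀ D : ℝ, Real.log q ≤ D → Real.log D ≤ c * Real.log q ^ (1 / 3 : ℝ) →
        ((univ.filter (fun χ₀ : DirichletCharacter ℂ q => ∀ ψ ∈ H,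
          ‖DirichletCharacter.LFunction (χ₀ * ψ) (1 / 2)‖ <
            Real.exp (c * Real.sqrt (Real.log q / Real.log D)))).card : ℝ) ≤ ((q : ℝ) - 1) / D := by
  obtain ⟨ε₁, hε₁, hε₁κ, q₁, hint⟩ := few_int κ (κ / 8) hκ (by positivity)
  obtain ⟨q₂, hsm⟩ := few_smooth κ hκ
  set C₁ : ℝ := 40 / κ with hC₁
  have hC₁0 : 0 < C₁ := by positivity
  have hC₁40 : 40 ≤ C₁ := by
    rw [hC₁, le_div_iff₀ hκ]; linarith
  set θ : ℝ := ε₁ / 40 with hθ
  have hθ0 : 0 < θ := by positivity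
  have hθκ : θ ≤ κ / 40 := by rw [hθ]; linarith
  have hθ1 : θ ≤ 1 := by linarith
  set c₂ : ℝ := θ / (3 * C₁) with hc₂
  have hc₂0 : 0 < c₂ := by positivity
  set c₃ : ℝ := Real.sqrt (c₂ / 2) / 48 with hc₃
  have hc₃0 : 0 < c₃ := by positivity
  set c : ℝ := min 1 (c₃ / 6) with hc
  have hc0 : 0 < c := lt_min (by norm_num) (by positivity)
  have hc1 : c ≤ 1 := min_le_left _ _
  have hcc₃ : c ≤ c₃ / 6 := min_le_right _ _
  have hev := (Real.tendsto_log_atTop.comp tendsto_natCast_atTop_atTop).eventually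
    (big_ev κ ε₁ θ c₂ hκ hε₁ (by linarith))
  obtain ⟨q₃, hq₃⟩ := eventually_atTop.1 hev
  refine ⟨c, hc0, hc1, max q₁ (max q₂ q₃), ?_⟩
  intro q _ hqq H hG D hD hDc
  have hqp : q.Prime := Fact.out
  have hbig := hq₃ q ((le_max_right _ _).trans ((le_max_right _ _).trans hqq))
  simp only [Function.comp_apply] at hbig
  set x : ℝ := Real.log q with hx
  obtain ⟨b1, b2, b3, b4, b5⟩ := hbig
  have hx0 : 0 < x := by linarith
  have hq0 : (0 : ℝ) < q := by exact_mod_cast hqp.pos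
  have hqx : (q : ℝ) = Real.exp x := (Real.exp_log hq0).symm
  have hD0 : 0 < D := by linarith
  have hD1 : 1 ≤ D := by linarith
  set L : ℝ := Real.log D with hL
  have hDL : D = Real.exp L := (Real.exp_log hD0).symm
  have hlx : Real.log x ≤ L := Real.log_le_log hx0 hD
  have hlx2 : 2 ≤ Real.log x := by
    rw [Real.le_log_iff_exp_le hx0]
    have := aux_exp2
    linarith
  have hL2 : 2 ≤ L := hlx2.trans hlx
  have hLx13 : L ≤ x ^ (1 / 3 : ℝ) := by
    have h1 : 0 < x ^ (1 / 3 : ℝ) := Real.rpow_pos_of_pos hx0 _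
    calc L ≤ c * x ^ (1 / 3 : ℝ) := hDc
      _ ≤ 1 * x ^ (1 / 3 : ℝ) := mul_le_mul_of_nonneg_right hc1 h1.le
      _ = _ := one_mul _
  have hxlog : x = Real.exp (Real.log x) := (Real.exp_log hx0).symm
  -- the size of the primes
  set y : ℕ := ⌈Real.exp (C₁ * (L + Real.log x))⌉₊ with hy
  have hy1 : Real.exp (C₁ * (L + Real.log x)) ≤ y := Nat.le_ceil _
  have hexp1 : 1 ≤ Real.exp (C₁ * (L + Real.log x)) := Real.one_le_exp (by positivity)
  have hy2 : (y : ℝ) ≤ 2 * Real.exp (C₁ * (L + Real.log x)) := by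
    have := Nat.ceil_lt_add_one (Real.exp_pos (C₁ * (L + Real.log x))).le
    rw [← hy] at this
    linarith
  have hy0 : (0 : ℝ) < y := by linarith
  have hly1 : C₁ * (L + Real.log x) ≤ Real.log y := (Real.le_log_iff_exp_le hy0).2 hy1
  have hly2 : Real.log y ≤ 3 * C₁ * L := by
    have h1 : Real.log y ≤ Real.log 2 + C₁ * (L + Real.log x) := by
      have := Real.log_le_log hy0 hy2
      rwa [Real.log_mul (by norm_num) (Real.exp_pos _).ne', Real.log_exp] at this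
    have h2 : Real.log 2 ≤ 1 := by
      have := Real.log_two_lt_d9; linarith
    have h3 : C₁ * Real.log x ≤ C₁ * L := mul_le_mul_of_nonneg_left hlx hC₁0.le
    have h4 : 40 * 2 ≤ C₁ * L := mul_le_mul hC₁40 hL2 (by norm_num) hC₁0.le
    linarith
  have hly80 : 80 ≤ Real.log y := by
    have : 40 * (2 : ℝ) ≤ C₁ * (L + Real.log x) := mul_le_mul hC₁40 (by linarith) (by norm_num) hC₁0.le
    linarith
  have hyx2 : x ^ 2 ≤ y := by
    refine le_trans ?_ hy1
    have : x ^ 2 = Real.exp (2 * Real.log x) := by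
      rw [two_mul, Real.exp_add, ← hxlog]; ring
    rw [this]
    apply Real.exp_le_exp.2
    exact mul_le_mul (by linarith) (by linarith) (by linarith) hC₁0.le
  have hyN : 1024 ^ 2 ≤ y := by
    have : (1024 : ℝ) ^ 2 ≤ y := (aux_pow b1 (by norm_num)).trans hyx2
    exact_mod_cast this
  -- the degrees
  set k : ℕ := ⌊θ * x / Real.log y⌋₊ with hk
  have hkup : (k : ℝ) * Real.log y ≤ θ * x := by
    have h1 : (k : ℝ) ≤ θ * x / Real.log y := Nat.floor_le (by positivity)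
    rwa [le_div_iff₀ (by linarith)] at h1
  set m : ℝ := x / L with hm
  have hL0 : 0 < L := by linarith
  have hm0 : 0 < m := by positivity
  have hmlow : x ^ (2 / 3 : ℝ) ≤ m := by
    rw [hm, le_div_iff₀ hL0]
    calc x ^ (2 / 3 : ℝ) * L ≤ x ^ (2 / 3 : ℝ) * x ^ (1 / 3 : ℝ) :=
          mul_le_mul_of_nonneg_left hLx13 (Real.rpow_nonneg hx0.le _)
      _ = x := by rw [← Real.rpow_add hx0]; norm_num
  have hc₂m : 4608 ≤ c₂ * m := by
    have h1 : 4608 / c₂ ≤ m := b2.trans hmlow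
    rw [div_le_iff₀ hc₂0] at h1
    linarith
  have hklow : c₂ * m / 2 ≤ k := by
    have h1 : θ * x / Real.log y < k + 1 := Nat.lt_floor_add_one _
    have h2 : c₂ * m ≤ θ * x / Real.log y := by
      rw [le_div_iff₀ (by linarith)]
      calc c₂ * m * Real.log y ≤ c₂ * m * (3 * C₁ * L) := mul_le_mul_of_nonneg_left hly2 (by positivity)
        _ = θ * x := by
          rw [hc₂, hm]; field_simp
    linarith
  have hkx : (k : ℝ) ≤ x := by
    have h1 : (k : ℝ) * 80 ≤ k * Real.log y := mul_le_mul_of_nonneg_left hly80 (Nat.cast_nonneg _)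
    have h2 : θ * x ≤ 1 * x := mul_le_mul_of_nonneg_right hθ1 hx0.le
    have h3 : (0 : ℝ) ≤ k := Nat.cast_nonneg _
    linarith
  set j : ℕ := ⌊Real.sqrt k / 24⌋₊ with hj
  have hsqk : Real.sqrt (c₂ * m / 2) ≤ Real.sqrt k := Real.sqrt_le_sqrt hklow
  have hsq48 : 48 ≤ Real.sqrt (c₂ * m / 2) := by
    rw [Real.le_sqrt (by norm_num) (by positivity)]
    linarith
  have hjlow : c₃ * Real.sqrt m ≤ j := by
    have h1 : Real.sqrt k / 24 < j + 1 := Nat.lt_floor_add_one _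
    have h2 : Real.sqrt (c₂ * m / 2) / 24 - 1 ≥ Real.sqrt (c₂ * m / 2) / 48 := by linarith
    have h3 : Real.sqrt (c₂ * m / 2) = Real.sqrt (c₂ / 2) * Real.sqrt m := by
      rw [← Real.sqrt_mul (by positivity)]
      congr 1; ring
    rw [hc₃]
    rw [h3] at h2 hsqk
    have h4 : Real.sqrt (c₂ / 2) * Real.sqrt m / 24 ≤ Real.sqrt k / 24 := by linarith
    have h5 : Real.sqrt (c₂ / 2) / 48 * Real.sqrt m = Real.sqrt (c₂ / 2) * Real.sqrt m / 48 := by ring
    linarith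
  have hj1 : 1 ≤ j := by
    rw [hj, Nat.one_le_floor_iff, le_div_iff₀ (by norm_num)]
    linarith
  have hjk : 576 * j ^ 2 ≤ k := by
    have h1 : (j : ℝ) ≤ Real.sqrt k / 24 := Nat.floor_le (by positivity)
    have h2 : (j : ℝ) ^ 2 ≤ (Real.sqrt k / 24) ^ 2 := pow_le_pow_left₀ (Nat.cast_nonneg _) h1 2
    rw [div_pow, Real.sq_sqrt (Nat.cast_nonneg _)] at h2
    have h3 : (576 : ℝ) * j ^ 2 ≤ k := by linarith
    exact_mod_cast h3
  have hjk2 : 2 * j ≤ k := aux_jk hj1 hjk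
  have hk1 : 1 ≤ k := by omega
  -- powers of `y`
  have hypow : ∀ n : ℕ, (y : ℝ) ^ n = Real.exp (n * Real.log y) := by
    intro n
    rw [Real.exp_nat_mul, Real.exp_log hy0]
  have hyk : ∀ n : ℕ, ∀ t : ℝ, (n : ℝ) ≤ t * k → (y : ℝ) ^ n ≤ Real.exp (t * θ * x) := by
    intro n t hn
    rw [hypow]
    apply Real.exp_le_exp.2
    have ht : 0 ≤ t := by
      by_contra hneg
      have h1 : t * k < 0 := mul_neg_of_neg_of_pos (not_le.1 hneg) (by exact_mod_cast hk1)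
      have : (0 : ℝ) ≤ n := Nat.cast_nonneg _
      linarith
    calc (n : ℝ) * Real.log y ≤ t * k * Real.log y := mul_le_mul_of_nonneg_right hn (by linarith)
      _ = t * (k * Real.log y) := by ring
      _ ≤ t * (θ * x) := mul_le_mul_of_nonneg_left hkup ht
      _ = _ := by ring
  -- the length of the mollifier
  set Y : ℕ := ⌊(q : ℝ) ^ (κ / 8)⌋₊ with hY
  have hqκ : (q : ℝ) ^ (κ / 8) = Real.exp (κ / 8 * x) := by
    rw [Real.rpow_def_of_pos hq0, mul_comm]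
  have hYup : (Y : ℝ) ≤ Real.exp (κ / 8 * x) := by
    rw [← hqκ]; exact Nat.floor_le (by positivity)
  have hYlow : Real.exp (κ / 8 * x) / 2 ≤ Y := by
    have h1 : (q : ℝ) ^ (κ / 8) < Y + 1 := Nat.lt_floor_add_one _
    rw [hqκ] at h1
    have h2 : (4 : ℝ) ≤ Real.exp (κ / 8 * x) := by
      rw [← Real.log_le_iff_le_exp (by norm_num)]
      exact b4
    linarith
  -- the primes
  set I : Finset ℕ := Pool.Agent.H17HN.win (y ^ 2) with hI
  have hIy : ∀ p ∈ I, y < p := by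
    intro p hp
    have := (Pool.Agent.H17HN.mem_win.1 hp).2.2
    exact lt_of_pow_lt_pow_left₀ 2 (Nat.zero_le _) this
  have hsizer : (Y : ℝ) * (y : ℝ) ^ (2 * k) * (y : ℝ) ^ (2 * (k + j)) < q := by
    have h1 : (y : ℝ) ^ (2 * k) ≤ Real.exp (2 * θ * x) := hyk _ 2 (by push_cast; linarith)
    have h2 : (y : ℝ) ^ (2 * (k + j)) ≤ Real.exp (4 * θ * x) := by
      apply hyk
      have h3 : (j : ℝ) ≤ k := by exact_mod_cast (by omega : j ≤ k)
      push_cast; linarith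
    calc (Y : ℝ) * (y : ℝ) ^ (2 * k) * (y : ℝ) ^ (2 * (k + j)) ≤
        Real.exp (κ / 8 * x) * Real.exp (2 * θ * x) * Real.exp (4 * θ * x) := by
          apply mul_le_mul _ h2 (by positivity) (by positivity)
          exact mul_le_mul hYup h1 (by positivity) (by positivity)
      _ = Real.exp ((κ / 8 + 6 * θ) * x) := by
          rw [← Real.exp_add, ← Real.exp_add]; congr 1; ring
      _ < Real.exp x := by
          apply Real.exp_lt_exp.2
          have : κ / 8 + 6 * θ < 1 := by linarith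
          exact mul_lt_of_lt_one_left hx0 this
      _ = q := hqx.symm
  have hsize : Y * y ^ (2 * k) * y ^ (2 * (k + j)) < q := by exact_mod_cast hsizer
  have hY1 : 1 ≤ Y := by
    have h2 : (4 : ℝ) ≤ Real.exp (κ / 8 * x) := by
      rw [← Real.log_le_iff_le_exp (by norm_num)]
      exact b4
    have : (1 : ℝ) ≤ Y := by linarith
    exact_mod_cast this
  have hyNpos : 0 < y := by omega
  have hy2q : y ^ 2 < q := by
    refine lt_of_le_of_lt ?_ hsize
    calc y ^ 2 ≤ y ^ (2 * (k + j)) := Nat.pow_le_pow_right hyNpos (by omega)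
      _ ≤ (Y * y ^ (2 * k)) * y ^ (2 * (k + j)) :=
        Nat.le_mul_of_pos_left _ (Nat.mul_pos (by omega) (Nat.pow_pos hyNpos))
  have hIall : ∀ p ∈ I, p.Prime ∧ y < p ∧ p ≤ y ^ 2 ∧ p < q := by
    intro p hp
    have h1 := Pool.Agent.H17HN.mem_win.1 hp
    exact ⟨h1.2.1, hIy p hp, h1.1.2, lt_of_le_of_lt h1.1.2 hy2q⟩
  have hs18 : 1 / 18 ≤ ∑ p ∈ I, 1 / (p : ℝ) := by
    apply Pool.Agent.H17HN.win_sum
    calc 4 ^ 20 = (1024 ^ 2) ^ 2 := by norm_num
      _ ≤ y ^ 2 := Nat.pow_le_pow_left hyN 2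
  have hsup : ∑ p ∈ I, 1 / (p : ℝ) ≤ 1 + 2 * Real.log y := by
    have h1 : I ⊆ Icc 1 (y ^ 2) := by
      intro p hp
      rw [mem_Icc]
      exact (Pool.Agent.H17HN.mem_win.1 hp).1
    have h2 : ∑ p ∈ I, 1 / (p : ℝ) ≤ ∑ p ∈ Icc 1 (y ^ 2), 1 / (p : ℝ) :=
      Finset.sum_le_sum_of_subset_of_nonneg h1 (fun _ _ _ => by positivity)
    have h3 := harm_le (y ^ 2) (F := ((y ^ 2 : ℕ) : ℝ)) (by exact_mod_cast Nat.one_le_pow _ _ hyNpos) le_rfl
    rw [Nat.cast_pow, Real.log_pow] at h3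
    push_cast at h3
    linarith
  -- the small quantity
  set r : ℝ := Real.sqrt (4 * x * (y : ℝ) ^ (-(κ / 4))) with hr
  have hyneg : (y : ℝ) ^ (-(κ / 4)) ≤ Real.exp (-(10 * (L + Real.log x))) := by
    rw [Real.rpow_def_of_pos hy0]
    apply Real.exp_le_exp.2
    have h1 : κ / 4 * (C₁ * (L + Real.log x)) ≤ κ / 4 * Real.log y :=
      mul_le_mul_of_nonneg_left hly1 (by positivity)
    have h2 : κ / 4 * (C₁ * (L + Real.log x)) = 10 * (L + Real.log x) := by
      rw [hC₁]; field_simp; ring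
    linarith
  have hr2 : r ^ 2 = 4 * x * (y : ℝ) ^ (-(κ / 4)) := by
    rw [hr]; exact Real.sq_sqrt (by positivity)
  have hrup : r ≤ 2 * x * Real.exp (-(5 * (L + Real.log x))) := by
    rw [hr, Real.sqrt_le_left (by positivity)]
    apply aux_rsq (by linarith) _ (by positivity)
    refine hyneg.trans (le_of_eq ?_)
    rw [← Real.exp_nat_mul]
    congr 1
    push_cast
    ring
  have hexpx : Real.exp (-(5 * (L + Real.log x))) = 1 / (D ^ 5 * x ^ 5) := by
    rw [Real.exp_neg, one_div]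
    congr 1
    rw [mul_add, Real.exp_add]
    congr 1
    · rw [hDL, ← Real.exp_nat_mul]; norm_num
    · have : x ^ 5 = Real.exp (Real.log x) ^ 5 := by rw [← hxlog]
      rw [this, ← Real.exp_nat_mul]; norm_num
  have hlogyx : Real.log y ≤ x := by
    have : Real.log y * 1 ≤ Real.log y * k := mul_le_mul_of_nonneg_left (by exact_mod_cast hk1) (by linarith)
    have h2 : θ * x ≤ 1 * x := mul_le_mul_of_nonneg_right hθ1 hx0.le
    linarith
  have hkjx : 36 * ((k + j : ℕ) : ℝ) ≤ 72 * x := by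
    have h3 : (j : ℝ) ≤ k := by exact_mod_cast (by omega : j ≤ k)
    push_cast; linarith
  have hlam : (36 * ((k + j : ℕ) : ℝ)) ^ 2 * ((1 + 2 * Real.log y) * r) ≤ 1 / (128 * D) := by
    have h1 : (36 * ((k + j : ℕ) : ℝ)) ^ 2 ≤ (72 * x) ^ 2 := pow_le_pow_left₀ (by positivity) hkjx 2
    have h2 : (1 + 2 * Real.log y) ≤ 3 * x := by linarith
    have h0 : 0 ≤ 1 + 2 * Real.log y := by linarith
    have h3 : (36 * ((k + j : ℕ) : ℝ)) ^ 2 * ((1 + 2 * Real.log y) * r) ≤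
        (72 * x) ^ 2 * ((3 * x) * (2 * x * (1 / (D ^ 5 * x ^ 5)))) := by
      rw [hexpx] at hrup
      apply mul_le_mul h1 _ (by positivity) (by positivity)
      exact mul_le_mul h2 hrup (Real.sqrt_nonneg _) (by positivity)
    refine h3.trans ?_
    rw [aux_lam2 hx0 hD0]
    exact aux_lam1 b1 hD
  have hr1 : r ≤ 1 := by
    refine hrup.trans ?_
    rw [hexpx]
    exact aux_r1 b1 hD
  -- the harmonic sum
  have hΛ : ∑ a ∈ Icc 1 Y, 1 / (a : ℝ) ≤ 1 + x := by
    have h1 : (Y : ℝ) ≤ q := by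
      rw [hqx]
      refine hYup.trans (Real.exp_le_exp.2 ?_)
      calc κ / 8 * x ≤ 1 * x := mul_le_mul_of_nonneg_right (by linarith) hx0.le
        _ = x := one_mul x
    exact harm_le Y (by exact_mod_cast hqp.one_lt.le) h1
  have hmain := finite_main H I y k j Y hIall (by omega) hj1 hjk
    (by
      have h1 : 36 * ((k + j : ℕ) : ℝ) ≤ y := by
        refine hkjx.trans (le_trans ?_ hyx2)
        rw [sq]
        exact mul_le_mul_of_nonneg_right (by linarith) hx0.le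
      exact_mod_cast h1) hs18
    (by
      have h1 : (y : ℝ) ^ (2 * j) ≤ Y := by
        have h2 : (y : ℝ) ^ (2 * j) ≤ Real.exp (1 * θ * x) := by
          apply hyk
          have : ((2 * j : ℕ) : ℝ) ≤ k := by exact_mod_cast hjk2
          linarith
        refine h2.trans (le_trans ?_ hYlow)
        rw [le_div_iff₀ (by norm_num)]
        have h3 : (2 : ℝ) ≤ Real.exp ((κ / 8 - θ) * x) := by
          rw [← Real.log_le_iff_le_exp (by norm_num)]
          exact b3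
        calc Real.exp (1 * θ * x) * 2 ≤ Real.exp (1 * θ * x) * Real.exp ((κ / 8 - θ) * x) :=
              mul_le_mul_of_nonneg_left h3 (Real.exp_pos _).le
          _ = _ := by rw [← Real.exp_add]; congr 1; ring
      exact_mod_cast h1) hsize r (1 + 2 * Real.log y) (1 + x) ((q : ℝ) ^ (-ε₁)) D (Real.sqrt_nonneg _) hr1
    (by linarith) hsup
    (by
      intro a ha hya c'
      rw [hr2]
      exact hsm q ((le_max_left _ _).trans ((le_max_right _ _).trans hqq)) (ann H) hG y (by omega) I hIall a ha hya c')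
    hΛ (by linarith) (by positivity)
    (fun c' => hint q ((le_max_left _ _).trans hqq) (ann H) hG c' Y (by rw [hqκ]; exact hYlow))
    hD1 hlam
    (by
      have h1 : (y : ℝ) ^ (10 * (k + j)) ≤ Real.exp (15 * θ * x) := by
        apply hyk
        have : ((2 * j : ℕ) : ℝ) ≤ k := by exact_mod_cast hjk2
        push_cast at this ⊢
        linarith
      have h2 : (q : ℝ) ^ (-ε₁) = Real.exp (-(ε₁ * x)) := by
        rw [Real.rpow_def_of_pos hq0]; congr 1; ring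
      have h3 : (Y : ℝ) ^ 2 * (Fintype.card (ann H) : ℝ) / q ≤ Real.exp (-(3 / 4 * ε₁ * x)) := by
        have h4 : (Fintype.card (ann H) : ℝ) ≤ Real.exp ((1 - κ) * x) := by
          refine hG.trans (le_of_eq ?_)
          rw [Real.rpow_def_of_pos hq0, mul_comm]
        have h5 : (Y : ℝ) ^ 2 ≤ Real.exp (κ / 4 * x) := by
          refine (pow_le_pow_left₀ (Nat.cast_nonneg _) hYup 2).trans (le_of_eq ?_)
          rw [← Real.exp_nat_mul]; congr 1; push_cast; ring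
        rw [div_le_iff₀ hq0]
        calc (Y : ℝ) ^ 2 * (Fintype.card (ann H) : ℝ) ≤ Real.exp (κ / 4 * x) * Real.exp ((1 - κ) * x) :=
              mul_le_mul h5 h4 (by positivity) (by positivity)
          _ = Real.exp ((1 - 3 / 4 * κ) * x) := by rw [← Real.exp_add]; congr 1; ring
          _ ≤ Real.exp (-(3 / 4 * ε₁ * x) + x) := by
              apply Real.exp_le_exp.2
              have : ε₁ * x ≤ κ * x := mul_le_mul_of_nonneg_right hε₁κ hx0.le
              linarith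
          _ = _ := by rw [Real.exp_add, ← hqx]
      have h6 : Real.exp (-(ε₁ * x)) ≤ Real.exp (-(3 / 4 * ε₁ * x)) := by
        apply Real.exp_le_exp.2
        have : 0 < ε₁ * x := by positivity
        linarith
      have h7 : 2 * (q : ℝ) ^ (-ε₁) + 32 * (Y : ℝ) ^ 2 * (Fintype.card (ann H) : ℝ) / q ≤
          34 * Real.exp (-(3 / 4 * ε₁ * x)) := by
        rw [h2]
        have : 32 * (Y : ℝ) ^ 2 * (Fintype.card (ann H) : ℝ) / q =
          32 * ((Y : ℝ) ^ 2 * (Fintype.card (ann H) : ℝ) / q) := by ring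
        rw [this]
        linarith
      have h8 : (0 : ℝ) ≤ 2 * (q : ℝ) ^ (-ε₁) + 32 * (Y : ℝ) ^ 2 * (Fintype.card (ann H) : ℝ) / q := by positivity
      calc 32 * D * (y : ℝ) ^ (10 * (k + j)) *
          (2 * (q : ℝ) ^ (-ε₁) + 32 * (Y : ℝ) ^ 2 * (Fintype.card (ann H) : ℝ) / q) ≤
          32 * Real.exp (x ^ (1 / 3 : ℝ)) * Real.exp (15 * θ * x) * (34 * Real.exp (-(3 / 4 * ε₁ * x))) := by
            apply mul_le_mul _ h7 h8 (by positivity)
            apply mul_le_mul _ h1 (by positivity) (by positivity)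
            apply mul_le_mul_of_nonneg_left _ (by norm_num)
            rw [hDL]
            exact Real.exp_le_exp.2 hLx13
        _ = 1088 * (Real.exp (x ^ (1 / 3 : ℝ)) * Real.exp (15 * θ * x) * Real.exp (-(3 / 4 * ε₁ * x))) := by ring
        _ = Real.exp (Real.log 1088) * (Real.exp (x ^ (1 / 3 : ℝ)) * Real.exp (15 * θ * x) * Real.exp (-(3 / 4 * ε₁ * x))) := by
            rw [Real.exp_log (by norm_num)]
        _ = Real.exp (Real.log 1088 + (x ^ (1 / 3 : ℝ) + 15 * θ * x + -(3 / 4 * ε₁ * x))) := by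
            rw [← Real.exp_add, ← Real.exp_add, ← Real.exp_add]
        _ ≤ 1 := by
            apply Real.exp_le_one_iff.2
            have : 15 * θ * x = 3 / 8 * ε₁ * x := by rw [hθ]; ring
            linarith)
  -- the final value
  refine le_trans ?_ hmain
  have hval : Real.exp (c * Real.sqrt m) ≤ Real.exp j / (4 * D * Real.sqrt (1 + x)) := by
    rw [le_div_iff₀ (by positivity)]
    have h1 : 4 * D * Real.sqrt (1 + x) ≤ Real.exp (3 * L) := by
      have h4 : Real.exp (3 * L) = D ^ 3 := by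
        rw [hDL, ← Real.exp_nat_mul]; norm_num
      rw [h4]
      exact aux_val b1 hD
    have h5 : 3 * L ≤ c₃ / 2 * Real.sqrt m := aux_fin hL0 hx0 hc0 hc1 hcc₃ hDc
    have hsm0 : 0 ≤ Real.sqrt m := Real.sqrt_nonneg _
    calc Real.exp (c * Real.sqrt m) * (4 * D * Real.sqrt (1 + x)) ≤
        Real.exp (c * Real.sqrt m) * Real.exp (3 * L) := mul_le_mul_of_nonneg_left h1 (Real.exp_pos _).le
      _ = Real.exp (c * Real.sqrt m + 3 * L) := (Real.exp_add _ _).symm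
      _ ≤ Real.exp j := by
        apply Real.exp_le_exp.2
        have h13 : c * Real.sqrt m ≤ c₃ / 6 * Real.sqrt m := mul_le_mul_of_nonneg_right hcc₃ hsm0
        have h14 : 0 ≤ c₃ * Real.sqrt m := by positivity
        linarith
  have hsub : (univ.filter (fun χ₀ : DirichletCharacter ℂ q => ∀ ψ ∈ H,
      ‖DirichletCharacter.LFunction (χ₀ * ψ) (1 / 2)‖ < Real.exp (c * Real.sqrt (x / L)))) ⊆
      (univ.filter (fun χ₀ : DirichletCharacter ℂ q => ∀ ψ ∈ H,
      ‖DirichletCharacter.LFunction (χ₀ * ψ) (1 / 2)‖ < Real.exp j / (4 * D * Real.sqrt (1 + x)))) := by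
    intro χ₀ h
    rw [mem_filter] at h ⊢
    exact ⟨h.1, fun ψ hψ => lt_of_lt_of_le (h.2 ψ hψ) hval⟩
  exact_mod_cast card_le_card hsub

end Pool.Agent.K4H49.AC
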