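import Mathlib
import Pool.Agent.K4H49.AC.A11

/-! The index of a subgroup is the order of its annihilator. -/

set_option autoImplicit false

namespace Pool.Agent.K4H49.AC
open Finset Pool.Agent.R311.RES
open scoped Classical

lemma card_ann_index' {q : ℕ} [Fact q.Prime] (H : Subgroup (DirichletCharacter ℂ q)) :
    (Fintype.card (ann H) : ℝ) = (H.index : ℝ) := by
  have hq : q.Prime := Fact.out
  have : NeZero q := ⟨hq.pos.ne'⟩
  have h1 := card_mul H
  have h2 : (H.index : ℝ) * (Nat.card H : ℝ) = q - 1 := by
    have h3 : H.index * Nat.card H = Nat.card (DirichletCharacter ℂ q) := H.index_mul_card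
    have h4' : Nat.card (DirichletCharacter ℂ q) = q.totient :=
      DirichletCharacter.card_eq_totient_of_hasEnoughRootsOfUnity ℂ q
    rw [h4', Nat.totient_prime hq] at h3
    have h5 : ((H.index * Nat.card H : ℕ) : ℝ) = ((q - 1 : ℕ) : ℝ) := by rw [h3]
    rw [Nat.cast_sub hq.one_lt.le] at h5
    push_cast at h5
    exact h5
  rw [Nat.card_eq_fintype_card] at h2
  have h6 : (0 : ℝ) < Fintype.card H := by
    have : 0 < Fintype.card H := Fintype.card_pos
    exact_mod_cast this
  have h7 : (Fintype.card H : ℝ) * (Fintype.card (ann H) : ℝ) = (Fintype.card H : ℝ) * H.index := by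
    rw [h1, ← h2]; ring
  exact mul_left_cancel₀ h6.ne' h7

end Pool.Agent.K4H49.AC
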